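import Pool.Agent.USP.Stage

/-! # The chain of stages, and the decomposition into local families -/

namespace Pool.Agent.USP

open MvPolynomial

variable {P ι : Type} [Fintype ι]

theorem ps_big (K : Cpx P ι) {k r : ℕ} {U : Set (Multiset P)} {φ : K.Fam}
    (hφ : φ ∈ PS K k r U) (σ : K.Cell) {β : Multiset P} (hβ : On σ.1 β)
    (hc : k < Multiset.card β) (q : MvPolynomial ι ℝ) : φ σ (mon K.c β * q) = 0 := by
  have key := mul_ext_mon K σ (φ := φ σ) (ψ := 0) (a := mon K.c β) (b := 1) ?_ q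
  · rw [key]; simp
  · intro δ hδ
    rw [← mon_add, LinearMap.zero_apply]
    refine hφ.1 σ _ (on_add.2 ⟨hβ, hδ⟩) ?_
    rw [Multiset.card_add]; omega

theorem ps_congr (K : Cpx P ι) {k r : ℕ} {U U' : Set (Multiset P)}
    (h : ∀ σ : K.Cell, ∀ β, On σ.1 β → Multiset.card β ≤ k → β ∈ U' → β ∈ U) {φ : K.Fam}
    (hφ : φ ∈ PS K k r U) : φ ∈ PS K k r U' := by
  refine ⟨hφ.1, fun σ τ β hσ hτ hβ hk q => ?_⟩
  by_cases hc : Multiset.card β ≤ k
  · exact hφ.2 σ τ β hσ hτ (h σ β hσ hc hβ) hk q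
  · rw [ps_big K hφ σ hσ (by omega), ps_big K hφ τ hτ (by omega)]

theorem good_congr (K : Cpx P ι) {k r N : ℕ} {U U' : Set (Multiset P)}
    (h : ∀ σ : K.Cell, ∀ β, On σ.1 β → Multiset.card β ≤ k → (β ∈ U ↔ β ∈ U'))
    (hg : Good K k r U N) : Good K k r U' N := by
  obtain ⟨h1, h2⟩ := hg
  refine ⟨?_, ?_⟩
  · intro φ hφ Ξ hΞ
    obtain ⟨φ', hφ', hag, hsup⟩ := h1 φ (ps_congr K (fun σ β hβ hc hU => (h σ β hβ hc).1 hU) hφ)
      Ξ hΞ
    refine ⟨φ', hφ', fun σ α hα hαU => ?_, hsup⟩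
    by_cases hc : Multiset.card α ≤ k
    · exact hag σ α hα ((h σ α hα hc).2 hαU)
    · rw [hφ'.1 σ α hα (by omega), hφ.1 σ α hα (by omega)]
  · intro φ hφ hvan
    refine h2 φ hφ fun σ α hα hαU => ?_
    by_cases hc : Multiset.card α ≤ k
    · exact hvan σ α hα ((h σ α hα hc).1 hαU)
    · exact hφ.1 σ α hα (by omega)

/-- the final radii -/
def RR (t r m : ℕ) : ℕ :=
  if m ≤ t then 2 ^ (t - m) * (3 * r + 1) else if m = t + 1 then 2 * r
  else if m = t + 2 then r else 0

/-- the radii while the faces of size `n` are treated -/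
def QQ (t r n e m : ℕ) : ℕ := if m < n then RR t r m + 1 else if m = n then e else 0

theorem RR_double {t r m : ℕ} (h : m + 1 ≤ t) : RR t r m = 2 * RR t r (m + 1) := by
  unfold RR
  rw [if_pos (by omega), if_pos h]
  have : t - m = (t - (m + 1)) + 1 := by omega
  rw [this, pow_succ]
  ring

theorem RR_t (t r : ℕ) : RR t r t = 3 * r + 1 := by
  unfold RR; rw [if_pos le_rfl]; simp

theorem RR_t1 (t r : ℕ) : RR t r (t + 1) = 2 * r := by
  unfold RR; rw [if_neg (by omega), if_pos rfl]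

theorem RR_t2 (t r : ℕ) : RR t r (t + 2) = r := by
  unfold RR; rw [if_neg (by omega), if_neg (by omega), if_pos rfl]

theorem RR_t3 {t r m : ℕ} (h : t + 3 ≤ m) : RR t r m = 0 := by
  unfold RR; rw [if_neg (by omega), if_neg (by omega), if_neg (by omega)]

theorem RR_succ_le (t r m : ℕ) : RR t r (m + 1) ≤ RR t r m := by
  rcases Nat.lt_trichotomy (m + 1) (t + 1) with h | h | h
  · rw [RR_double (show m + 1 ≤ t by omega)]; omega
  · have : m = t := by omega
    subst this
    rw [RR_t1, RR_t]; omega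
  · by_cases h2 : m = t + 1
    · subst h2
      rw [RR_t1, RR_t2]; omega
    · rw [RR_t3 (by omega)]; omega

theorem RR_anti (t r : ℕ) {a b : ℕ} (h : a ≤ b) : RR t r b ≤ RR t r a := by
  induction b, h using Nat.le_induction with
  | base => exact le_rfl
  | succ b _ ih => exact (RR_succ_le t r b).trans ih

theorem RR_add {t r n e m : ℕ} (hn : n ≤ t + 3) (he : e ≤ RR t r n) (hm : m + 1 < n) :
    e + RR t r (m + 1) ≤ RR t r m := by
  rcases Nat.lt_trichotomy (m + 1) (t + 1) with h | h | h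
  · rw [RR_double (by omega : m + 1 ≤ t)]
    have := RR_anti t r (by omega : m + 1 ≤ n)
    omega
  · have : m = t := by omega
    subst this
    rw [RR_t1, RR_t]
    have := RR_anti m r (by omega : m + 2 ≤ n)
    rw [RR_t2] at this
    omega
  · have h2 : m = t + 1 := by omega
    have h3 : n = t + 3 := by omega
    subst h2 h3
    rw [RR_t3 le_rfl] at he
    rw [RR_t1, RR_t2]
    omega

theorem QQ_succ (t r n : ℕ) : QQ t r n (RR t r n + 1) = QQ t r (n + 1) 0 := by
  funext m
  unfold QQ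
  rcases Nat.lt_trichotomy m n with h | h | h
  · rw [if_pos h, if_pos (by omega)]
  · subst h
    rw [if_neg (by omega), if_pos rfl, if_pos (by omega)]
  · rw [if_neg (by omega), if_neg (by omega), if_neg (by omega)]
    split_ifs <;> rfl

theorem QQ_update (t r n e : ℕ) :
    (fun m => if m = n then e + 1 else QQ t r n e m) = QQ t r n (e + 1) := by
  funext m
  unfold QQ
  by_cases h : m = n
  · subst h
    rw [if_pos rfl, if_neg (by omega), if_pos rfl]
  · rw [if_neg h, if_neg h, if_neg h]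

theorem QQ_add {t r n e m : ℕ} (hn : n ≤ t + 3) (he : e ≤ RR t r n) (hm : m + 1 < n) :
    e + QQ t r n e (m + 1) ≤ QQ t r n e m := by
  have := RR_add hn he hm
  unfold QQ
  rw [if_pos hm, if_pos (by omega)]
  omega

theorem QQ_big {t r n e m : ℕ} (hm : n < m) : QQ t r n e m = 0 := by
  unfold QQ
  rw [if_neg (by omega), if_neg (by omega)]

theorem QQ_self (t r n e : ℕ) : QQ t r n e n = e := by
  unfold QQ
  rw [if_neg (by omega), if_pos rfl]

theorem QQ_lt {t r n e m : ℕ} (hm : m < n) : QQ t r n e m = RR t r m + 1 := by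
  unfold QQ
  rw [if_pos hm]

/-- `Good` for all complexes, with one number of layers -/
def GoodAll (P ι : Type) [Fintype ι] (k r : ℕ) (U : Set (Multiset P)) : Prop :=
  ∃ N, ∀ K : Cpx P ι, Good K k r U N

theorem goodAll_step {k r : ℕ} {U U' : Set (Multiset P)}
    (h : ∀ K : Cpx P ι, StepOK K k r U U') (hg : GoodAll P ι k r U') : GoodAll P ι k r U := by
  obtain ⟨N, hN⟩ := hg
  exact ⟨N + 1, fun K => good_step K (h K) (hN K)⟩

theorem lemA {k r t n e : ℕ} (hn1 : 1 ≤ n) (hn : n ≤ t + 3)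
    (he : e ≤ RR t r n) (hne : n ≠ t + 1 ∨ 2 * e ≤ 3 * r + 1)
    (hg : GoodAll P ι k r (UQ P k (QQ t r n (e + 1)))) :
    GoodAll P ι k r (UQ P k (QQ t r n e)) := by
  refine goodAll_step (fun K => ?_) hg
  rw [← QQ_update]
  have h2 : 2 * e < QQ t r n e (n - 1) := by
    rw [QQ_lt (by omega)]
    rcases Nat.lt_trichotomy n (t + 1) with h | h | h
    · have := RR_double (t := t) (r := r) (m := n - 1) (by omega)
      have h3 : n - 1 + 1 = n := by omega
      rw [h3] at this
      omega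
    · subst h
      rw [Nat.add_sub_cancel, RR_t]
      omega
    · by_cases h4 : n = t + 2
      · subst h4
        rw [RR_t2] at he
        have h5 : t + 2 - 1 = t + 1 := by omega
        rw [h5, RR_t1]
        omega
      · rw [RR_t3 (by omega)] at he
        omega
  refine zero_stage K hn1 (QQ_self t r n e) (fun m hm => QQ_big hm) ?_ h2
  intro m hm
  by_cases h : m + 1 < n
  · exact QQ_add hn he h
  · have h3 : m + 1 = n := by omega
    have h4 : m = n - 1 := by omega
    rw [h3, QQ_self, h4]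
    omega

theorem lemB {k r t e : ℕ} (hι : Fintype.card ι = t + 3) (ht : 1 ≤ t)
    (h1 : 3 * r + 2 ≤ 2 * e) (h2 : e ≤ 2 * r)
    (hg : GoodAll P ι k r (UQ P k (QQ t r (t + 1) (e + 1)))) :
    GoodAll P ι k r (UQ P k (QQ t r (t + 1) e)) := by
  have he : e ≤ RR t r (t + 1) := by rw [RR_t1]; exact h2
  have hbig : ∀ m, t + 2 ≤ m → QQ t r (t + 1) e m = 0 := fun m hm => QQ_big (by omega)
  have hQ : ∀ m, m + 1 ≤ t → e + QQ t r (t + 1) e (m + 1) ≤ QQ t r (t + 1) e m := fun m hm =>
    QQ_add (by omega) he (by omega)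
  have hQt : 3 * r + 2 ≤ QQ t r (t + 1) e t := by
    rw [QQ_lt (by omega), RR_t]
  have hQt1 : 2 * e < QQ t r (t + 1) e (t - 1) := by
    rw [QQ_lt (by omega)]
    have := RR_double (t := t) (r := r) (m := t - 1) (by omega)
    have h3 : t - 1 + 1 = t := by omega
    rw [h3, RR_t] at this
    omega
  obtain ⟨a, ha⟩ : ∃ a, a + (3 * r + 1) = 2 * e := ⟨2 * e - (3 * r + 1), by omega⟩
  have h3 : GoodAll P ι k r (UT P k t e a (QQ t r (t + 1) e)) := by
    refine goodAll_step (fun K => ?_) hg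
    rw [← QQ_update]
    exact pade_stage K hι ht (QQ_self _ _ _ _) hbig hQ hQt hQt1 h1 h2 ha
  have h4 : ∀ b, b ≤ a → GoodAll P ι k r (UT P k t e b (QQ t r (t + 1) e)) →
      GoodAll P ι k r (UT P k t e 0 (QQ t r (t + 1) e)) := by
    intro b
    induction b with
    | zero => intro _ h; exact h
    | succ b ih =>
      intro hb h
      refine ih (by omega) (goodAll_step (fun K => ?_) h)
      exact tie_stage K (QQ_self _ _ _ _) hbig hQ hQt h1 h2 (by omega)
  obtain ⟨N, hN⟩ := h4 a le_rfl h3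
  refine ⟨N, fun K => good_congr K ?_ (hN K)⟩
  intro σ β _ hc
  constructor
  · rintro (h | ⟨F, G, _, _, _, _, h5⟩)
    · exact h
    · have := wt_le_card G β
      omega
  · exact fun h => Or.inl h

theorem lemStep {k r t n e : ℕ} (hι : Fintype.card ι = t + 3) (ht : 1 ≤ t) (hn1 : 1 ≤ n)
    (hn : n ≤ t + 3) (he : e ≤ RR t r n)
    (hg : GoodAll P ι k r (UQ P k (QQ t r n (e + 1)))) :
    GoodAll P ι k r (UQ P k (QQ t r n e)) := by
  by_cases h : n = t + 1 ∧ 3 * r + 2 ≤ 2 * e
  · obtain ⟨rfl, h2⟩ := h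
    rw [RR_t1] at he
    exact lemB hι ht h2 he hg
  · exact lemA hn1 hn he (by omega) hg

theorem chain_n {k r t n : ℕ} (hι : Fintype.card ι = t + 3) (ht : 1 ≤ t) (hn : n ≤ t + 3)
    (hg : GoodAll P ι k r (UQ P k (QQ t r (n + 1) 0))) :
    GoodAll P ι k r (UQ P k (QQ t r 1 0)) := by
  induction n with
  | zero => exact hg
  | succ n ih =>
    refine ih (by omega) ?_
    rw [← QQ_succ] at hg
    have : ∀ e, e ≤ RR t r (n + 1) + 1 → GoodAll P ι k r (UQ P k (QQ t r (n + 1) e)) →
        GoodAll P ι k r (UQ P k (QQ t r (n + 1) 0)) := by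
      intro e
      induction e with
      | zero => intro _ h; exact h
      | succ e ihe =>
        intro he h
        exact ihe (by omega) (lemStep hι ht (by omega) hn (by omega) h)
    exact this _ le_rfl hg

theorem good_start {k r t : ℕ} (hι : Fintype.card ι = t + 3) :
    GoodAll P ι k r (UQ P k (QQ t r (t + 4) 0)) := by
  classical
  refine ⟨0, fun K => ⟨?_, ?_⟩⟩
  · intro φ hφ Ξ hΞ
    refine ⟨φ, ⟨hφ.1, ?_⟩, fun σ α _ _ => rfl, hΞ⟩
    intro σ τ β hσ hτ _ hk q
    by_cases hc : β.toFinset.card = t + 3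
    · have h1 : ∀ σ : K.Cell, On σ.1 β → σ.1 = β.toFinset := by
        intro σ hσ
        symm
        refine Finset.eq_of_subset_of_card_le (fun x hx => hσ x (Multiset.mem_toFinset.1 hx)) ?_
        rw [K.card_eq σ.1 σ.2, hι, hc]
      have h2 : σ = τ := Subtype.ext ((h1 σ hσ).trans (h1 τ hτ).symm)
      rw [h2]
    · refine hφ.2 σ τ β hσ hτ ⟨β.toFinset, ?_⟩ hk q
      have h1 : β.toFinset.card ≤ t + 3 := by
        have := Finset.card_le_card (s := β.toFinset) (t := σ.1)
          (fun x hx => hσ x (Multiset.mem_toFinset.1 hx))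
        rwa [K.card_eq σ.1 σ.2, hι] at this
      rw [wt_toFinset, QQ_lt (by omega)]
      have h2 := RR_anti t r (by omega : β.toFinset.card ≤ t + 2)
      rw [RR_t2] at h2
      omega
  · intro φ hφ hvan
    have : φ = 0 := by
      funext σ
      refine fun_ext_mon K σ fun δ hδ => ?_
      by_cases hc : Multiset.card δ = k
      · rw [hvan σ δ hδ ⟨δ.toFinset, ?_⟩]
        · rfl
        · have h1 : δ.toFinset.card ≤ t + 3 := by
            have := Finset.card_le_card (s := δ.toFinset) (t := σ.1)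
              (fun x hx => hδ x (Multiset.mem_toFinset.1 hx))
            rwa [K.card_eq σ.1 σ.2, hι] at this
          rw [wt_toFinset, QQ_lt (by omega)]
          omega
      · rw [hφ.1 σ δ hδ hc]; rfl
    rw [this]
    exact Submodule.zero_mem _

/-- the algebraic core: in degree `k > 2^t (3r+1)` every smooth family is a sum of local ones -/
theorem core {k r t : ℕ} (hι : Fintype.card ι = t + 3) (ht : 1 ≤ t)
    (hk : 2 ^ t * (3 * r + 1) + 1 ≤ k) :
    ∃ N, ∀ K : Cpx P ι, ∀ φ ∈ PS K k r Set.univ,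
      φ ∈ Submodule.span ℝ {ψ | ψ ∈ PS K k r Set.univ ∧
        ∃ v, (∃ σ : K.Cell, v ∈ σ.1) ∧ Sup K ((Nb K)^[N] {σ | v ∈ σ.1}) ψ} := by
  obtain ⟨N, hN⟩ := chain_n (P := P) (k := k) (r := r) hι ht (le_refl (t + 3)) (good_start hι)
  refine ⟨N, fun K φ hφ => (hN K).2 φ hφ ?_⟩
  rintro σ α hα ⟨E, hE⟩
  refine hφ.1 σ α hα ?_
  have h1 := wt_le_card E α
  by_cases h0 : E.card = 0
  · rw [h0, QQ_lt (by omega)] at hE
    rw [Finset.card_eq_zero] at h0
    subst h0
    have h2 : RR t r 0 = 2 ^ t * (3 * r + 1) := by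
      unfold RR; rw [if_pos (by omega), Nat.sub_zero]
    have h3 : wt (∅ : Finset P) α = 0 := by simp [wt]
    omega
  · have h2 : QQ t r 1 0 E.card = 0 := by
      unfold QQ
      rw [if_neg (by omega)]
      split_ifs <;> rfl
    omega

end Pool.Agent.USP
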