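import Pool.Agent.USP.Defs

/-! # The Padé lemma -/

namespace Pool.Agent.USP

open Polynomial

theorem pade_iter {ε δ : ℕ} {α β : ℝ} {Q : ℝ[X]} (hQ : Q.natDegree ≤ δ) (j : ℕ) (hj : j ≤ ε) :
    ∃ R : ℝ[X], R.natDegree ≤ δ ∧
      derivative^[j] ((C α + C β * X) ^ ε * Q) = (C α + C β * X) ^ (ε - j) * R := by
  induction j with
  | zero => exact ⟨Q, hQ, by simp⟩
  | succ j ih =>
    obtain ⟨R, hR, hd⟩ := ih (by omega)
    obtain ⟨m, hm⟩ : ∃ m, ε - j = m + 1 := ⟨ε - j - 1, by omega⟩
    have hm' : ε - (j + 1) = m := by omega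
    refine ⟨C ((m + 1 : ℝ) * β) * R + (C α + C β * X) * derivative R, ?_, ?_⟩
    · refine (natDegree_add_le _ _).trans (max_le ?_ ?_)
      · exact (natDegree_C_mul_le _ _).trans hR
      · by_cases h0 : derivative R = 0
        · rw [h0]; simp
        · have h1 : 1 ≤ R.natDegree := by
            by_contra hlt
            apply h0
            have : R.natDegree = 0 := by omega
            rw [eq_C_of_natDegree_eq_zero this, derivative_C]
          have h2 := natDegree_derivative_lt (p := R) (by omega)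
          refine natDegree_mul_le.trans ?_
          have h3 : (C α + C β * X : ℝ[X]).natDegree ≤ 1 := by
            rw [add_comm]; exact natDegree_linear_le
          omega
    · rw [Function.iterate_succ_apply', hd, hm, hm', derivative_mul, derivative_pow]
      simp only [derivative_add, derivative_C, derivative_mul, derivative_X, zero_add, zero_mul,
        mul_one, Nat.add_sub_cancel]
      rw [C_mul]
      push_cast
      rw [C_add, C_1, map_natCast]
      ring

theorem pade {ε δ n : ℕ} (hn : 2 * δ + 2 ≤ n) (hε : δ < ε) {α β : ℝ} (hα : α ≠ 0)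
    {P Q S : ℝ[X]} (hP : P.natDegree ≤ δ) (hQ : Q.natDegree ≤ δ)
    (h : X ^ n * S = P + (C α + C β * X) ^ ε * Q) : S = 0 := by
  obtain ⟨R, hR, hd⟩ := pade_iter (ε := ε) (α := α) (β := β) hQ (δ + 1) (by omega)
  have h1 : derivative^[δ + 1] (X ^ n * S) = (C α + C β * X) ^ (ε - (δ + 1)) * R := by
    rw [h, iterate_map_add, iterate_derivative_eq_zero (by omega), zero_add, hd]
  have h2 : (X : ℝ[X]) ^ (n - (δ + 1)) ∣ derivative^[δ + 1] (X ^ n * S) :=
    pow_sub_dvd_iterate_derivative_of_pow_dvd (δ + 1) (Dvd.intro _ rfl)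
  have hcop : IsCoprime (X : ℝ[X]) (C α + C β * X) := by
    refine ⟨-C (β / α), C (1 / α), ?_⟩
    have e1 : C (1 / α) * (C α + C β * X) = (1 : ℝ[X]) + C (β / α) * X := by
      rw [mul_add, ← C_mul, ← mul_assoc, ← C_mul]
      congr 1
      · rw [one_div, inv_mul_cancel₀ hα, C_1]
      · congr 2
        ring
    rw [e1]; ring
  have h3 : (X : ℝ[X]) ^ (n - (δ + 1)) ∣ R := by
    rw [h1] at h2
    exact (IsCoprime.pow hcop).dvd_of_dvd_mul_left h2
  have h4 : R = 0 := by
    refine eq_zero_of_dvd_of_natDegree_lt h3 ?_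
    rw [natDegree_X_pow]; omega
  rw [h4, mul_zero] at h1
  by_contra hS
  have hW : (X : ℝ[X]) ^ n * S ≠ 0 := mul_ne_zero (pow_ne_zero _ X_ne_zero) hS
  have hdeg : n ≤ ((X : ℝ[X]) ^ n * S).natDegree := by
    rw [natDegree_mul (pow_ne_zero _ X_ne_zero) hS, natDegree_X_pow]; omega
  have h5 := congrArg (fun p : ℝ[X] => p.coeff (((X : ℝ[X]) ^ n * S).natDegree - (δ + 1))) h1
  simp only [coeff_iterate_derivative, coeff_zero] at h5
  have e2 : ((X : ℝ[X]) ^ n * S).natDegree - (δ + 1) + (δ + 1) =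
      ((X : ℝ[X]) ^ n * S).natDegree := by omega
  rw [e2, nsmul_eq_mul, mul_eq_zero] at h5
  rcases h5 with h5 | h5
  · rw [Nat.cast_eq_zero, Nat.descFactorial_eq_zero_iff_lt] at h5
    omega
  · exact hW (leadingCoeff_eq_zero.1 h5)

end Pool.Agent.USP
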