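import Pool.Agent.USP.Zero
import Pool.Agent.USP.PadeP

/-! # Jets at a facet that vanish on the neighbouring facets -/

namespace Pool.Agent.USP

open MvPolynomial

variable {P ι : Type} [Fintype ι]

theorem exists_ext_disjoint {V : Type} [AddCommGroup V] [Module ℝ V] {A B : Submodule ℝ V}
    (h : Disjoint A B) (q : V →ₗ[ℝ] ℝ) :
    ∃ j : V →ₗ[ℝ] ℝ, (∀ x ∈ A, j x = q x) ∧ ∀ x ∈ B, j x = 0 := by
  obtain ⟨g, hg⟩ := (B.mkQ.comp A.subtype).exists_leftInverse_of_injective (by
    rw [LinearMap.ker_eq_bot']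
    rintro ⟨x, hx⟩ h0
    simp only [LinearMap.comp_apply, Submodule.subtype_apply, Submodule.mkQ_apply,
      Submodule.Quotient.mk_eq_zero] at h0
    have := Submodule.disjoint_def.1 h x hx h0
    exact Subtype.ext this)
  refine ⟨q.comp (A.subtype.comp (g.comp B.mkQ)), ?_, ?_⟩
  · intro x hx
    have := LinearMap.congr_fun hg ⟨x, hx⟩
    simp only [LinearMap.comp_apply, Submodule.subtype_apply, LinearMap.id_apply] at this
    show q (A.subtype (g (B.mkQ x))) = q x
    rw [this]; rfl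
  · intro x hx
    have : B.mkQ x = 0 := by simpa using hx
    show q (A.subtype (g (B.mkQ x))) = 0
    rw [this]; simp

theorem exists_theta (K : Cpx P ι) (σ : K.Cell) {g v : P} (hg : g ∈ σ.1) (hv : v ∈ σ.1)
    (hgv : g ≠ v) : ∃ (θ : MvPolynomial ι ℝ →ₐ[ℝ] Polynomial ℝ) (cg cv : (ι → ℝ) →ₗ[ℝ] ℝ),
      (∀ x, θ (lin x) = Polynomial.C (cv x) + Polynomial.C (cg x) * Polynomial.X) ∧
      cg (K.c g) = 1 ∧ cg (K.c v) = 0 ∧ cv (K.c g) = 0 ∧ cv (K.c v) = 1 ∧
      (∀ u ∈ σ.1, u ≠ g → u ≠ v → cg (K.c u) = 0 ∧ cv (K.c u) = 0) ∧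
      ∀ x, cv x = 0 → x ∈ Submodule.span ℝ (K.c '' {u | u ∈ σ.1 ∧ u ≠ v}) := by
  classical
  let b : Module.Basis σ.1 ℝ (ι → ℝ) := Module.Basis.mk (K.indep σ.1 σ.2) (by
    rw [K.span_eq σ])
  have hb : ∀ u : σ.1, b u = K.c u := by intro u; simp [b]
  have hcoord : ∀ u w : σ.1, b.coord u (K.c w) = if w = u then 1 else 0 := by
    intro u w
    rw [← hb, Module.Basis.coord_apply, Module.Basis.repr_self, Finsupp.single_apply]
  refine ⟨aeval fun i => Polynomial.C (b.coord ⟨v, hv⟩ (Pi.single i 1)) +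
    Polynomial.C (b.coord ⟨g, hg⟩ (Pi.single i 1)) * Polynomial.X,
    b.coord ⟨g, hg⟩, b.coord ⟨v, hv⟩, ?_, ?_, ?_, ?_, ?_, ?_, ?_⟩
  · intro x
    have hx : x = ∑ i, x i • (Pi.single i 1 : ι → ℝ) := by
      ext j
      simp [Finset.sum_apply, Pi.single_apply]
    conv_rhs => rw [hx]
    rw [lin_apply]
    simp only [map_sum, map_smul, aeval_X, smul_eq_mul]
    rw [Finset.sum_mul, ← Finset.sum_add_distrib]
    refine Finset.sum_congr rfl fun i _ => ?_
    rw [Polynomial.C_mul, Polynomial.C_mul, Polynomial.smul_eq_C_mul]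
    ring
  · have := hcoord ⟨g, hg⟩ ⟨g, hg⟩
    simpa using this
  · have := hcoord ⟨g, hg⟩ ⟨v, hv⟩
    simpa [Subtype.ext_iff, hgv.symm] using this
  · have := hcoord ⟨v, hv⟩ ⟨g, hg⟩
    simpa [Subtype.ext_iff, hgv] using this
  · have := hcoord ⟨v, hv⟩ ⟨v, hv⟩
    simpa using this
  · intro u hu hug huv
    have h1 := hcoord ⟨g, hg⟩ ⟨u, hu⟩
    have h2 := hcoord ⟨v, hv⟩ ⟨u, hu⟩
    rw [if_neg (by simpa [Subtype.ext_iff] using hug)] at h1
    rw [if_neg (by simpa [Subtype.ext_iff] using huv)] at h2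
    exact ⟨h1, h2⟩
  · intro x hx
    rw [← b.sum_repr x]
    refine Submodule.sum_mem _ fun u _ => ?_
    by_cases huv : (u : P) = v
    · have : b.repr x u = 0 := by
        have e : u = ⟨v, hv⟩ := Subtype.ext huv
        rw [e]; exact hx
      rw [this, zero_smul]; exact Submodule.zero_mem _
    · refine Submodule.smul_mem _ _ (Submodule.subset_span ⟨u, ⟨u.2, huv⟩, (hb u).symm⟩)

theorem mon_isHomogeneous (c : P → ι → ℝ) (α : Multiset P) :
    (mon c α).IsHomogeneous (Multiset.card α) := by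
  induction α using Multiset.induction_on with
  | empty => rw [mon_zero]; exact isHomogeneous_one _ _
  | cons a α ih =>
    rw [mon_cons, Multiset.card_cons, add_comm]
    refine IsHomogeneous.mul ?_ ih
    rw [lin_apply]
    refine IsHomogeneous.sum _ _ _ fun i _ => ?_
    rw [smul_eq_C_mul]
    have := (isHomogeneous_C ι (c a i)).mul (isHomogeneous_X ℝ i)
    simpa using this

theorem exists_j (K : Cpx P ι) {σ τ : K.Cell} {F : Finset P} {g v w : P}
    (hgv : g ≠ v) (hgF : g ∉ F) (hvF : v ∉ F) (hwF : w ∉ F) (hgw : g ≠ w)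
    (hσ : ∀ x, x ∈ σ.1 ↔ x = g ∨ x = v ∨ x ∈ F) (hτ : ∀ x, x ∈ τ.1 ↔ x = g ∨ x = w ∨ x ∈ F)
    {r e : ℕ} (h1 : 3 * r + 2 ≤ 2 * e) (h2 : e ≤ 2 * r) (q : MvPolynomial ι ℝ →ₗ[ℝ] ℝ)
    (hq1 : ∀ δ, On σ.1 δ → Multiset.card δ ≠ e → q (mon K.c δ) = 0)
    (hq2 : ∀ δ, On σ.1 δ → (∃ u ∈ F, u ∈ δ) → q (mon K.c δ) = 0) :
    ∃ j : MvPolynomial ι ℝ →ₗ[ℝ] ℝ,
      (∀ δ : Multiset P, Multiset.card δ ≠ e → j (mon K.c δ) = 0) ∧
      (∀ δ : Multiset P, (∃ u ∈ F, u ∈ δ) → j (mon K.c δ) = 0) ∧
      (∀ p, j (lin (K.c g) ^ (3 * r + 2 - e) * p) = q (lin (K.c g) ^ (3 * r + 2 - e) * p)) ∧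
      (∀ p, j (lin (K.c g) ^ (e - r) * lin (K.c v) ^ (e - r) * p) = 0) ∧
      (∀ p, j (lin (K.c g) ^ (e - r) * lin (K.c w) ^ (e - r) * p) = 0) := by
  classical
  have hg : g ∈ σ.1 := (hσ g).2 (Or.inl rfl)
  have hv : v ∈ σ.1 := (hσ v).2 (Or.inr (Or.inl rfl))
  obtain ⟨θ, cg, cv, hθ, hgg, hgv', hvg, hvv, hF, hspan⟩ := exists_theta K σ hg hv hgv
  have hFmem : ∀ u ∈ F, u ∈ σ.1 := fun u hu => (hσ u).2 (Or.inr (Or.inr hu))
  have hFne : ∀ u ∈ F, u ≠ g ∧ u ≠ v := fun u hu =>
    ⟨fun h => hgF (h ▸ hu), fun h => hvF (h ▸ hu)⟩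
  have hθF : ∀ u ∈ F, θ (lin (K.c u)) = 0 := by
    intro u hu
    obtain ⟨h3, h4⟩ := hF u (hFmem u hu) (hFne u hu).1 (hFne u hu).2
    rw [hθ, h3, h4]; simp
  have hθg : θ (lin (K.c g)) = Polynomial.X := by rw [hθ, hgg, hvg]; simp
  have hθv : θ (lin (K.c v)) = 1 := by rw [hθ, hgv', hvv]; simp
  -- the coefficient of `v` in `w` is not zero
  have hα : cv (K.c w) ≠ 0 := by
    intro h0
    have h3 := hspan _ h0
    have hw : w ∈ τ.1 := (hτ w).2 (Or.inr (Or.inl rfl))
    have h4 := (K.indep τ.1 τ.2).notMem_span_image (s := {u : τ.1 | (u : P) ≠ w})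
      (x := ⟨w, hw⟩) (by simp)
    apply h4
    refine Submodule.span_mono ?_ h3
    rintro _ ⟨u, ⟨huσ, huv⟩, rfl⟩
    have hu : u = g ∨ u ∈ F := by
      rcases (hσ u).1 huσ with h | h | h
      · exact Or.inl h
      · exact absurd h huv
      · exact Or.inr h
    have huτ : u ∈ τ.1 := by
      rcases hu with rfl | hu
      · exact (hτ _).2 (Or.inl rfl)
      · exact (hτ u).2 (Or.inr (Or.inr hu))
    refine ⟨⟨u, huτ⟩, ?_, rfl⟩
    show u ≠ w
    rcases hu with rfl | hu
    · exact hgw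
    · exact fun h => hwF (h ▸ hu)
  -- degree bounds
  have hdeg : ∀ α : Multiset P, (θ (mon K.c α)).natDegree ≤ Multiset.card α := by
    intro α
    induction α using Multiset.induction_on with
    | empty => rw [mon_zero, map_one]; simp
    | cons a α ih =>
      rw [mon_cons, map_mul, Multiset.card_cons]
      refine Polynomial.natDegree_mul_le.trans ?_
      have h3 : (θ (lin (K.c a))).natDegree ≤ 1 := by
        rw [hθ, add_comm]; exact Polynomial.natDegree_linear_le
      omega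
  -- the graded version of `θ`
  let ρ : MvPolynomial ι ℝ →ₗ[ℝ] Polynomial ℝ := θ.toLinearMap.comp (homogeneousComponent e)
  have hρ : ∀ α : Multiset P, ρ (mon K.c α) = if Multiset.card α = e then θ (mon K.c α) else 0 := by
    intro α
    show θ (homogeneousComponent e (mon K.c α)) = _
    rw [homogeneousComponent_of_mem (mon_isHomogeneous K.c α)]
    by_cases h : Multiset.card α = e
    · rw [if_pos h.symm, if_pos h]
    · rw [if_neg (Ne.symm h), if_neg h, map_zero]
  -- the functional `q` factors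
  obtain ⟨qt, hqt⟩ : ∃ qt : Polynomial ℝ →ₗ[ℝ] ℝ, ∀ n, qt (Polynomial.X ^ n) =
      q (lin (K.c g) ^ n * lin (K.c v) ^ (e - n)) := by
    refine ⟨(Polynomial.basisMonomials ℝ).constr ℝ
      (fun n => q (lin (K.c g) ^ n * lin (K.c v) ^ (e - n))), fun n => ?_⟩
    have := (Polynomial.basisMonomials ℝ).constr_basis ℝ
      (fun n => q (lin (K.c g) ^ n * lin (K.c v) ^ (e - n))) n
    rw [Polynomial.coe_basisMonomials] at this
    rw [← this, Polynomial.X_pow_eq_monomial]
  have hqq : ∀ p, q p = qt (ρ p) := by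
    intro p
    refine forall_of_mon K σ (φ := q) (ψ := qt.comp ρ) ?_ p
    intro δ hδ
    rw [LinearMap.comp_apply, hρ]
    by_cases hc : Multiset.card δ = e
    swap
    · rw [if_neg hc, hq1 δ hδ hc, map_zero]
    rw [if_pos hc]
    by_cases hu : ∃ u ∈ F, u ∈ δ
    · rw [hq2 δ hδ hu]
      obtain ⟨u, huF, huδ⟩ := hu
      obtain ⟨δ', rfl⟩ := Multiset.exists_cons_of_mem huδ
      rw [mon_cons, map_mul, hθF u huF, zero_mul, map_zero]
    · push Not at hu
      have hδ' : ∀ x ∈ δ, x = g ∨ x = v := by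
        intro x hx
        rcases (hσ x).1 (hδ x hx) with h | h | h
        · exact Or.inl h
        · exact Or.inr h
        · exact absurd hx (hu x h)
      have hsplit : ∀ δ : Multiset P, (∀ x ∈ δ, x = g ∨ x = v) → ∃ n ≤ Multiset.card δ,
          δ = Multiset.replicate n g + Multiset.replicate (Multiset.card δ - n) v := by
        intro δ hδ
        induction δ using Multiset.induction_on with
        | empty => exact ⟨0, le_rfl, by simp⟩
        | cons a δ ih =>
          obtain ⟨n, hn, hδn⟩ := ih fun x hx => hδ x (Multiset.mem_cons_of_mem hx)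
          rcases hδ a (Multiset.mem_cons_self _ _) with rfl | rfl
          · refine ⟨n + 1, by simpa using hn, ?_⟩
            rw [Multiset.card_cons, Nat.add_sub_add_right, Multiset.replicate_succ,
              Multiset.cons_add, ← hδn]
          · refine ⟨n, by rw [Multiset.card_cons]; omega, ?_⟩
            rw [Multiset.card_cons, Nat.sub_add_comm hn, Multiset.replicate_succ,
              Multiset.add_cons, ← hδn]
      obtain ⟨n, hn, hδn⟩ := hsplit δ hδ'
      have e1 : θ (mon K.c δ) = Polynomial.X ^ n := by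
        rw [hδn, mon_add, mon_replicate, mon_replicate, map_mul, map_pow, map_pow, hθg, hθv,
          one_pow, mul_one]
      rw [e1, hqt, hδn, mon_add, mon_replicate, mon_replicate, hc]
  -- the subspaces
  obtain ⟨ε, hε⟩ : ∃ ε, ε = e - r := ⟨_, rfl⟩
  obtain ⟨d, hd⟩ : ∃ d, d = 2 * r - e := ⟨_, rfl⟩
  let L : Polynomial ℝ := Polynomial.C (cv (K.c w)) + Polynomial.C (cg (K.c w)) * Polynomial.X
  let A : Submodule ℝ (Polynomial ℝ) :=
    LinearMap.range (LinearMap.mulLeft ℝ ((Polynomial.X : Polynomial ℝ) ^ (3 * r + 2 - e)))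
  let B : Submodule ℝ (Polynomial ℝ) :=
    (Polynomial.degreeLE ℝ (d : ℕ)).map (LinearMap.mulLeft ℝ ((Polynomial.X : Polynomial ℝ) ^ ε)) ⊔
    (Polynomial.degreeLE ℝ (d : ℕ)).map
      (LinearMap.mulLeft ℝ ((Polynomial.X : Polynomial ℝ) ^ ε * L ^ ε))
  have hAB : Disjoint A B := by
    rw [Submodule.disjoint_def]
    intro x hxA hxB
    obtain ⟨S, hS⟩ := hxA
    obtain ⟨y, hy, z, hz, hyz⟩ := Submodule.mem_sup.1 hxB
    obtain ⟨P', hP', rfl⟩ := hy
    obtain ⟨Q, hQ, rfl⟩ := hz
    simp only [LinearMap.mulLeft_apply] at hS hyz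
    have hP2 : P'.natDegree ≤ d :=
      Polynomial.natDegree_le_iff_degree_le.2 (Polynomial.mem_degreeLE.1 hP')
    have hQ2 : Q.natDegree ≤ d :=
      Polynomial.natDegree_le_iff_degree_le.2 (Polynomial.mem_degreeLE.1 hQ)
    have e1 : 3 * r + 2 - e = ε + (2 * d + 2) := by omega
    have e2 : (Polynomial.X : Polynomial ℝ) ^ ε * (Polynomial.X ^ (2 * d + 2) * S) =
        Polynomial.X ^ ε * (P' + L ^ ε * Q) := by
      rw [← mul_assoc, ← pow_add, ← e1, hS, ← hyz]; ring
    have e3 := mul_left_cancel₀ (pow_ne_zero ε Polynomial.X_ne_zero) e2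
    have h5 := pade (le_refl _) (by omega) hα hP2 hQ2 e3
    rw [← hS, h5, mul_zero]
  obtain ⟨jt, hjA, hjB⟩ := exists_ext_disjoint hAB qt
  refine ⟨jt.comp ρ, ?_, ?_, ?_, ?_, ?_⟩
  · intro δ hc
    rw [LinearMap.comp_apply, hρ, if_neg hc, map_zero]
  · rintro δ ⟨u, huF, huδ⟩
    obtain ⟨δ', rfl⟩ := Multiset.exists_cons_of_mem huδ
    rw [LinearMap.comp_apply, hρ, mon_cons, map_mul, hθF u huF, zero_mul]
    simp
  · intro p
    rw [hqq]
    have key : ρ (lin (K.c g) ^ (3 * r + 2 - e) * p) ∈ A := by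
      have h3 := mem_span_mon K σ p
      induction h3 using Submodule.span_induction with
      | mem y hy =>
        obtain ⟨δ, hδ, rfl⟩ := hy
        rw [← mon_replicate, ← mon_add, hρ]
        split_ifs with hc
        · rw [mon_add, mon_replicate, map_mul, map_pow, hθg]
          exact ⟨_, rfl⟩
        · exact Submodule.zero_mem _
      | zero => rw [mul_zero, map_zero]; exact Submodule.zero_mem _
      | add a b _ _ ha hb => rw [mul_add, map_add]; exact Submodule.add_mem _ ha hb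
      | smul t a _ ha => rw [mul_smul_comm, map_smul]; exact Submodule.smul_mem _ _ ha
    exact hjA _ key
  · intro p
    have key := mul_ext_mon K σ (φ := jt.comp ρ) (ψ := 0)
      (a := lin (K.c g) ^ (e - r) * lin (K.c v) ^ (e - r)) (b := 1) ?_ p
    · rw [key]; simp
    · intro δ hδ
      rw [← mon_replicate, ← mon_replicate, ← mon_add, ← mon_add, LinearMap.comp_apply, hρ,
        LinearMap.zero_apply]
      split_ifs with hc
      · refine hjB _ (Submodule.mem_sup_left ⟨θ (mon K.c δ), ?_, ?_⟩)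
        · refine Polynomial.mem_degreeLE.2 (Polynomial.natDegree_le_iff_degree_le.1 ?_)
          have := hdeg δ
          rw [Multiset.card_add, Multiset.card_add, Multiset.card_replicate,
            Multiset.card_replicate] at hc
          omega
        · rw [mon_add, mon_add, mon_replicate, mon_replicate, map_mul, map_mul, map_pow, map_pow,
            hθg, hθv, one_pow, mul_one, hε]
          rfl
      · rw [map_zero]
  · intro p
    have key := mul_ext_mon K σ (φ := jt.comp ρ) (ψ := 0)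
      (a := lin (K.c g) ^ (e - r) * lin (K.c w) ^ (e - r)) (b := 1) ?_ p
    · rw [key]; simp
    · intro δ hδ
      rw [← mon_replicate, ← mon_replicate, ← mon_add, ← mon_add, LinearMap.comp_apply, hρ,
        LinearMap.zero_apply]
      split_ifs with hc
      · refine hjB _ (Submodule.mem_sup_right ⟨θ (mon K.c δ), ?_, ?_⟩)
        · refine Polynomial.mem_degreeLE.2 (Polynomial.natDegree_le_iff_degree_le.1 ?_)
          have := hdeg δ
          rw [Multiset.card_add, Multiset.card_add, Multiset.card_replicate,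
            Multiset.card_replicate] at hc
          omega
        · rw [mon_add, mon_add, mon_replicate, mon_replicate, map_mul, map_mul, map_pow, map_pow,
            hθg, hθ, hε]
          rfl
      · rw [map_zero]

end Pool.Agent.USP
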