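import Pool.Agent.USP.Rel
import Pool.Agent.USP.PadeJ
import Pool.Agent.H84Exp.VO

/-! # Smoothness of polynomials and of functionals -/

namespace Pool.Agent.USP

open MvPolynomial Pool.Agent.H84Spl Pool.Agent.H84Exp

variable {s : ℕ}

theorem smooth_of_VO {r k : ℕ} (hk : r < k) {σ τ : Finset (Pt s)} {δ : TT s →ₗ[ℝ] ℝ}
    (hδ : HomK k δ) {D : MvPolynomial (Fin s) ℝ} (hdeg : D.totalDegree ≤ k)
    (hrel : ∀ x : Pt s, eval x D = δ (lin (cc x) ^ k))
    (hVO : VO r (convexHull ℝ (σ : Set (Pt s)) ∩ convexHull ℝ (τ : Set (Pt s))) D)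
    (β : Multiset (Pt s)) (hβσ : On σ β) (hβτ : On τ β) (hc : k ≤ Multiset.card β + r)
    (q : TT s) : δ (mon cc β * q) = 0 := by
  classical
  have hconv : Convex ℝ (convexHull ℝ (σ : Set (Pt s)) ∩ convexHull ℝ (τ : Set (Pt s))) :=
    (convex_convexHull ℝ _).inter (convex_convexHull ℝ _)
  have hmem : ∀ u ∈ β, u ∈ convexHull ℝ (σ : Set (Pt s)) ∩ convexHull ℝ (τ : Set (Pt s)) :=
    fun u hu => ⟨subset_convexHull ℝ _ (hβσ u hu), subset_convexHull ℝ _ (hβτ u hu)⟩
  obtain ⟨L, hL⟩ : ∃ L : List (Pt s), L = β.toList.take (k - r) := ⟨_, rfl⟩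
  obtain ⟨L', hL'⟩ : ∃ L' : List (Pt s), L' = β.toList.drop (k - r) := ⟨_, rfl⟩
  have hlen : L.length + r = k := by
    rw [hL, List.length_take, Multiset.length_toList]; omega
  have hLmem : ∀ u ∈ L, u ∈ β := fun u hu => by
    rw [hL] at hu
    exact Multiset.mem_toList.1 (List.mem_of_mem_take hu)
  have hLne : L ≠ [] := by
    rintro rfl
    simp at hlen
    omega
  have hβeq : mon cc β = (L.map fun u => lin (cc u)).prod * mon cc (L' : Multiset (Pt s)) := by
    have h1 : β = ((L ++ L' : List (Pt s)) : Multiset (Pt s)) := by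
      rw [hL, hL', List.take_append_drop, Multiset.coe_toList]
    conv_lhs => rw [h1]
    rw [← Multiset.coe_add, mon_add]
    congr 1
  have hBc : Bc k L D = 0 := by
    obtain ⟨u, hu⟩ := List.exists_mem_of_ne_nil L hLne
    refine eq_zero_of_VO (r := r) ⟨u, hmem u (hLmem u hu)⟩ ?_
      (VO_Bc hconv (fun u hu => hmem u (hLmem u hu)) hVO)
    have := totalDegree_Bc_le L hdeg
    omega
  have h1 := polar r (δ.comp (LinearMap.mulLeft ℝ (L.map fun u => lin (cc u)).prod)) (by
    intro x
    have h2 := rel_Bc hrel (L := L) (by omega) x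
    rw [hBc, map_zero] at h2
    have h3 : k - L.length = r := by omega
    rw [h3] at h2
    exact h2.symm)
  -- on polynomials of degree `r`
  have h2 : ∀ p : TT s, p.IsHomogeneous r → δ ((L.map fun u => lin (cc u)).prod * p) = 0 := by
    intro p hp
    rw [p.as_sum, Finset.mul_sum, map_sum]
    refine Finset.sum_eq_zero fun m hm => ?_
    have h3 : m.degree = r := by
      by_contra hne
      exact (mem_support_iff.1 hm) (hp.coeff_eq_zero hne)
    have h4 := h1 m h3
    have h5 : monomial m (coeff m p) = (coeff m p) • (monomial m (1 : ℝ) : TT s) := by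
      rw [smul_monomial, smul_eq_mul, mul_one]
    rw [h5, mul_smul_comm, map_smul]
    have h6 : δ ((L.map fun u => lin (cc u)).prod * monomial m 1) = 0 := h4
    rw [h6, smul_zero]
  rw [q.as_sum, Finset.mul_sum, map_sum]
  refine Finset.sum_eq_zero fun m _ => ?_
  have hhom : (mon cc β * monomial m (coeff m q) : TT s).IsHomogeneous
      (Multiset.card β + m.degree) :=
    (mon_isHomogeneous cc β).mul (isHomogeneous_monomial _ rfl)
  by_cases hd : Multiset.card β + m.degree = k
  · rw [hβeq, mul_assoc]
    refine h2 _ ?_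
    have h3 := (mon_isHomogeneous cc (L' : Multiset (Pt s))).mul
      (isHomogeneous_monomial (coeff m q) (rfl : m.degree = m.degree))
    have h4 : Multiset.card (L' : Multiset (Pt s)) + m.degree = r := by
      rw [Multiset.coe_card, hL', List.length_drop, Multiset.length_toList]
      omega
    rwa [h4] at h3
  · exact hδ _ hd _ hhom

theorem pow_mem_span {G : Finset (Pt s)} {x : Pt s} (hx : x ∈ convexHull ℝ (G : Set (Pt s)))
    (k : ℕ) : lin (cc x) ^ k ∈ Submodule.span ℝ
      {m : TT s | ∃ β : Multiset (Pt s), On G β ∧ Multiset.card β = k ∧ m = mon cc β} := by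
  obtain ⟨w, -, hw1, hw2⟩ := (Finset.mem_convexHull').1 hx
  have h1 : lin (cc x) = ∑ y ∈ G, w y • (lin (cc y) : TT s) := by
    rw [cc_sum hw1 hw2, map_sum]
    exact Finset.sum_congr rfl fun y _ => by rw [map_smul]
  induction k with
  | zero => exact Submodule.subset_span ⟨0, on_zero _, rfl, by rw [mon_zero, pow_zero]⟩
  | succ k ih =>
    rw [pow_succ']
    generalize lin (cc x) ^ k = z at ih
    induction ih using Submodule.span_induction with
    | mem y hy =>
      obtain ⟨β, hβ, hc, rfl⟩ := hy
      rw [h1, Finset.sum_mul]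
      refine Submodule.sum_mem _ fun y hy => ?_
      rw [smul_mul_assoc, ← mon_cons]
      exact Submodule.smul_mem _ _ (Submodule.subset_span ⟨y ::ₘ β, on_cons.2 ⟨hy, hβ⟩,
        by rw [Multiset.card_cons, hc], rfl⟩)
    | zero => rw [mul_zero]; exact Submodule.zero_mem _
    | add a b _ _ ha hb => rw [mul_add]; exact Submodule.add_mem _ ha hb
    | smul t a _ ha => rw [mul_smul_comm]; exact Submodule.smul_mem _ _ ha

theorem VO_of_smooth {G : Finset (Pt s)} : ∀ (r k : ℕ) (δ : TT s →ₗ[ℝ] ℝ)
    (D : MvPolynomial (Fin s) ℝ), (∀ x : Pt s, eval x D = δ (lin (cc x) ^ k)) →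
    (∀ β : Multiset (Pt s), On G β → k ≤ Multiset.card β + r → ∀ q, δ (mon cc β * q) = 0) →
    VO r (convexHull ℝ (G : Set (Pt s))) D := by
  have key : ∀ (r k : ℕ) (δ : TT s →ₗ[ℝ] ℝ) (D : MvPolynomial (Fin s) ℝ),
      (∀ x : Pt s, eval x D = δ (lin (cc x) ^ k)) →
      (∀ β : Multiset (Pt s), On G β → k ≤ Multiset.card β + r → ∀ q, δ (mon cc β * q) = 0) →
      ∀ x ∈ convexHull ℝ (G : Set (Pt s)), eval x D = 0 := by
    intro r k δ D hrel h x hx
    rw [hrel x]
    have h1 := pow_mem_span hx k
    generalize lin (cc x) ^ k = z at h1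
    induction h1 using Submodule.span_induction with
    | mem y hy =>
      obtain ⟨β, hβ, hc, rfl⟩ := hy
      have := h β hβ (by omega) 1
      rwa [mul_one] at this
    | zero => exact map_zero _
    | add a b _ _ ha hb => rw [map_add, ha, hb, add_zero]
    | smul t a _ ha => rw [map_smul, ha, smul_zero]
  intro r
  induction r with
  | zero =>
    intro k δ D hrel h
    exact key 0 k δ D hrel h
  | succ r ih =>
    intro k δ D hrel h
    refine ⟨key (r + 1) k δ D hrel h, fun i => ?_⟩
    refine ih (k - 1) ((k : ℝ) • δ.comp (LinearMap.mulLeft ℝ (X (some i)))) _ ?_ ?_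
    · intro x
      rw [rel_pderiv hrel i x]
      rfl
    · intro β hβ hc q
      rw [LinearMap.smul_apply, LinearMap.comp_apply, LinearMap.mulLeft_apply]
      by_cases hk : k = 0
      · rw [hk]; simp
      · have e1 : X (some i) * (mon cc β * q) = mon cc β * (X (some i) * q) := by ring
        rw [e1, h β hβ (by omega), smul_zero]

/-- from `VO` back to the derivatives -/
theorem iteratedFDeriv_of_VO {K : Set (Pt s)} : ∀ (r : ℕ) (D : MvPolynomial (Fin s) ℝ),
    VO r K D → ∀ x ∈ K, ∀ m ≤ r, iteratedFDeriv ℝ m (fun y : Pt s => eval y D) x = 0 := by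
  intro r
  induction r with
  | zero =>
    intro D hD x hx m hm
    obtain rfl : m = 0 := by omega
    ext v
    rw [iteratedFDeriv_zero_apply]
    exact hD x hx
  | succ r ih =>
    intro D hD x hx m hm
    cases m with
    | zero =>
      ext v
      rw [iteratedFDeriv_zero_apply]
      exact hD.1 x hx
    | succ m =>
      rw [← norm_eq_zero, ← norm_iteratedFDeriv_fderiv, norm_eq_zero]
      have hf : fderiv ℝ (fun y : Pt s => eval y D) = fun y => ∑ i : Fin s,
          (ContinuousLinearMap.smulRight (1 : ℝ →L[ℝ] ℝ)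
            (ContinuousLinearMap.proj (R := ℝ) (φ := fun _ : Fin s => ℝ) i))
            (eval y (pderiv i D)) := by
        funext y
        refine ContinuousLinearMap.ext fun v => ?_
        have hv : v = ∑ i, v i • (Pi.single i 1 : Pt s) := by
          ext j
          simp [Finset.sum_apply, Pi.single_apply]
        conv_lhs => rw [hv]
        rw [map_sum]
        simp only [map_smul, fderiv_eval_single, ContinuousLinearMap.sum_apply,
          ContinuousLinearMap.smulRight_apply, ContinuousLinearMap.one_apply, smul_eq_mul,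
          ContinuousLinearMap.smul_apply, ContinuousLinearMap.proj_apply]
        exact Finset.sum_congr rfl fun i _ => by ring
      rw [hf]
      have hsm : ∀ i : Fin s, ContDiff ℝ (m : WithTop ℕ∞) (fun y : Pt s => eval y (pderiv i D)) :=
        fun i => contDiff_eval _
      rw [iteratedFDeriv_fun_sum_apply]
      · refine Finset.sum_eq_zero fun i _ => ?_
        have h1 := ContinuousLinearMap.iteratedFDeriv_comp_left
          (ContinuousLinearMap.smulRight (1 : ℝ →L[ℝ] ℝ)
            (ContinuousLinearMap.proj (R := ℝ) (φ := fun _ : Fin s => ℝ) i))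
          (hsm i).contDiffAt (x := x) (le_refl (m : WithTop ℕ∞))
        have h2 := ih (pderiv i D) (hD.2 i) x hx m (by omega)
        rw [h2] at h1
        refine h1.trans ?_
        ext v w
        simp
      · intro i _
        exact ((ContinuousLinearMap.smulRight (1 : ℝ →L[ℝ] ℝ)
            (ContinuousLinearMap.proj (R := ℝ) (φ := fun _ : Fin s => ℝ) i)).contDiff.comp
              (hsm i)).contDiffAt

end Pool.Agent.USP
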