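import Pool.Agent.USP.Defs

/-! # Monomials in the vertices of a cell -/

namespace Pool.Agent.USP

open MvPolynomial

variable {P ι : Type} [Fintype ι]

theorem lin_apply (x : ι → ℝ) : lin x = ∑ i, x i • (X i : MvPolynomial ι ℝ) := by
  simp [lin, Fintype.linearCombination_apply]

theorem mon_zero (c : P → ι → ℝ) : mon c 0 = 1 := by simp [mon]

theorem mon_cons (c : P → ι → ℝ) (v : P) (α : Multiset P) :
    mon c (v ::ₘ α) = lin (c v) * mon c α := by simp [mon]

theorem mon_add (c : P → ι → ℝ) (α β : Multiset P) : mon c (α + β) = mon c α * mon c β := by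
  simp [mon]

theorem mon_replicate (c : P → ι → ℝ) (n : ℕ) (v : P) :
    mon c (Multiset.replicate n v) = lin (c v) ^ n := by simp [mon]

theorem mon_singleton (c : P → ι → ℝ) (v : P) : mon c {v} = lin (c v) := by simp [mon]

theorem on_zero (σ : Finset P) : On σ 0 := by intro x hx; simp at hx

theorem on_cons {σ : Finset P} {v : P} {α : Multiset P} :
    On σ (v ::ₘ α) ↔ v ∈ σ ∧ On σ α := by
  simp [On]

theorem on_add {σ : Finset P} {α β : Multiset P} : On σ (α + β) ↔ On σ α ∧ On σ β := by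
  simp only [On, Multiset.mem_add]
  constructor
  · intro h
    exact ⟨fun x hx => h x (Or.inl hx), fun x hx => h x (Or.inr hx)⟩
  · rintro ⟨h1, h2⟩ x (hx | hx)
    · exact h1 x hx
    · exact h2 x hx

theorem On.mono {σ : Finset P} {α β : Multiset P} (h : On σ β) (hle : α ≤ β) : On σ α :=
  fun x hx => h x (Multiset.mem_of_le hle hx)

theorem on_replicate {σ : Finset P} {n : ℕ} {v : P} (h : v ∈ σ) :
    On σ (Multiset.replicate n v) := by
  intro x hx
  rw [Multiset.eq_of_mem_replicate hx]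
  exact h

/-- `c` maps `σ` onto a spanning set -/
theorem Cpx.span_eq (K : Cpx P ι) (σ : K.Cell) :
    Submodule.span ℝ (Set.range fun v : σ.1 => K.c v) = ⊤ := by
  have h := (K.indep σ.1 σ.2).span_eq_top_of_card_eq_finrank' (by
    rw [Fintype.card_coe, K.card_eq σ.1 σ.2, Module.finrank_fintype_fun_eq_card])
  exact h

theorem lin_mem_span (K : Cpx P ι) (σ : K.Cell) (x : ι → ℝ) :
    lin x ∈ Submodule.span ℝ (Set.range fun v : σ.1 => lin (K.c v)) := by
  have h : x ∈ Submodule.span ℝ (Set.range fun v : σ.1 => K.c v) := by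
    rw [K.span_eq σ]; trivial
  have h2 := Submodule.mem_map_of_mem (f := (lin : (ι → ℝ) →ₗ[ℝ] MvPolynomial ι ℝ)) h
  rw [Submodule.map_span, ← Set.range_comp] at h2
  exact h2

/-- products of `n` linear forms are combinations of monomials of degree `n` in the vertices
of a cell -/
theorem prod_lin_mem (K : Cpx P ι) (σ : K.Cell) (L : Multiset (ι → ℝ)) :
    (L.map lin).prod ∈ Submodule.span ℝ
      {m : MvPolynomial ι ℝ | ∃ δ, On σ.1 δ ∧ Multiset.card δ = Multiset.card L ∧
        m = mon K.c δ} := by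
  induction L using Multiset.induction_on with
  | empty =>
    refine Submodule.subset_span ⟨0, on_zero _, by simp, by simp [mon_zero]⟩
  | cons x L ih =>
    rw [Multiset.map_cons, Multiset.prod_cons]
    have h1 := lin_mem_span K σ x
    refine Submodule.span_induction₂ (p := fun a b _ _ => a * b ∈ Submodule.span ℝ
      {m : MvPolynomial ι ℝ | ∃ δ, On σ.1 δ ∧ Multiset.card δ = Multiset.card (x ::ₘ L) ∧
        m = mon K.c δ}) ?_ ?_ ?_ ?_ ?_ ?_ ?_ h1 ih
    · rintro _ _ ⟨v, rfl⟩ ⟨δ, hδ, hc, rfl⟩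
      refine Submodule.subset_span ⟨(v : P) ::ₘ δ, on_cons.2 ⟨v.2, hδ⟩, by simp [hc], ?_⟩
      rw [mon_cons]
    · intro y _; simp
    · intro y _; simp
    · intro a b c _ _ _ h1 h2
      rw [add_mul]; exact Submodule.add_mem _ h1 h2
    · intro a b c _ _ _ h1 h2
      rw [mul_add]; exact Submodule.add_mem _ h1 h2
    · intro r a b _ _ h
      rw [smul_mul_assoc]; exact Submodule.smul_mem _ _ h
    · intro r a b _ _ h
      rw [mul_smul_comm]; exact Submodule.smul_mem _ _ h

theorem mem_span_mon (K : Cpx P ι) (σ : K.Cell) (q : MvPolynomial ι ℝ) :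
    q ∈ Submodule.span ℝ {m : MvPolynomial ι ℝ | ∃ δ, On σ.1 δ ∧ m = mon K.c δ} := by
  classical
  induction q using MvPolynomial.induction_on with
  | C a =>
    have : (C a : MvPolynomial ι ℝ) = a • mon K.c 0 := by
      rw [mon_zero, MvPolynomial.smul_eq_C_mul, mul_one]
    rw [this]
    exact Submodule.smul_mem _ _ (Submodule.subset_span ⟨0, on_zero _, rfl⟩)
  | add p q hp hq => exact Submodule.add_mem _ hp hq
  | mul_X p i hp =>
    have h1 : (X i : MvPolynomial ι ℝ) = lin (Pi.single i 1) := by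
      rw [lin_apply]
      rw [Finset.sum_eq_single i]
      · simp
      · intro j _ hj; simp [Pi.single_eq_of_ne hj]
      · simp
    have h2 := lin_mem_span K σ (Pi.single i 1)
    rw [← h1] at h2
    refine Submodule.span_induction₂ (p := fun a b _ _ => a * b ∈ Submodule.span ℝ
      {m : MvPolynomial ι ℝ | ∃ δ, On σ.1 δ ∧ m = mon K.c δ}) ?_ ?_ ?_ ?_ ?_ ?_ ?_ hp h2
    · rintro _ _ ⟨δ, hδ, rfl⟩ ⟨v, rfl⟩
      refine Submodule.subset_span ⟨(v : P) ::ₘ δ, on_cons.2 ⟨v.2, hδ⟩, ?_⟩
      rw [mon_cons, mul_comm]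
    · intro y _; simp
    · intro y _; simp
    · intro a b c _ _ _ h1 h2
      rw [add_mul]; exact Submodule.add_mem _ h1 h2
    · intro a b c _ _ _ h1 h2
      rw [mul_add]; exact Submodule.add_mem _ h1 h2
    · intro r a b _ _ h
      rw [smul_mul_assoc]; exact Submodule.smul_mem _ _ h
    · intro r a b _ _ h
      rw [mul_smul_comm]; exact Submodule.smul_mem _ _ h

/-- a linear map that vanishes on the monomials of a cell is zero -/
theorem fun_ext_mon (K : Cpx P ι) (σ : K.Cell) {M : Type} [AddCommGroup M] [Module ℝ M]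
    {φ ψ : MvPolynomial ι ℝ →ₗ[ℝ] M}
    (h : ∀ δ, On σ.1 δ → φ (mon K.c δ) = ψ (mon K.c δ)) : φ = ψ := by
  refine LinearMap.ext_on_range (v := fun δ : {δ // On σ.1 δ} => mon K.c δ.1) ?_
    (fun δ => by simpa using h δ.1 δ.2)
  rw [eq_top_iff]
  intro q _
  have := mem_span_mon K σ q
  refine Submodule.span_mono ?_ this
  rintro _ ⟨δ, hδ, rfl⟩
  exact ⟨⟨δ, hδ⟩, rfl⟩

/-- an identity of linear maps can be checked on the monomials of a cell -/
theorem forall_of_mon (K : Cpx P ι) (σ : K.Cell) {M : Type} [AddCommGroup M] [Module ℝ M]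
    {φ ψ : MvPolynomial ι ℝ →ₗ[ℝ] M}
    (h : ∀ δ, On σ.1 δ → φ (mon K.c δ) = ψ (mon K.c δ)) (q : MvPolynomial ι ℝ) :
    φ q = ψ q := by
  rw [fun_ext_mon K σ h]

end Pool.Agent.USP
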