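import Mathlib

/-!
# Upper bound for the degree of local spline bases (MP_426dd2_an): definitions

Dual formulation: `T = MvPolynomial ι ℝ` is the symmetric algebra of `ℝ^ι` (`ι` has `s+1` elements),
a polynomial of degree at most `k` on `R^s` is a linear functional `φ` on `T` concentrated in degree
`k`, its value at a point `x` is `φ (lin (c x) ^ k)`, with `c x = (1, x)`.
-/

namespace Pool.Agent.USP

open MvPolynomial

variable {P ι : Type} [Fintype ι]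

/-- the linear form `∑ x_i X_i` -/
noncomputable def lin : (ι → ℝ) →ₗ[ℝ] MvPolynomial ι ℝ :=
  Fintype.linearCombination ℝ (fun i => (X i : MvPolynomial ι ℝ))

/-- monomial in the vertices -/
noncomputable def mon (c : P → ι → ℝ) (α : Multiset P) : MvPolynomial ι ℝ :=
  (α.map fun p => lin (c p)).prod

/-- all elements of the multiset `α` are in `σ` -/
def On (σ : Finset P) (α : Multiset P) : Prop := ∀ x ∈ α, x ∈ σ

/-- A complex: every cell is a basis of `ℝ^ι` (via `c`), and every facet is in at most two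
cells. -/
structure Cpx (P ι : Type) [Fintype ι] where
  c : P → ι → ℝ
  cells : Finset (Finset P)
  card_eq : ∀ σ ∈ cells, σ.card = Fintype.card ι
  indep : ∀ σ ∈ cells, LinearIndependent ℝ (fun v : σ => c v)
  two : ∀ G : Finset P, G.card + 1 = Fintype.card ι → ∀ σ₁ ∈ cells, ∀ σ₂ ∈ cells, ∀ σ₃ ∈ cells,
    G ⊆ σ₁ → G ⊆ σ₂ → G ⊆ σ₃ → σ₁ = σ₂ ∨ σ₁ = σ₃ ∨ σ₂ = σ₃

/-- the cells as a type -/
abbrev Cpx.Cell (K : Cpx P ι) := {σ // σ ∈ K.cells}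

/-- families of functionals, one for each cell -/
abbrev Cpx.Fam (K : Cpx P ι) := K.Cell → (MvPolynomial ι ℝ →ₗ[ℝ] ℝ)

/-- families of functionals of degree `k` that are smooth with respect to the multi-indices
in `U` -/
def PS (K : Cpx P ι) (k r : ℕ) (U : Set (Multiset P)) : Submodule ℝ K.Fam where
  carrier := {φ | (∀ σ : K.Cell, ∀ α, On σ.1 α → Multiset.card α ≠ k → φ σ (mon K.c α) = 0) ∧
    ∀ σ τ : K.Cell, ∀ β, On σ.1 β → On τ.1 β → β ∈ U → k ≤ Multiset.card β + r → ∀ q,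
      φ σ (mon K.c β * q) = φ τ (mon K.c β * q)}
  add_mem' := by
    rintro φ φ' ⟨h1, h2⟩ ⟨h3, h4⟩
    refine ⟨fun σ α hα hk => ?_, fun σ τ β hσ hτ hU hk q => ?_⟩
    · simp [h1 σ α hα hk, h3 σ α hα hk]
    · simp [h2 σ τ β hσ hτ hU hk q, h4 σ τ β hσ hτ hU hk q]
  zero_mem' := by
    refine ⟨fun σ α hα hk => by simp, fun σ τ β hσ hτ hU hk q => by simp⟩
  smul_mem' := by
    rintro a φ ⟨h1, h2⟩
    refine ⟨fun σ α hα hk => ?_, fun σ τ β hσ hτ hU hk q => ?_⟩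
    · simp [h1 σ α hα hk]
    · simp [h2 σ τ β hσ hτ hU hk q]

/-- the functionals of the cells outside `Ξ` vanish -/
def Sup (K : Cpx P ι) (Ξ : Set K.Cell) (φ : K.Fam) : Prop := ∀ σ, σ ∉ Ξ → φ σ = 0

/-- the cells of `Ξ` and those that share a vertex with a cell of `Ξ` -/
def Nb (K : Cpx P ι) (Ξ : Set K.Cell) : Set K.Cell :=
  {σ | σ ∈ Ξ ∨ ∃ τ ∈ Ξ, ∃ v, v ∈ σ.1 ∧ v ∈ τ.1}

/-- upper sets of multisets -/
def Up (U : Set (Multiset P)) : Prop := ∀ α β : Multiset P, α ≤ β → α ∈ U → β ∈ U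

/-- `U` extends with `N` layers, and the families vanishing on `U` are sums of local ones -/
def Good (K : Cpx P ι) (k r : ℕ) (U : Set (Multiset P)) (N : ℕ) : Prop :=
  (∀ φ ∈ PS K k r U, ∀ Ξ, Sup K Ξ φ → ∃ φ' ∈ PS K k r Set.univ,
    (∀ σ : K.Cell, ∀ α, On σ.1 α → α ∈ U → φ' σ (mon K.c α) = φ σ (mon K.c α)) ∧
    Sup K ((Nb K)^[N] Ξ) φ') ∧
  (∀ φ ∈ PS K k r Set.univ,
    (∀ σ : K.Cell, ∀ α, On σ.1 α → α ∈ U → φ σ (mon K.c α) = 0) →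
    φ ∈ Submodule.span ℝ {ψ | ψ ∈ PS K k r Set.univ ∧
      ∃ v, (∃ σ : K.Cell, v ∈ σ.1) ∧ Sup K ((Nb K)^[N] {σ | v ∈ σ.1}) ψ})

/-- one step of the construction -/
def StepOK (K : Cpx P ι) (k r : ℕ) (U U' : Set (Multiset P)) : Prop :=
  Up U ∧ ∃ (e : ℕ) (S : Finset (Multiset P)),
    (∀ β ∈ S, Multiset.card β + e = k ∧ β ≠ 0 ∧ ∃ σ : K.Cell, On σ.1 β) ∧
    (∀ β₀ ∈ S, ∀ β₁ ∈ S, ∀ σ : K.Cell, ∀ α, On σ.1 α → Multiset.card α = k → β₀ ≤ α → β₁ ≤ α →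
      α ∉ U → β₀ = β₁) ∧
    (∀ σ : K.Cell, ∀ β, On σ.1 β → β ∈ U → β ∈ U') ∧
    (∀ σ : K.Cell, ∀ β, On σ.1 β → β ∈ U' → β ∈ U ∨ ∃ β₀ ∈ S, β₀ ≤ β) ∧
    (∀ φ ∈ PS K k r U, ∀ β ∈ S, ∃ g : K.Fam,
      (∀ σ : K.Cell, On σ.1 β → ∀ δ, On σ.1 δ → Multiset.card δ ≠ e → g σ (mon K.c δ) = 0) ∧
      (∀ σ : K.Cell, On σ.1 β → ∀ δ, On σ.1 δ → β + δ ∈ U → g σ (mon K.c δ) = 0) ∧
      (∀ σ τ : K.Cell, On σ.1 β → On τ.1 β → ∀ γ, On σ.1 γ → On τ.1 γ →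
        k ≤ Multiset.card β + Multiset.card γ + r → ∀ q,
        φ σ (mon K.c (β + γ) * q) - g σ (mon K.c γ * q) =
          φ τ (mon K.c (β + γ) * q) - g τ (mon K.c γ * q)))

end Pool.Agent.USP
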