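import Pool.Agent.USP.Core

/-! # Functionals with prescribed values on the monomials of a cell -/

namespace Pool.Agent.USP

open MvPolynomial

variable {P ι : Type} [Fintype ι]

theorem exists_fun (K : Cpx P ι) (σ : K.Cell) (F : Multiset P → ℝ) :
    ∃ ψ : MvPolynomial ι ℝ →ₗ[ℝ] ℝ, ∀ δ, On σ.1 δ → ψ (mon K.c δ) = F δ := by
  classical
  let b : Module.Basis σ.1 ℝ (ι → ℝ) := Module.Basis.mk (K.indep σ.1 σ.2) (by
    rw [K.span_eq σ])
  let Θ : MvPolynomial ι ℝ →ₐ[ℝ] MvPolynomial σ.1 ℝ :=
    aeval fun i => ∑ v, b.repr (Pi.single i 1) v • (X v : MvPolynomial σ.1 ℝ)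
  have hlin : ∀ x : ι → ℝ, Θ (lin x) = ∑ v, b.repr x v • (X v : MvPolynomial σ.1 ℝ) := by
    intro x
    have hx : x = ∑ i, x i • (Pi.single i 1 : ι → ℝ) := by
      ext j
      simp [Finset.sum_apply, Pi.single_apply]
    rw [lin_apply, map_sum]
    conv_rhs => rw [hx]
    simp only [map_smul, Θ, aeval_X, map_sum, Finsupp.coe_finsetSum, Finset.sum_apply,
      Finsupp.smul_apply, Finset.smul_sum, smul_smul, Finset.sum_smul, smul_eq_mul]
    rw [Finset.sum_comm]
  have hv : ∀ v : σ.1, Θ (lin (K.c v)) = X v := by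
    intro v
    have hb : b v = K.c v := by simp [b]
    rw [hlin, ← hb, Module.Basis.repr_self]
    rw [Finset.sum_eq_single v]
    · simp
    · intro w _ hw
      simp [Finsupp.single_eq_of_ne hw]
    · simp
  have hmon : ∀ α : Multiset σ.1, Θ (mon K.c (Multiset.map Subtype.val α)) =
      monomial (Multiset.toFinsupp α) 1 := by
    intro α
    induction α using Multiset.induction_on with
    | empty => simp [mon_zero]
    | cons v α ih =>
      rw [Multiset.map_cons, mon_cons, map_mul, ih, hv, ← Multiset.singleton_add, map_add,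
        Multiset.toFinsupp_singleton, X, monomial_mul, one_mul]
  refine ⟨((basisMonomials σ.1 ℝ).constr ℝ fun m =>
    F (Multiset.map Subtype.val (Finsupp.toMultiset m))).comp Θ.toLinearMap, ?_⟩
  intro δ hδ
  obtain ⟨α, rfl⟩ : ∃ α : Multiset σ.1, Multiset.map Subtype.val α = δ := by
    lift δ to Multiset σ.1 using hδ
    exact ⟨δ, rfl⟩
  rw [LinearMap.comp_apply, AlgHom.toLinearMap_apply, hmon]
  have := (basisMonomials σ.1 ℝ).constr_basis ℝ (fun m =>
    F (Multiset.map Subtype.val (Finsupp.toMultiset m))) (Multiset.toFinsupp α)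
  rw [coe_basisMonomials] at this
  rw [this]
  simp

end Pool.Agent.USP
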