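import Mathlib

/-! # Gluing smooth functions on finitely many closed sets -/

namespace Pool.Agent.USP

theorem hasFDerivWithinAt_finset {E F ι : Type} [NormedAddCommGroup E] [NormedSpace ℝ E]
    [NormedAddCommGroup F] [NormedSpace ℝ F] (I : Finset ι) (A : ι → Set E) {f : E → F}
    {f' : E →L[ℝ] F} {x : E} (h : ∀ i ∈ I, HasFDerivWithinAt f f' (A i) x) :
    HasFDerivWithinAt f f' {y | ∃ i ∈ I, y ∈ A i} x := by
  classical
  induction I using Finset.induction_on with
  | empty =>
    have : {y : E | ∃ i ∈ (∅ : Finset ι), y ∈ A i} = ∅ := by ext y; simp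
    rw [this]
    exact HasFDerivWithinAt.of_notMem_closure (by simp)
  | insert a I ha ih =>
    have : {y : E | ∃ i ∈ insert a I, y ∈ A i} = A a ∪ {y | ∃ i ∈ I, y ∈ A i} := by
      ext y; simp
    rw [this]
    exact (h a (Finset.mem_insert_self _ _)).union
      (ih fun i hi => h i (Finset.mem_insert_of_mem hi))

theorem continuousWithinAt_finset {E F ι : Type} [TopologicalSpace E] [TopologicalSpace F]
    (I : Finset ι) (A : ι → Set E) {f : E → F} {x : E}
    (h : ∀ i ∈ I, ContinuousWithinAt f (A i) x) :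
    ContinuousWithinAt f {y | ∃ i ∈ I, y ∈ A i} x := by
  classical
  induction I using Finset.induction_on with
  | empty =>
    have : {y : E | ∃ i ∈ (∅ : Finset ι), y ∈ A i} = ∅ := by ext y; simp
    rw [this]
    simp [ContinuousWithinAt]
  | insert a I ha ih =>
    have : {y : E | ∃ i ∈ insert a I, y ∈ A i} = A a ∪ {y | ∃ i ∈ I, y ∈ A i} := by
      ext y; simp
    rw [this]
    exact (h a (Finset.mem_insert_self _ _)).union
      (ih fun i hi => h i (Finset.mem_insert_of_mem hi))

theorem glue {E F ι : Type} [NormedAddCommGroup E] [NormedSpace ℝ E]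
    [NormedAddCommGroup F] [NormedSpace ℝ F] (I : Finset ι) (A : ι → Set E)
    (hA : ∀ i ∈ I, IsClosed (A i)) (r : ℕ) (g : ι → E → F)
    (hg : ∀ i ∈ I, ContDiff ℝ (r : WithTop ℕ∞) (g i)) (f : E → F)
    (hf : ∀ i ∈ I, ∀ x ∈ A i, f x = g i x)
    (hcomp : ∀ i ∈ I, ∀ j ∈ I, ∀ x, x ∈ A i → x ∈ A j → ∀ m ≤ r,
      iteratedFDeriv ℝ m (g i) x = iteratedFDeriv ℝ m (g j) x) :
    ContDiffOn ℝ (r : WithTop ℕ∞) f {x | ∃ i ∈ I, x ∈ A i} := by
  classical
  by_cases hI : I = ∅
  · subst hI
    have : {y : E | ∃ i ∈ (∅ : Finset ι), y ∈ A i} = ∅ := by ext y; simp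
    rw [this]
    exact contDiffOn_empty
  obtain ⟨i0, hi0⟩ := Finset.nonempty_iff_ne_empty.2 hI
  have hsel : ∀ x : E, ∃ i ∈ I, (∃ j ∈ I, x ∈ A j) → x ∈ A i := by
    intro x
    by_cases h : ∃ j ∈ I, x ∈ A j
    · obtain ⟨j, hj, hx⟩ := h
      exact ⟨j, hj, fun _ => hx⟩
    · exact ⟨i0, hi0, fun h' => absurd h' h⟩
  choose sel hselI hselA using hsel
  have hval : ∀ i ∈ I, ∀ x ∈ A i, ∀ m ≤ r,
      iteratedFDeriv ℝ m (g (sel x)) x = iteratedFDeriv ℝ m (g i) x := fun i hi x hx m hm =>
    hcomp _ (hselI x) i hi x (hselA x ⟨i, hi, hx⟩) hx m hm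
  have hT : HasFTaylorSeriesUpToOn (r : WithTop ℕ∞) f
      (fun x m => iteratedFDeriv ℝ m (g (sel x)) x) {x | ∃ i ∈ I, x ∈ A i} := by
    refine ⟨?_, ?_, ?_⟩
    · rintro x ⟨i, hi, hx⟩
      rw [hf i hi x hx, hval i hi x hx 0 (Nat.zero_le _)]
      simp [ContinuousMultilinearMap.curry0]
    · rintro m hm x -
      have hm' : m < r := by exact_mod_cast hm
      refine hasFDerivWithinAt_finset I A fun i hi => ?_
      by_cases hx : x ∈ A i
      · have h1 := (hg i hi).ftaylorSeries.fderiv m (by exact_mod_cast hm') x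
        have h2 : HasFDerivWithinAt (fun y => iteratedFDeriv ℝ m (g i) y)
            (iteratedFDeriv ℝ (m + 1) (g i) x).curryLeft (A i) x := h1.hasFDerivWithinAt
        rw [hval i hi x hx m.succ (by omega)]
        exact h2.congr (fun y hy => hval i hi y hy m (by omega)) (hval i hi x hx m (by omega))
      · exact HasFDerivWithinAt.of_notMem_closure (by rwa [(hA i hi).closure_eq])
    · rintro m hm x -
      have hm' : m ≤ r := by exact_mod_cast hm
      refine continuousWithinAt_finset I A fun i hi => ?_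
      by_cases hx : x ∈ A i
      · have h1 := (hg i hi).ftaylorSeries.cont m (by exact_mod_cast hm')
        have h2 : ContinuousWithinAt (fun y => iteratedFDeriv ℝ m (g i) y) (A i) x :=
          h1.continuousAt.continuousWithinAt
        exact h2.congr (fun y hy => hval i hi y hy m hm') (hval i hi x hx m hm')
      · have h1 : nhdsWithin x (A i) = ⊥ := by
          rw [← notMem_closure_iff_nhdsWithin_eq_bot, (hA i hi).closure_eq]
          exact hx
        rw [ContinuousWithinAt, h1]
        exact Filter.tendsto_bot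
  exact hT.contDiffOn

end Pool.Agent.USP
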