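import Pool.Agent.USP.Conv
import Pool.Agent.USP.Glue
import Pool.Agent.USP.Chain

/-! # Local bases of spline spaces in degree `k > 2^(s-2) (3r+1)` -/

namespace Pool.Agent.USP

open MvPolynomial Pool.Agent.H84Spl Pool.Agent.H84Exp

variable {s : ℕ}

open Classical in
/-- the function of a family of functionals -/
noncomputable def Fn0 (hs : 1 ≤ s) (T : Triang s) (k : ℕ) (φ : (cpx hs T).Fam) (x : Pt s) : ℝ :=
  if h : ∃ σ : (cpx hs T).Cell, x ∈ convexHull ℝ (σ.1 : Set (Pt s)) then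
    φ h.choose (lin (cc x) ^ k) else 0

theorem Fn0_pos (hs : 1 ≤ s) (T : Triang s) (k : ℕ) (φ : (cpx hs T).Fam) {x : Pt s}
    (h : ∃ σ : (cpx hs T).Cell, x ∈ convexHull ℝ (σ.1 : Set (Pt s))) :
    Fn0 hs T k φ x = φ h.choose (lin (cc x) ^ k) := by
  unfold Fn0
  exact dif_pos h

theorem Fn0_neg (hs : 1 ≤ s) (T : Triang s) (k : ℕ) (φ : (cpx hs T).Fam) {x : Pt s}
    (h : ¬ ∃ σ : (cpx hs T).Cell, x ∈ convexHull ℝ (σ.1 : Set (Pt s))) :
    Fn0 hs T k φ x = 0 := by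
  unfold Fn0
  exact dif_neg h

/-- the function of a family of functionals, as a linear map -/
noncomputable def Fn (hs : 1 ≤ s) (T : Triang s) (k : ℕ) :
    (cpx hs T).Fam →ₗ[ℝ] (Pt s → ℝ) where
  toFun φ x := Fn0 hs T k φ x
  map_add' φ ψ := by
    funext x
    rw [Pi.add_apply]
    by_cases h : ∃ σ : (cpx hs T).Cell, x ∈ convexHull ℝ (σ.1 : Set (Pt s))
    · rw [Fn0_pos hs T k _ h, Fn0_pos hs T k _ h, Fn0_pos hs T k _ h]
      rfl
    · rw [Fn0_neg hs T k _ h, Fn0_neg hs T k _ h, Fn0_neg hs T k _ h, add_zero]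
  map_smul' a φ := by
    funext x
    rw [Pi.smul_apply]
    by_cases h : ∃ σ : (cpx hs T).Cell, x ∈ convexHull ℝ (σ.1 : Set (Pt s))
    · rw [Fn0_pos hs T k _ h, Fn0_pos hs T k _ h]
      rfl
    · rw [Fn0_neg hs T k _ h, Fn0_neg hs T k _ h, smul_zero]

theorem Fn_out (hs : 1 ≤ s) (T : Triang s) (k : ℕ) (φ : (cpx hs T).Fam) {x : Pt s}
    (hx : ∀ σ : (cpx hs T).Cell, x ∉ convexHull ℝ (σ.1 : Set (Pt s))) :
    Fn hs T k φ x = 0 :=
  Fn0_neg hs T k φ (by push Not; exact hx)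

/-- on points of two cells the functionals agree -/
theorem agree_on (hs : 1 ≤ s) (T : Triang s) {k r : ℕ} {φ : (cpx hs T).Fam}
    (hφ : φ ∈ PS (cpx hs T) k r Set.univ) (σ τ : (cpx hs T).Cell) {x : Pt s}
    (hσ : x ∈ convexHull ℝ (σ.1 : Set (Pt s))) (hτ : x ∈ convexHull ℝ (τ.1 : Set (Pt s))) :
    φ σ (lin (cc x) ^ k) = φ τ (lin (cc x) ^ k) := by
  classical
  have h1 := T.inter σ.1 σ.2 τ.1 τ.2
  have h2 : x ∈ convexHull ℝ ((σ.1 ∩ τ.1 : Finset (Pt s)) : Set (Pt s)) := by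
    rw [Finset.coe_inter, ← h1]
    exact ⟨hσ, hτ⟩
  have h3 := pow_mem_span h2 k
  generalize lin (cc x) ^ k = z at h3
  induction h3 using Submodule.span_induction with
  | mem y hy =>
    obtain ⟨β, hβ, hc, rfl⟩ := hy
    have := hφ.2 σ τ β (fun u hu => (Finset.mem_inter.1 (hβ u hu)).1)
      (fun u hu => (Finset.mem_inter.1 (hβ u hu)).2) trivial (by omega) 1
    rw [mul_one] at this
    exact this
  | zero => rw [map_zero, map_zero]
  | add a b _ _ ha hb => rw [map_add, map_add, ha, hb]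
  | smul t a _ ha => rw [map_smul, map_smul, ha]

theorem Fn_in (hs : 1 ≤ s) (T : Triang s) {k r : ℕ} {φ : (cpx hs T).Fam}
    (hφ : φ ∈ PS (cpx hs T) k r Set.univ) (σ : (cpx hs T).Cell) {x : Pt s}
    (hx : x ∈ convexHull ℝ (σ.1 : Set (Pt s))) : Fn hs T k φ x = φ σ (lin (cc x) ^ k) := by
  classical
  have h : ∃ σ : (cpx hs T).Cell, x ∈ convexHull ℝ (σ.1 : Set (Pt s)) := ⟨σ, hx⟩
  have h1 : Fn hs T k φ x = φ h.choose (lin (cc x) ^ k) := Fn0_pos hs T k φ h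
  rw [h1]
  exact agree_on hs T hφ _ _ h.choose_spec hx

theorem Fn_mem (hs : 1 ≤ s) (T : Triang s) {k r : ℕ} {φ : (cpx hs T).Fam}
    (hφ : φ ∈ PS (cpx hs T) k r Set.univ) : Fn hs T k φ ∈ T.splineSpace r k := by
  classical
  choose P hPd hPe _ using fun σ : (cpx hs T).Cell => poly_of_fun k (φ σ)
  refine ⟨?_, ?_, ?_⟩
  · -- smoothness
    let g : Finset (Pt s) → Pt s → ℝ := fun σ x => if h : σ ∈ T.cells then eval x (P ⟨σ, h⟩) else 0
    have hg : ∀ σ (h : σ ∈ T.cells), g σ = fun x => eval x (P ⟨σ, h⟩) := by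
      intro σ h; funext x; simp [g, h]
    refine glue T.cells (fun σ => convexHull ℝ (σ : Set (Pt s))) ?_ r g ?_ _ ?_ ?_
    · intro σ _
      exact (σ.finite_toSet.isCompact_convexHull ℝ).isClosed
    · intro σ h
      rw [hg σ h]
      exact contDiff_eval _
    · intro σ h x hx
      rw [Fn_in hs T hφ ⟨σ, h⟩ hx, hg σ h]
      exact (hPe ⟨σ, h⟩ x).symm
    · intro σ hσ τ hτ x hxσ hxτ m hm
      have hVO : VO r (convexHull ℝ ((σ ∩ τ : Finset (Pt s)) : Set (Pt s)))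
          (P ⟨σ, hσ⟩ - P ⟨τ, hτ⟩) := by
        refine VO_of_smooth r k (φ ⟨σ, hσ⟩ - φ ⟨τ, hτ⟩) _ ?_ ?_
        · intro x
          rw [map_sub, hPe, hPe, LinearMap.sub_apply]
        · intro β hβ hc q
          rw [LinearMap.sub_apply, sub_eq_zero]
          exact hφ.2 ⟨σ, hσ⟩ ⟨τ, hτ⟩ β (fun u hu => (Finset.mem_inter.1 (hβ u hu)).1)
            (fun u hu => (Finset.mem_inter.1 (hβ u hu)).2) trivial hc q
      have hxin : x ∈ convexHull ℝ ((σ ∩ τ : Finset (Pt s)) : Set (Pt s)) := by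
        rw [Finset.coe_inter, ← T.inter σ hσ τ hτ]
        exact ⟨hxσ, hxτ⟩
      have h1 := iteratedFDeriv_of_VO r _ hVO x hxin m hm
      have e : (fun y : Pt s => eval y (P ⟨σ, hσ⟩ - P ⟨τ, hτ⟩)) =
          (fun y : Pt s => eval y (P ⟨σ, hσ⟩)) - fun y : Pt s => eval y (P ⟨τ, hτ⟩) := by
        funext y
        simp
      rw [e, iteratedFDeriv_sub_apply (contDiff_eval _).contDiffAt
        (contDiff_eval _).contDiffAt, sub_eq_zero] at h1
      rw [hg σ hσ, hg τ hτ]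
      exact h1
  · intro x hx
    refine Fn_out hs T k φ fun σ hσ => hx ⟨σ.1, σ.2, hσ⟩
  · intro σ hσ
    exact ⟨P ⟨σ, hσ⟩, hPd _, fun x hx => by rw [Fn_in hs T hφ ⟨σ, hσ⟩ hx, hPe]⟩

theorem exists_Fn (hs : 1 ≤ s) (T : Triang s) {k r : ℕ} (hk : r < k) {f : Pt s → ℝ}
    (hf : f ∈ T.splineSpace r k) : ∃ φ ∈ PS (cpx hs T) k r Set.univ, Fn hs T k φ = f := by
  classical
  obtain ⟨P, hP1, hP2⟩ := exists_fam T hf
  choose φ hφ1 hφ2 using fun σ : (cpx hs T).Cell => fun_of_poly (hP1 σ.1 σ.2).1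
  have hφ : φ ∈ PS (cpx hs T) k r Set.univ := by
    refine ⟨?_, ?_⟩
    · intro σ α _ hα
      exact hφ1 σ _ hα _ (mon_isHomogeneous _ α)
    · intro σ τ β hσ hτ _ hc q
      have h := smooth_of_VO hk (σ := σ.1) (τ := τ.1) (δ := φ σ - φ τ) ?_
        (D := P σ.1 - P τ.1) ?_ ?_ (hP2 σ.1 σ.2 τ.1 τ.2) β hσ hτ hc q
      · rw [LinearMap.sub_apply, sub_eq_zero] at h
        exact h
      · intro n hn p hp
        rw [LinearMap.sub_apply, hφ1 σ n hn p hp, hφ1 τ n hn p hp, sub_zero]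
      · exact (totalDegree_sub _ _).trans (max_le (hP1 σ.1 σ.2).1 (hP1 τ.1 τ.2).1)
      · intro x
        rw [map_sub, hφ2, hφ2, LinearMap.sub_apply]
  refine ⟨φ, hφ, ?_⟩
  funext x
  by_cases hx : ∃ σ : (cpx hs T).Cell, x ∈ convexHull ℝ (σ.1 : Set (Pt s))
  · obtain ⟨σ, hσ⟩ := hx
    rw [Fn_in hs T hφ σ hσ, ← hφ2 σ x, (hP1 σ.1 σ.2).2 x hσ]
  · push Not at hx
    rw [Fn_out hs T k φ hx]
    symm
    refine hf.2.1 x ?_
    rintro ⟨σ, hσ, hxσ⟩
    exact hx ⟨σ, hσ⟩ hxσ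

/-- supports -/
theorem cell_sub_star (hs : 1 ≤ s) (T : Triang s) (v : Pt s) (N : ℕ) :
    ∀ σ ∈ (Nb (cpx hs T))^[N] {σ | v ∈ σ.1},
      convexHull ℝ (σ.1 : Set (Pt s)) ⊆ T.star v (N + 1) := by
  induction N with
  | zero =>
    intro σ hσ x hx
    exact ⟨σ.1, σ.2, ⟨v, subset_convexHull ℝ _ hσ, rfl⟩, hx⟩
  | succ N ih =>
    intro σ hσ x hx
    rw [Function.iterate_succ_apply'] at hσ
    rcases hσ with hσ | ⟨τ, hτ, u, hu1, hu2⟩
    · exact ⟨σ.1, σ.2, ⟨x, hx, ih σ hσ hx⟩, hx⟩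
    · exact ⟨σ.1, σ.2, ⟨u, subset_convexHull ℝ _ hu1,
        ih τ hτ (subset_convexHull ℝ _ hu2)⟩, hx⟩

theorem Fn_local (hs : 1 ≤ s) (T : Triang s) {k r N : ℕ} {φ : (cpx hs T).Fam}
    (hφ : φ ∈ PS (cpx hs T) k r Set.univ) {v : Pt s} (hv : ∃ σ : (cpx hs T).Cell, v ∈ σ.1)
    (hsup : Sup (cpx hs T) ((Nb (cpx hs T))^[N] {σ | v ∈ σ.1}) φ) :
    T.LocallySupported (N + 1) (Fn hs T k φ) := by
  obtain ⟨σ, hσ⟩ := hv
  refine ⟨v, ⟨σ.1, σ.2, hσ⟩, ?_⟩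
  intro x hx
  rw [Function.mem_support] at hx
  by_contra hnot
  apply hx
  by_cases hex : ∃ σ : (cpx hs T).Cell, x ∈ convexHull ℝ (σ.1 : Set (Pt s))
  · obtain ⟨τ, hτ⟩ := hex
    rw [Fn_in hs T hφ τ hτ, hsup τ, LinearMap.zero_apply]
    intro h
    exact hnot (cell_sub_star hs T v N τ h hτ)
  · push Not at hex
    exact Fn_out hs T k φ hex

theorem span_local {r k : ℕ} (hs : 3 ≤ s) (hk : 2 ^ (s - 2) * (3 * r + 1) + 1 ≤ k) :
    ∃ m, 1 ≤ m ∧ ∀ T : Triang s, T.splineSpace r k ≤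
      Submodule.span ℝ {f | f ∈ T.splineSpace r k ∧ T.LocallySupported m f} := by
  have hι : Fintype.card (Option (Fin s)) = (s - 2) + 3 := by
    rw [Fintype.card_option, Fintype.card_fin]; omega
  obtain ⟨N, hN⟩ := core (P := Pt s) (ι := Option (Fin s)) (k := k) (r := r) (t := s - 2) hι
    (by omega) hk
  have hs1 : 1 ≤ s := by omega
  have hrk : r < k := by
    have h1 : 1 ≤ 2 ^ (s - 2) := Nat.one_le_two_pow
    nlinarith
  refine ⟨N + 1, by omega, fun T f hf => ?_⟩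
  obtain ⟨φ, hφ, rfl⟩ := exists_Fn hs1 T hrk hf
  have h1 := hN (cpx hs1 T) φ hφ
  have h2 := Submodule.mem_map_of_mem (f := Fn hs1 T k) h1
  rw [Submodule.map_span] at h2
  refine Submodule.span_mono ?_ h2
  rintro _ ⟨ψ, ⟨hψ, v, hv, hsup⟩, rfl⟩
  exact ⟨Fn_mem hs1 T hψ, Fn_local hs1 T hψ hv hsup⟩

theorem upper (s r k : ℕ) (hs : 3 ≤ s) (hk : 2 ^ (s - 2) * (3 * r + 1) + 1 ≤ k) :
    HasLocalBases s r k := by
  obtain ⟨m, hm, h⟩ := span_local hs hk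
  refine ⟨m, hm, fun T => ?_⟩
  have hspan := h T
  -- work in the subspace
  let X : Set (T.splineSpace r k) := {f | T.LocallySupported m (f : Pt s → ℝ)}
  have hX : Submodule.span ℝ X = ⊤ := by
    rw [eq_top_iff]
    rintro ⟨f, hf⟩ -
    have h1 := hspan hf
    have h2 : ∀ g ∈ Submodule.span ℝ {f | f ∈ T.splineSpace r k ∧ T.LocallySupported m f},
        ∃ hg : g ∈ T.splineSpace r k, (⟨g, hg⟩ : T.splineSpace r k) ∈ Submodule.span ℝ X := by
      intro g hg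
      induction hg using Submodule.span_induction with
      | mem y hy => exact ⟨hy.1, Submodule.subset_span hy.2⟩
      | zero => exact ⟨Submodule.zero_mem _, Submodule.zero_mem _⟩
      | add a b _ _ ha hb =>
        obtain ⟨ha1, ha2⟩ := ha
        obtain ⟨hb1, hb2⟩ := hb
        exact ⟨Submodule.add_mem _ ha1 hb1, Submodule.add_mem _ ha2 hb2⟩
      | smul t a _ ha =>
        obtain ⟨ha1, ha2⟩ := ha
        exact ⟨Submodule.smul_mem _ t ha1, Submodule.smul_mem _ t ha2⟩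
    obtain ⟨_, h3⟩ := h2 f h1
    exact h3
  obtain ⟨b, hbX, hbspan, hbli⟩ := exists_linearIndependent ℝ X
  refine ⟨b, Module.Basis.mk hbli (by
    rw [Subtype.range_coe_subtype, Set.ofPred_mem_eq, hbspan, hX]), fun i => ?_⟩
  rw [Module.Basis.mk_apply]
  exact hbX i.2

end Pool.Agent.USP
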