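import Pool.Agent.USP.Defs
import Pool.Agent.H84Exp.Def

/-! # The complex of a triangulation -/

namespace Pool.Agent.USP

open Pool.Agent.H84Spl Pool.Agent.H84Exp

variable {s : ℕ}

/-- homogeneous coordinates -/
def cc (x : Pt s) : Option (Fin s) → ℝ := fun o => o.elim 1 x

theorem indep_cc (T : Triang s) {σ : Finset (Pt s)} (hσ : σ ∈ T.cells) :
    LinearIndependent ℝ (fun v : σ => cc (v : Pt s)) := by
  have h := affineIndependent_iff.1 (T.indep σ hσ)
  rw [linearIndependent_iff']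
  intro J w hw
  refine h J w ?_ ?_
  · have := congrFun hw none
    simpa [cc, Finset.sum_apply] using this
  · funext i
    have := congrFun hw (some i)
    simpa [cc, Finset.sum_apply] using this

theorem span_cc (T : Triang s) {σ : Finset (Pt s)} (hσ : σ ∈ T.cells) :
    Submodule.span ℝ (Set.range fun v : σ => cc (v : Pt s)) = ⊤ :=
  (indep_cc T hσ).span_eq_top_of_card_eq_finrank' (by
    rw [Fintype.card_coe, T.card_eq σ hσ, Module.finrank_fintype_fun_eq_card,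
      Fintype.card_option, Fintype.card_fin])

theorem cc_sum {J : Finset (Pt s)} {w : Pt s → ℝ} {x : Pt s} (h1 : ∑ y ∈ J, w y = 1)
    (h2 : ∑ y ∈ J, w y • y = x) : cc x = ∑ y ∈ J, w y • cc y := by
  funext o
  rw [Finset.sum_apply]
  cases o with
  | none => simp [cc, h1]
  | some i =>
    have := congrFun h2 i
    rw [Finset.sum_apply] at this
    simpa [cc] using this.symm

/-- two cells on the same side of a common facet are equal -/
theorem same_side (T : Triang s) {G : Finset (Pt s)} {v w : Pt s} (hG : G.Nonempty)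
    (hvG : v ∉ G) (hwG : w ∉ G) (hvw : v ≠ w) {σ τ : Finset (Pt s)} (hσ : σ ∈ T.cells)
    (hτ : τ ∈ T.cells) (hσG : ∀ x, x ∈ σ ↔ x = v ∨ x ∈ G) (hτG : ∀ x, x ∈ τ ↔ x = w ∨ x ∈ G)
    (ℓ : (Option (Fin s) → ℝ) →ₗ[ℝ] ℝ) (hℓ : ∀ u ∈ G, ℓ (cc u) = 0)
    (hpos : 0 < ℓ (cc v) * ℓ (cc w)) : False := by
  classical
  -- coordinates of `v` with respect to `τ`
  have hv : cc v ∈ Submodule.span ℝ (Set.range fun u : τ => cc (u : Pt s)) := by
    rw [span_cc T hτ]; trivial
  obtain ⟨a', ha'⟩ := (Submodule.mem_span_range_iff_exists_fun ℝ).1 hv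
  obtain ⟨a, ha⟩ : ∃ a : Pt s → ℝ, ∀ u : τ, a u = a' u :=
    ⟨fun x => if h : x ∈ τ then a' ⟨x, h⟩ else 0, fun u => by simp⟩
  have hsum : ∑ u ∈ τ, a u • cc u = cc v := by
    rw [← ha', ← Finset.sum_coe_sort]
    exact Finset.sum_congr rfl fun u _ => by rw [ha]
  have hτ' : τ = insert w G := by
    ext x; rw [hτG x, Finset.mem_insert]
  have hσ' : σ = insert v G := by
    ext x; rw [hσG x, Finset.mem_insert]
  have haw : 0 < a w := by
    have h1 := congrArg ℓ hsum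
    rw [map_sum, hτ', Finset.sum_insert hwG, Finset.sum_eq_zero (s := G)] at h1
    · rw [add_zero, map_smul, smul_eq_mul] at h1
      by_contra hle
      push Not at hle
      have h2 : ℓ (cc v) * ℓ (cc w) = a w * (ℓ (cc w) * ℓ (cc w)) := by rw [← h1]; ring
      have h3 := mul_self_nonneg (ℓ (cc w))
      nlinarith [mul_nonneg (neg_nonneg.2 hle) h3]
    · intro u hu
      rw [map_smul, hℓ u hu, smul_zero]
  have ha1 : ∑ u ∈ τ, a u = 1 := by
    have := congrFun hsum none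
    simpa [cc, Finset.sum_apply] using this
  have ha2 : ∑ u ∈ τ, a u • u = v := by
    funext i
    have := congrFun hsum (some i)
    simpa [cc, Finset.sum_apply] using this
  -- a bound for the coefficients
  obtain ⟨M, hM0, hM⟩ : ∃ M : ℝ, 0 ≤ M ∧ ∀ u ∈ τ, -M ≤ a u := by
    refine ⟨∑ u ∈ τ, |a u|, Finset.sum_nonneg fun _ _ => abs_nonneg _, fun u hu => ?_⟩
    have h1 := Finset.single_le_sum (f := fun u => |a u|) (fun _ _ => abs_nonneg _) hu
    have h2 := neg_abs_le (a u)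
    linarith
  have hGc : (0 : ℝ) < (G.card : ℝ) := by exact_mod_cast hG.card_pos
  obtain ⟨ε, hε0, hε1, hε⟩ : ∃ ε : ℝ, 0 < ε ∧ ε ≤ 1 ∧ 1 - ε = ε * ((G.card : ℝ) * M) := by
    refine ⟨1 / (1 + (G.card : ℝ) * M), by positivity, ?_, ?_⟩
    · rw [div_le_one (by positivity)]
      have : 0 ≤ (G.card : ℝ) * M := by positivity
      linarith
    · have : (1 + (G.card : ℝ) * M) ≠ 0 := by positivity
      field_simp
      ring
  obtain ⟨b, hb⟩ : ∃ b : ℝ, b = (1 - ε) / G.card := ⟨_, rfl⟩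
  have hb0 : 0 ≤ b := by rw [hb]; exact div_nonneg (by linarith) hGc.le
  have hbM : b = ε * M := by rw [hb, hε]; field_simp
  have hbG : (G.card : ℝ) * b = 1 - ε := by rw [hb]; field_simp
  obtain ⟨x, hx⟩ : ∃ x : Pt s, x = (∑ u ∈ G, b • u) + ε • v := ⟨_, rfl⟩
  have hxσ : x ∈ convexHull ℝ (σ : Set (Pt s)) := by
    rw [Finset.mem_convexHull']
    refine ⟨fun y => if y = v then ε else b, ?_, ?_, ?_⟩
    · intro y _
      beta_reduce
      split_ifs
      · exact hε0.le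
      · exact hb0
    · rw [hσ', Finset.sum_insert hvG, if_pos rfl, Finset.sum_congr rfl (g := fun _ => b)]
      · rw [Finset.sum_const, nsmul_eq_mul, hbG]; ring
      · intro y hy
        rw [if_neg]; rintro rfl; exact hvG hy
    · rw [hσ', Finset.sum_insert hvG]
      beta_reduce
      rw [if_pos rfl, hx, add_comm]
      congr 1
      refine Finset.sum_congr rfl fun y hy => ?_
      rw [if_neg]; rintro rfl; exact hvG hy
  have hxτ : x ∈ convexHull ℝ (τ : Set (Pt s)) := by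
    rw [Finset.mem_convexHull']
    refine ⟨fun y => (if y ∈ G then b else 0) + ε * a y, ?_, ?_, ?_⟩
    · intro y hy
      beta_reduce
      by_cases hyG : y ∈ G
      · rw [if_pos hyG, hbM]
        have := hM y hy
        nlinarith
      · rw [if_neg hyG, zero_add]
        have : y = w := by
          rcases (hτG y).1 hy with h | h
          · exact h
          · exact absurd h hyG
        rw [this]
        exact mul_nonneg hε0.le haw.le
    · rw [Finset.sum_add_distrib, ← Finset.mul_sum, ha1, hτ', Finset.sum_insert hwG,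
        if_neg hwG, Finset.sum_congr rfl (g := fun _ => b)]
      · rw [Finset.sum_const, nsmul_eq_mul, hbG]; ring
      · intro y hy; rw [if_pos hy]
    · have h1 : ∑ y ∈ τ, ((if y ∈ G then b else 0) + ε * a y) • y =
          (∑ y ∈ τ, (if y ∈ G then b else 0) • y) + ε • ∑ y ∈ τ, a y • y := by
        rw [Finset.smul_sum, ← Finset.sum_add_distrib]
        refine Finset.sum_congr rfl fun y _ => ?_
        rw [add_smul, smul_smul]
      rw [h1, ha2, hx]
      congr 1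
      rw [hτ', Finset.sum_insert hwG, if_neg hwG, zero_smul, zero_add]
      refine Finset.sum_congr rfl fun y hy => ?_
      rw [if_pos hy]
  have hinter : x ∈ convexHull ℝ (G : Set (Pt s)) := by
    have h1 := T.inter σ hσ τ hτ
    have h2 : ((σ : Set (Pt s)) ∩ (τ : Set (Pt s))) = (G : Set (Pt s)) := by
      ext y
      simp only [Set.mem_inter_iff, Finset.mem_coe, hσG y, hτG y]
      constructor
      · rintro ⟨h3 | h3, h4 | h4⟩
        · exact absurd (h3.symm.trans h4) hvw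
        · exact h4
        · exact h3
        · exact h4
      · exact fun h => ⟨Or.inr h, Or.inr h⟩
    rw [h2] at h1
    rw [← h1]
    exact ⟨hxσ, hxτ⟩
  obtain ⟨c, -, hc1, hc2⟩ := (Finset.mem_convexHull').1 hinter
  have h1 : ℓ (cc x) = 0 := by
    rw [cc_sum hc1 hc2, map_sum]
    refine Finset.sum_eq_zero fun y hy => ?_
    rw [map_smul, hℓ y hy, smul_zero]
  have h2 : cc x = (∑ u ∈ G, b • cc u) + ε • cc v := by
    funext o
    cases o with
    | none =>
      simp only [cc, Option.elim, Pi.add_apply, Finset.sum_apply, Pi.smul_apply, smul_eq_mul,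
        mul_one, Finset.sum_const, nsmul_eq_mul]
      rw [hbG]; ring
    | some i =>
      rw [hx]
      simp [cc, Finset.sum_apply]
  rw [h2, map_add, map_sum, Finset.sum_eq_zero, zero_add, map_smul, smul_eq_mul] at h1
  · rcases mul_eq_zero.1 h1 with h | h
    · exact hε0.ne' h
    · rw [h, zero_mul] at hpos
      exact lt_irrefl _ hpos
  · intro u hu
    rw [map_smul, hℓ u hu, smul_zero]

/-- a facet is in at most two cells -/
theorem two_cells (hs : 1 ≤ s) (T : Triang s) (G : Finset (Pt s))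
    (hG : G.card + 1 = Fintype.card (Option (Fin s))) (σ₁ : Finset (Pt s)) (h1 : σ₁ ∈ T.cells)
    (σ₂ : Finset (Pt s)) (h2 : σ₂ ∈ T.cells) (σ₃ : Finset (Pt s)) (h3 : σ₃ ∈ T.cells)
    (hG1 : G ⊆ σ₁) (hG2 : G ⊆ σ₂) (hG3 : G ⊆ σ₃) : σ₁ = σ₂ ∨ σ₁ = σ₃ ∨ σ₂ = σ₃ := by
  classical
  rw [Fintype.card_option, Fintype.card_fin] at hG
  have hGne : G.Nonempty := Finset.card_pos.1 (by omega)
  -- the extra vertex
  have hex : ∀ σ ∈ T.cells, G ⊆ σ → ∃ v, v ∉ G ∧ ∀ x, x ∈ σ ↔ x = v ∨ x ∈ G := by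
    intro σ hσ hGσ
    have hc : (σ \ G).card = 1 := by
      rw [Finset.card_sdiff_of_subset hGσ, T.card_eq σ hσ]; omega
    obtain ⟨v, hv⟩ := Finset.card_eq_one.1 hc
    have hv' : v ∈ σ \ G := by rw [hv]; exact Finset.mem_singleton_self v
    refine ⟨v, (Finset.mem_sdiff.1 hv').2, fun x => ⟨fun hx => ?_, ?_⟩⟩
    · by_cases hxG : x ∈ G
      · exact Or.inr hxG
      · left
        have : x ∈ σ \ G := Finset.mem_sdiff.2 ⟨hx, hxG⟩
        rw [hv] at this
        exact Finset.mem_singleton.1 this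
    · rintro (rfl | h)
      · exact (Finset.mem_sdiff.1 hv').1
      · exact hGσ h
  obtain ⟨v₁, hv₁, e₁⟩ := hex σ₁ h1 hG1
  obtain ⟨v₂, hv₂, e₂⟩ := hex σ₂ h2 hG2
  obtain ⟨v₃, hv₃, e₃⟩ := hex σ₃ h3 hG3
  -- a functional that vanishes on `G`
  obtain ⟨ℓ, hℓ, hℓ1⟩ : ∃ ℓ : (Option (Fin s) → ℝ) →ₗ[ℝ] ℝ, (∀ u ∈ G, ℓ (cc u) = 0) ∧
      ∀ σ ∈ T.cells, ∀ v, v ∉ G → (∀ x, x ∈ σ ↔ x = v ∨ x ∈ G) → ℓ (cc v) ≠ 0 := by
    let b : Module.Basis σ₁ ℝ (Option (Fin s) → ℝ) := Module.Basis.mk (indep_cc T h1) (by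
      rw [span_cc T h1])
    have hb : ∀ u : σ₁, b u = cc (u : Pt s) := by intro u; simp [b]
    have hv₁σ : v₁ ∈ σ₁ := (e₁ v₁).2 (Or.inl rfl)
    refine ⟨b.coord ⟨v₁, hv₁σ⟩, ?_, ?_⟩
    · intro u hu
      have h4 := hb ⟨u, hG1 hu⟩
      rw [← h4, Module.Basis.coord_apply, Module.Basis.repr_self, Finsupp.single_apply, if_neg]
      intro h
      have h5 : u = v₁ := Subtype.ext_iff.1 h
      exact hv₁ (h5 ▸ hu)
    · intro σ hσ v hvG e h0
      have hvσ : v ∈ σ := (e v).2 (Or.inl rfl)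
      have h4 := (indep_cc T hσ).notMem_span_image (s := {u : σ | (u : Pt s) ≠ v})
        (x := ⟨v, hvσ⟩) (by simp)
      apply h4
      rw [← b.sum_repr (cc v)]
      refine Submodule.sum_mem _ fun u _ => ?_
      by_cases huv : (u : Pt s) = v₁
      · have e4 : u = ⟨v₁, hv₁σ⟩ := Subtype.ext huv
        have : b.repr (cc v) u = 0 := by rw [e4]; exact h0
        rw [this, zero_smul]; exact Submodule.zero_mem _
      · have huG : (u : Pt s) ∈ G := by
          rcases (e₁ u).1 u.2 with h | h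
          · exact absurd h huv
          · exact h
        refine Submodule.smul_mem _ _ (Submodule.subset_span ⟨⟨u, (e u).2 (Or.inr huG)⟩, ?_,
          (hb u).symm⟩)
        show (u : Pt s) ≠ v
        rintro h
        exact hvG (h ▸ huG)
  have g1 := hℓ1 σ₁ h1 v₁ hv₁ e₁
  have g2 := hℓ1 σ₂ h2 v₂ hv₂ e₂
  have g3 := hℓ1 σ₃ h3 v₃ hv₃ e₃
  have key : ∀ (σ τ : Finset (Pt s)) (v w : Pt s), σ ∈ T.cells → τ ∈ T.cells → v ∉ G →
      w ∉ G → (∀ x, x ∈ σ ↔ x = v ∨ x ∈ G) → (∀ x, x ∈ τ ↔ x = w ∨ x ∈ G) →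
      0 < ℓ (cc v) * ℓ (cc w) → σ = τ := by
    intro σ τ v w hσ hτ hv hw hσG hτG hpos
    by_cases hvw : v = w
    · subst hvw
      ext x; rw [hσG x, hτG x]
    · exact (same_side T hGne hv hw hvw hσ hτ hσG hτG ℓ hℓ hpos).elim
  rcases lt_or_gt_of_ne g1 with k1 | k1 <;> rcases lt_or_gt_of_ne g2 with k2 | k2 <;>
    rcases lt_or_gt_of_ne g3 with k3 | k3
  · exact Or.inl (key _ _ _ _ h1 h2 hv₁ hv₂ e₁ e₂ (mul_pos_of_neg_of_neg k1 k2))
  · exact Or.inl (key _ _ _ _ h1 h2 hv₁ hv₂ e₁ e₂ (mul_pos_of_neg_of_neg k1 k2))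
  · exact Or.inr (Or.inl (key _ _ _ _ h1 h3 hv₁ hv₃ e₁ e₃ (mul_pos_of_neg_of_neg k1 k3)))
  · exact Or.inr (Or.inr (key _ _ _ _ h2 h3 hv₂ hv₃ e₂ e₃ (mul_pos k2 k3)))
  · exact Or.inr (Or.inr (key _ _ _ _ h2 h3 hv₂ hv₃ e₂ e₃ (mul_pos_of_neg_of_neg k2 k3)))
  · exact Or.inr (Or.inl (key _ _ _ _ h1 h3 hv₁ hv₃ e₁ e₃ (mul_pos k1 k3)))
  · exact Or.inl (key _ _ _ _ h1 h2 hv₁ hv₂ e₁ e₂ (mul_pos k1 k2))
  · exact Or.inl (key _ _ _ _ h1 h2 hv₁ hv₂ e₁ e₂ (mul_pos k1 k2))

/-- the complex of a triangulation -/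
def cpx (hs : 1 ≤ s) (T : Triang s) : Cpx (Pt s) (Option (Fin s)) where
  c := cc
  cells := T.cells
  card_eq := fun σ hσ => by rw [T.card_eq σ hσ, Fintype.card_option, Fintype.card_fin]
  indep := fun _ hσ => indep_cc T hσ
  two := two_cells hs T

end Pool.Agent.USP
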