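import Pool.Agent.USP.PadeJ

/-! # The Padé step -/

namespace Pool.Agent.USP

open MvPolynomial

variable {P ι : Type} [Fintype ι]

theorem split_two {x y : P} (δ : Multiset P) (hδ : ∀ z ∈ δ, z = x ∨ z = y) :
    ∃ n ≤ Multiset.card δ,
      δ = Multiset.replicate n x + Multiset.replicate (Multiset.card δ - n) y := by
  induction δ using Multiset.induction_on with
  | empty => exact ⟨0, le_rfl, by simp⟩
  | cons a δ ih =>
    obtain ⟨n, hn, hδn⟩ := ih fun x hx => hδ x (Multiset.mem_cons_of_mem hx)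
    rcases hδ a (Multiset.mem_cons_self _ _) with rfl | rfl
    · refine ⟨n + 1, by simpa using hn, ?_⟩
      rw [Multiset.card_cons, Nat.add_sub_add_right, Multiset.replicate_succ,
        Multiset.cons_add, ← hδn]
    · refine ⟨n, by rw [Multiset.card_cons]; omega, ?_⟩
      rw [Multiset.card_cons, Nat.sub_add_comm hn, Multiset.replicate_succ,
        Multiset.add_cons, ← hδn]

theorem two_out (K : Cpx P ι) {F : Finset P} (hF : F.card + 2 = Fintype.card ι) (σ : K.Cell)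
    (hσ : F ⊆ σ.1) {x : P} (hx : x ∈ σ.1) (hxF : x ∉ F) :
    ∃ y, y ≠ x ∧ y ∉ F ∧ ∀ z, z ∈ σ.1 ↔ z = x ∨ z = y ∨ z ∈ F := by
  classical
  have h1 : (σ.1 \ F).card = 2 := by
    rw [Finset.card_sdiff_of_subset hσ, K.card_eq σ.1 σ.2]; omega
  have hx' : x ∈ σ.1 \ F := Finset.mem_sdiff.2 ⟨hx, hxF⟩
  have h2 : ((σ.1 \ F).erase x).card = 1 := by rw [Finset.card_erase_of_mem hx', h1]
  obtain ⟨y, hy⟩ := Finset.card_eq_one.1 h2
  have hy' : y ∈ (σ.1 \ F).erase x := by rw [hy]; exact Finset.mem_singleton_self y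
  rw [Finset.mem_erase, Finset.mem_sdiff] at hy'
  refine ⟨y, hy'.1, hy'.2.2, fun z => ⟨fun hz => ?_, ?_⟩⟩
  · by_cases hzF : z ∈ F
    · exact Or.inr (Or.inr hzF)
    by_cases hzx : z = x
    · exact Or.inl hzx
    · refine Or.inr (Or.inl ?_)
      have : z ∈ (σ.1 \ F).erase x := Finset.mem_erase.2 ⟨hzx, Finset.mem_sdiff.2 ⟨hz, hzF⟩⟩
      rw [hy] at this
      exact Finset.mem_singleton.1 this
  · rintro (rfl | rfl | h)
    · exact hx
    · exact hy'.2.1
    · exact hσ h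

theorem pade_g (K : Cpx P ι) {k r e : ℕ} {U : Set (Multiset P)} (hU : Up U)
    {φ : K.Fam} (hφ : φ ∈ PS K k r U) {β : Multiset P} (hβ : Multiset.card β + e = k)
    (ha : ∀ u ∈ β, u ::ₘ β ∈ U) {F : Finset P} (hF : ∀ x, x ∈ F ↔ x ∈ β)
    (hFc : F.card + 2 = Fintype.card ι) (h1 : 3 * r + 2 ≤ 2 * e) (h2 : e ≤ 2 * r)
    (hb : ∀ σ : K.Cell, On σ.1 β → ∀ δ, On σ.1 δ → Multiset.card δ = e → β + δ ∈ U →
      (∃ u ∈ β, u ∈ δ) ∨ ∃ x ∈ σ.1, x ∉ F ∧ ∀ n, Multiset.replicate n x ≤ δ →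
        n + (3 * r + 2) ≤ 2 * e)
    (ht : ∀ σ : K.Cell, On σ.1 β → ∀ x ∈ σ.1, x ∉ F →
      β + Multiset.replicate (3 * r + 2 - e) x ∈ U) :
    ∃ g : K.Fam,
      (∀ σ : K.Cell, On σ.1 β → ∀ δ, On σ.1 δ → Multiset.card δ ≠ e → g σ (mon K.c δ) = 0) ∧
      (∀ σ : K.Cell, On σ.1 β → ∀ δ, On σ.1 δ → β + δ ∈ U → g σ (mon K.c δ) = 0) ∧
      (∀ σ τ : K.Cell, On σ.1 β → On τ.1 β → ∀ γ, On σ.1 γ → On τ.1 γ →
        k ≤ Multiset.card β + Multiset.card γ + r → ∀ q,
        φ σ (mon K.c (β + γ) * q) - g σ (mon K.c γ * q) =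
          φ τ (mon K.c (β + γ) * q) - g τ (mon K.c γ * q)) := by
  classical
  obtain ⟨pr, hpr1, hpr2⟩ := exists_frame K.c {u | u ∈ β}
  obtain ⟨G, hG⟩ : ∃ G, G = gfr K φ β pr := ⟨_, rfl⟩
  have hGhom : ∀ σ δ, Multiset.card δ ≠ e → G σ (mon K.c δ) = 0 := by
    intro σ δ hδ; rw [hG]; exact gfr_hom K hφ hβ pr σ δ hδ
  have hGzero : ∀ σ δ, (∃ u ∈ F, u ∈ δ) → G σ (mon K.c δ) = 0 := by
    rintro σ δ ⟨u, hu, hu'⟩; rw [hG]; exact gfr_zero K φ β pr hpr1 σ δ ((hF u).1 hu) hu'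
  have hGdiff : ∀ σ τ : K.Cell, On σ.1 β → On τ.1 β → ∀ γ, On σ.1 γ → On τ.1 γ →
      k ≤ Multiset.card β + Multiset.card γ + r → ∀ q,
      φ σ (mon K.c (β + γ) * q) - G σ (mon K.c γ * q) =
        φ τ (mon K.c (β + γ) * q) - G τ (mon K.c γ * q) := by
    intro σ τ hσ hτ γ hγσ hγτ hk q
    rw [hG]; exact gfr_diff K hU hφ ha pr hpr2 σ τ hσ hτ γ hγσ hγτ hk q
  have hFσ : ∀ σ : K.Cell, On σ.1 β → F ⊆ σ.1 := fun σ hσ u hu => hσ u ((hF u).1 hu)
  -- on jets of order `b` the functionals of the two cells agree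
  have hGeq : ∀ σ τ : K.Cell, On σ.1 β → On τ.1 β → ∀ x ∈ σ.1, x ∈ τ.1 → x ∉ F → ∀ p,
      G σ (lin (K.c x) ^ (3 * r + 2 - e) * p) = G τ (lin (K.c x) ^ (3 * r + 2 - e) * p) := by
    intro σ τ hσ hτ x hxσ hxτ hxF p
    have hk : k ≤ Multiset.card β + Multiset.card (Multiset.replicate (3 * r + 2 - e) x) + r := by
      rw [Multiset.card_replicate]; omega
    have h3 := hGdiff σ τ hσ hτ (Multiset.replicate (3 * r + 2 - e) x) (on_replicate hxσ)
      (on_replicate hxτ) hk p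
    have h4 := hφ.2 σ τ (β + Multiset.replicate (3 * r + 2 - e) x)
      (on_add.2 ⟨hσ, on_replicate hxσ⟩) (on_add.2 ⟨hτ, on_replicate hxτ⟩) (ht σ hσ x hxσ hxF)
      (by rw [Multiset.card_add]; exact hk) p
    rw [mon_replicate] at h3
    linarith
  -- the jets
  have hj : ∀ x : P, ∃ j : MvPolynomial ι ℝ →ₗ[ℝ] ℝ,
      (∀ δ : Multiset P, Multiset.card δ ≠ e → j (mon K.c δ) = 0) ∧
      (∀ δ : Multiset P, (∃ u ∈ F, u ∈ δ) → j (mon K.c δ) = 0) ∧
      ∀ σ : K.Cell, On σ.1 β → x ∈ σ.1 → x ∉ F →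
        (∀ p, j (lin (K.c x) ^ (3 * r + 2 - e) * p) =
          G σ (lin (K.c x) ^ (3 * r + 2 - e) * p)) ∧
        ∀ y ∈ σ.1, y ∉ F → y ≠ x → ∀ p,
          j (lin (K.c x) ^ (e - r) * lin (K.c y) ^ (e - r) * p) = 0 := by
    intro x
    by_cases hex : ∃ σ : K.Cell, On σ.1 β ∧ x ∈ σ.1 ∧ x ∉ F
    swap
    · refine ⟨0, fun δ _ => by simp, fun δ _ => by simp, fun σ h3 h4 h5 => ?_⟩
      exact absurd ⟨σ, h3, h4, h5⟩ hex
    obtain ⟨σ₁, hσ₁, hxσ₁, hxF⟩ := hex
    obtain ⟨v, hvx, hvF, hv⟩ := two_out K hFc σ₁ (hFσ σ₁ hσ₁) hxσ₁ hxF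
    have hfacet : (insert x F).card + 1 = Fintype.card ι := by
      rw [Finset.card_insert_of_notMem hxF]; omega
    have hsub : ∀ σ : K.Cell, On σ.1 β → x ∈ σ.1 → insert x F ⊆ σ.1 := by
      intro σ hσ hx z hz
      rcases Finset.mem_insert.1 hz with rfl | hz
      · exact hx
      · exact hFσ σ hσ hz
    -- the second cell
    obtain ⟨σ₂, hσ₂, hxσ₂, hall⟩ : ∃ σ₂ : K.Cell, On σ₂.1 β ∧ x ∈ σ₂.1 ∧
        ∀ σ : K.Cell, On σ.1 β → x ∈ σ.1 → σ = σ₁ ∨ σ = σ₂ := by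
      by_cases h3 : ∃ σ₂ : K.Cell, On σ₂.1 β ∧ x ∈ σ₂.1 ∧ σ₂ ≠ σ₁
      · obtain ⟨σ₂, h4, h5, h6⟩ := h3
        refine ⟨σ₂, h4, h5, fun σ hσ hx => ?_⟩
        rcases K.two (insert x F) hfacet σ.1 σ.2 σ₁.1 σ₁.2 σ₂.1 σ₂.2 (hsub σ hσ hx)
          (hsub σ₁ hσ₁ hxσ₁) (hsub σ₂ h4 h5) with h | h | h
        · exact Or.inl (Subtype.ext h)
        · exact Or.inr (Subtype.ext h)
        · exact absurd (Subtype.ext h.symm) h6
      · push Not at h3
        exact ⟨σ₁, hσ₁, hxσ₁, fun σ hσ hx => Or.inl (h3 σ hσ hx)⟩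
    obtain ⟨w, hwx, hwF, hw⟩ := two_out K hFc σ₂ (hFσ σ₂ hσ₂) hxσ₂ hxF
    obtain ⟨j, hj1, hj2, hj3, hj4, hj5⟩ := exists_j K (σ := σ₁) (τ := σ₂) (F := F) (g := x)
      (v := v) (w := w) hvx.symm hxF hvF hwF hwx.symm hv hw h1 h2 (G σ₁)
      (fun δ _ hc => hGhom σ₁ δ hc) (fun δ _ hu => hGzero σ₁ δ hu)
    refine ⟨j, hj1, hj2, fun σ hσ hxσ _ => ?_⟩
    rcases hall σ hσ hxσ with rfl | rfl
    · refine ⟨hj3, fun y hy hyF hyx p => ?_⟩
      rcases (hv y).1 hy with h | h | h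
      · exact absurd h hyx
      · rw [h]; exact hj4 p
      · exact absurd h hyF
    · refine ⟨fun p => ?_, fun y hy hyF hyx p => ?_⟩
      · rw [hj3 p]; exact hGeq σ₁ σ hσ₁ hσ x hxσ₁ hxσ hxF p
      · rcases (hw y).1 hy with h | h | h
        · exact absurd h hyx
        · rw [h]; exact hj5 p
        · exact absurd h hyF
  choose j hj1 hj2 hj3 using hj
  -- the functionals `h`
  choose h hh using fun σ : K.Cell => exists_fun K σ (fun δ => if Multiset.card δ = e then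
    ∑ x ∈ σ.1 \ F, (if r < Multiset.count x δ then j x (mon K.c δ) else 0) else 0)
  have hhom : ∀ σ : K.Cell, ∀ δ, On σ.1 δ → Multiset.card δ ≠ e → h σ (mon K.c δ) = 0 := by
    intro σ δ hδ hc; rw [hh σ δ hδ, if_neg hc]
  have hhzero : ∀ σ : K.Cell, ∀ δ, On σ.1 δ → (∃ u ∈ F, u ∈ δ) → h σ (mon K.c δ) = 0 := by
    intro σ δ hδ hu
    rw [hh σ δ hδ]
    split_ifs
    · refine Finset.sum_eq_zero fun x _ => ?_
      split_ifs
      · exact hj2 x δ hu
      · rfl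
    · rfl
  -- values of `h`
  have hval : ∀ σ : K.Cell, On σ.1 β → ∀ x ∈ σ.1, x ∉ F → ∀ δ, On σ.1 δ →
      e ≤ Multiset.count x δ + r → h σ (mon K.c δ) = j x (mon K.c δ) := by
    intro σ hσ x hx hxF δ hδ hcount
    by_cases hc : Multiset.card δ = e
    swap
    · rw [hhom σ δ hδ hc, hj1 x δ hc]
    by_cases hu : ∃ u ∈ F, u ∈ δ
    · rw [hhzero σ δ hδ hu, hj2 x δ hu]
    push Not at hu
    obtain ⟨y, hyx, hyF, hy⟩ := two_out K hFc σ (hFσ σ hσ) hx hxF
    have hδ2 : ∀ z ∈ δ, z = x ∨ z = y := by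
      intro z hz
      rcases (hy z).1 (hδ z hz) with h3 | h3 | h3
      · exact Or.inl h3
      · exact Or.inr h3
      · exact absurd hz (hu z h3)
    obtain ⟨n, hn, hδn⟩ := split_two δ hδ2
    have hcx : Multiset.count x δ = n := by
      rw [hδn, Multiset.count_add, Multiset.count_replicate_self,
        Multiset.count_replicate, if_neg hyx]; simp
    have hcy : Multiset.count y δ = e - n := by
      rw [hδn, Multiset.count_add, Multiset.count_replicate_self,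
        Multiset.count_replicate, if_neg hyx.symm, hc, zero_add]
    have hset : σ.1 \ F = {x, y} := by
      ext z
      rw [Finset.mem_sdiff, hy z, Finset.mem_insert, Finset.mem_singleton]
      constructor
      · rintro ⟨h3 | h3 | h3, h4⟩
        · exact Or.inl h3
        · exact Or.inr h3
        · exact absurd h3 h4
      · rintro (rfl | rfl)
        · exact ⟨Or.inl rfl, hxF⟩
        · exact ⟨Or.inr (Or.inl rfl), hyF⟩
    rw [hh σ δ hδ, if_pos hc, hset, Finset.sum_pair hyx.symm, hcx, hcy]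
    rw [hcx] at hcount
    rw [if_neg (by omega : ¬ r < e - n), add_zero]
    by_cases hrn : r < n
    · rw [if_pos hrn]
    · rw [if_neg hrn]
      have h3 : mon K.c δ = lin (K.c x) ^ (e - r) * lin (K.c y) ^ (e - r) *
          (lin (K.c x) ^ (n - (e - r)) * lin (K.c y) ^ (e - n - (e - r))) := by
        rw [hδn, mon_add, mon_replicate, mon_replicate, hc]
        obtain ⟨a, ha'⟩ : ∃ a, n = (e - r) + a := ⟨n - (e - r), by omega⟩
        obtain ⟨b, hb'⟩ : ∃ b, e - n = (e - r) + b := ⟨e - n - (e - r), by omega⟩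
        rw [hb', ha', pow_add, pow_add, Nat.add_sub_cancel_left, Nat.add_sub_cancel_left]
        ring
      rw [h3, (hj3 x σ hσ hx hxF).2 y ((hy y).2 (Or.inr (Or.inl rfl))) hyF hyx]
  refine ⟨fun σ => G σ - h σ, ?_, ?_, ?_⟩
  · intro σ _ δ hδ hc
    rw [LinearMap.sub_apply, hGhom σ δ hc, hhom σ δ hδ hc, sub_zero]
  · intro σ hσ δ hδ hin
    rw [LinearMap.sub_apply]
    by_cases hc : Multiset.card δ = e
    swap
    · rw [hGhom σ δ hc, hhom σ δ hδ hc, sub_zero]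
    by_cases hu : ∃ u ∈ F, u ∈ δ
    · rw [hGzero σ δ hu, hhzero σ δ hδ hu, sub_zero]
    rcases hb σ hσ δ hδ hc hin with ⟨u, hu1, hu2⟩ | ⟨y, hyσ, hyF, hy⟩
    · exact absurd ⟨u, (hF u).2 hu1, hu2⟩ hu
    push Not at hu
    obtain ⟨x, hxy, hxF, hx⟩ := two_out K hFc σ (hFσ σ hσ) hyσ hyF
    have hxσ : x ∈ σ.1 := (hx x).2 (Or.inr (Or.inl rfl))
    have hδ2 : ∀ z ∈ δ, z = x ∨ z = y := by
      intro z hz
      rcases (hx z).1 (hδ z hz) with h3 | h3 | h3
      · exact Or.inr h3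
      · exact Or.inl h3
      · exact absurd hz (hu z h3)
    obtain ⟨n, hn, hδn⟩ := split_two δ hδ2
    have hcx : Multiset.count x δ = n := by
      rw [hδn, Multiset.count_add, Multiset.count_replicate_self,
        Multiset.count_replicate, if_neg hxy.symm]; simp
    have hle : Multiset.replicate (Multiset.card δ - n) y ≤ δ := by
      have h5 := Multiset.le_add_left (Multiset.replicate (Multiset.card δ - n) y)
        (Multiset.replicate n x)
      rw [← hδn] at h5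
      exact h5
    have hy' := hy (Multiset.card δ - n) hle
    rw [hval σ hσ x hxσ hxF δ hδ (by rw [hcx]; omega)]
    have h3 : mon K.c δ = lin (K.c x) ^ (3 * r + 2 - e) *
        (lin (K.c x) ^ (n - (3 * r + 2 - e)) * lin (K.c y) ^ (Multiset.card δ - n)) := by
      have e1 : mon K.c δ = lin (K.c x) ^ n * lin (K.c y) ^ (Multiset.card δ - n) := by
        conv_lhs => rw [hδn]
        rw [mon_add, mon_replicate, mon_replicate]
      have e2 : lin (K.c x) ^ n = lin (K.c x) ^ (3 * r + 2 - e) *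
          lin (K.c x) ^ (n - (3 * r + 2 - e)) := by
        rw [← pow_add]; congr 1; omega
      rw [e1, e2, mul_assoc]
    rw [h3, (hj3 x σ hσ hxσ hxF).1, sub_self]
  · intro σ τ hσ hτ γ hγσ hγτ hk q
    have h3 := hGdiff σ τ hσ hτ γ hγσ hγτ hk q
    have h4 : h σ (mon K.c γ * q) = h τ (mon K.c γ * q) := by
      by_cases hu : ∃ u ∈ F, u ∈ γ
      · have h5 : ∀ σ : K.Cell, On σ.1 γ → h σ (mon K.c γ * q) = 0 := by
          intro σ hσ
          have key := mul_ext_mon K σ (φ := h σ) (ψ := 0) (a := mon K.c γ) (b := 1) ?_ q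
          · rw [key]; simp
          · intro δ hδ
            rw [← mon_add, LinearMap.zero_apply]
            refine hhzero σ _ (on_add.2 ⟨hσ, hδ⟩) ?_
            obtain ⟨u, hu1, hu2⟩ := hu
            exact ⟨u, hu1, Multiset.mem_add.2 (Or.inl hu2)⟩
        rw [h5 σ hγσ, h5 τ hγτ]
      push Not at hu
      by_cases hστ : σ = τ
      · rw [hστ]
      have hγ0 : γ ≠ 0 := by
        rintro rfl
        rw [Multiset.card_zero] at hk
        omega
      obtain ⟨x, hxγ⟩ := Multiset.exists_mem_of_ne_zero hγ0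
      have hxF : x ∉ F := fun h5 => hu x h5 hxγ
      have hall : ∀ z ∈ γ, z = x := by
        intro z hz
        by_contra hzx
        have hzF : z ∉ F := fun h5 => hu z h5 hz
        apply hστ
        have h5 : ∀ σ : K.Cell, On σ.1 β → On σ.1 γ → ∀ t, t ∈ σ.1 ↔ t = x ∨ t = z ∨ t ∈ F := by
          intro σ hσ hγ
          obtain ⟨y, hyx, hyF, hy⟩ := two_out K hFc σ (hFσ σ hσ) (hγ x hxγ) hxF
          have : z = y := by
            rcases (hy z).1 (hγ z hz) with h6 | h6 | h6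
            · exact absurd h6 hzx
            · exact h6
            · exact absurd h6 hzF
          rw [this]; exact hy
        apply Subtype.ext
        ext t
        rw [h5 σ hσ hγσ t, h5 τ hτ hγτ t]
      have hγr : γ = Multiset.replicate (Multiset.card γ) x :=
        Multiset.eq_replicate.2 ⟨rfl, hall⟩
      have h6 : mon K.c γ = lin (K.c x) ^ Multiset.card γ := by
        conv_lhs => rw [hγr]
        rw [mon_replicate]
      have h7 : ∀ σ : K.Cell, On σ.1 β → On σ.1 γ →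
          h σ (mon K.c γ * q) = j x (mon K.c γ * q) := by
        intro σ hσ hγ
        refine mul_ext_mon K σ ?_ q
        intro δ hδ
        rw [← mon_add]
        refine hval σ hσ x (hγ x hxγ) hxF _ (on_add.2 ⟨hγ, hδ⟩) ?_
        rw [Multiset.count_add]
        have : Multiset.count x γ = Multiset.card γ := by
          conv_lhs => rw [hγr]
          rw [Multiset.count_replicate_self]
        omega
      rw [h7 σ hσ hγσ, h7 τ hτ hγτ]
    simp only [LinearMap.sub_apply]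
    linarith

end Pool.Agent.USP
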