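import Pool.Agent.USP.Geom
import Pool.Agent.USP.Core
import Pool.Agent.H84Exp.Smooth
import Pool.Agent.H84Exp.BOp

/-! # Polynomials on `R^s` and functionals on the symmetric algebra -/

namespace Pool.Agent.USP

open MvPolynomial Pool.Agent.H84Spl Pool.Agent.H84Exp

variable {s : ℕ}

/-- the symmetric algebra of `R^(s+1)` -/
abbrev TT (s : ℕ) := MvPolynomial (Option (Fin s)) ℝ

theorem lin_cc (x : Pt s) : lin (cc x) = (X none : TT s) + ∑ i, x i • (X (some i) : TT s) := by
  rw [lin_apply, Fintype.sum_option]
  simp [cc]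

/-- every functional gives a polynomial, with its derivatives -/
theorem poly_of_fun (k : ℕ) (φ : TT s →ₗ[ℝ] ℝ) : ∃ P : MvPolynomial (Fin s) ℝ,
    P.totalDegree ≤ k ∧ (∀ x : Pt s, eval x P = φ (lin (cc x) ^ k)) ∧
    ∀ i, ∀ x : Pt s, eval x (pderiv i P) = k * φ (X (some i) * lin (cc x) ^ (k - 1)) := by
  classical
  induction k generalizing φ with
  | zero =>
    refine ⟨C (φ 1), by simp, fun x => by simp, fun i x => by simp⟩
  | succ k ih =>
    obtain ⟨P0, hd0, he0, hp0⟩ := ih (φ.comp (LinearMap.mulLeft ℝ (X none)))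
    choose P hd he hp using fun i : Fin s => ih (φ.comp (LinearMap.mulLeft ℝ (X (some i))))
    have hsplit : ∀ (a : TT s) (x : Pt s) (n : ℕ), φ (a * lin (cc x) ^ (n + 1)) =
        φ (X none * (a * lin (cc x) ^ n)) + ∑ i, x i * φ (X (some i) * (a * lin (cc x) ^ n)) := by
      intro a x n
      have e1 : a * lin (cc x) ^ (n + 1) = X none * (a * lin (cc x) ^ n) +
          ∑ i, x i • (X (some i) * (a * lin (cc x) ^ n)) := by
        calc a * lin (cc x) ^ (n + 1) = (a * lin (cc x) ^ n) * lin (cc x) := by ring
          _ = (a * lin (cc x) ^ n) * ((X none : TT s) + ∑ i, x i • (X (some i) : TT s)) := by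
            rw [← lin_cc x]
          _ = _ := by
            rw [mul_add, Finset.mul_sum]
            congr 1
            · ring
            · refine Finset.sum_congr rfl fun i _ => ?_
              rw [mul_smul_comm, mul_comm]
      rw [e1, map_add, map_sum]
      congr 1
      refine Finset.sum_congr rfl fun i _ => ?_
      rw [map_smul, smul_eq_mul]
    refine ⟨P0 + ∑ i, X i * P i, ?_, ?_, ?_⟩
    · refine (totalDegree_add _ _).trans (max_le (by omega) ?_)
      refine totalDegree_finsetSum_le fun i _ => ?_
      refine (totalDegree_mul _ _).trans ?_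
      have := hd i
      rw [totalDegree_X]
      omega
    · intro x
      have h1 := hsplit 1 x k
      rw [one_mul, one_mul] at h1
      rw [h1, map_add, he0, map_sum]
      congr 1
      refine Finset.sum_congr rfl fun i _ => ?_
      rw [map_mul, eval_X, he]
      rfl
    · intro i x
      have h1 := he i x
      rw [map_add, map_sum, map_add, hp0, map_sum]
      have h2 : ∀ j, eval x (pderiv i (X j * P j)) =
          (if j = i then eval x (P j) else 0) + x j * eval x (pderiv i (P j)) := by
        intro j
        rw [pderiv_mul, map_add, map_mul, map_mul, eval_X]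
        congr 1
        by_cases hij : j = i
        · subst hij; simp
        · rw [pderiv_X_of_ne hij]; simp [hij]
      rw [Finset.sum_congr rfl fun j _ => h2 j, Finset.sum_add_distrib]
      have h3 : ∑ j, (if j = i then eval x (P j) else 0) = eval x (P i) := by
        rw [Finset.sum_ite_eq' Finset.univ i]; simp
      rw [h3, h1]
      simp only [hp, LinearMap.comp_apply, LinearMap.mulLeft_apply, Nat.add_sub_cancel]
      cases k with
      | zero => simp
      | succ k =>
        have h4 := hsplit (X (some i)) x k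
        have h5 : ∑ j, x j * (((k + 1 : ℕ) : ℝ) *
            φ (X (some j) * (X (some i) * lin (cc x) ^ k))) =
            ((k + 1 : ℕ) : ℝ) * ∑ j, x j * φ (X (some j) * (X (some i) * lin (cc x) ^ k)) := by
          rw [Finset.mul_sum]
          exact Finset.sum_congr rfl fun j _ => by ring
        simp only [Nat.add_sub_cancel]
        rw [h5, h4]
        push_cast
        ring

theorem rel_pderiv {k : ℕ} {φ : TT s →ₗ[ℝ] ℝ} {D : MvPolynomial (Fin s) ℝ}
    (h : ∀ x : Pt s, eval x D = φ (lin (cc x) ^ k)) (i : Fin s) (x : Pt s) :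
    eval x (pderiv i D) = k * φ (X (some i) * lin (cc x) ^ (k - 1)) := by
  obtain ⟨P, -, h1, h2⟩ := poly_of_fun k φ
  have : D = P := MvPolynomial.funext fun x => (h x).trans (h1 x).symm
  rw [this]; exact h2 i x

theorem lin_cc_sub (u x : Pt s) :
    (lin (cc u) : TT s) = lin (cc x) + ∑ i, (u i - x i) • (X (some i) : TT s) := by
  rw [lin_cc, lin_cc, add_assoc, ← Finset.sum_add_distrib]
  congr 1
  refine Finset.sum_congr rfl fun i _ => ?_
  rw [← add_smul]; congr 1; ring

theorem rel_BB {k : ℕ} {φ : TT s →ₗ[ℝ] ℝ} {D : MvPolynomial (Fin s) ℝ}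
    (h : ∀ x : Pt s, eval x D = φ (lin (cc x) ^ (k + 1))) (u x : Pt s) :
    eval x (BB (k + 1) u D) = φ (lin (cc u) * lin (cc x) ^ k) := by
  have hk : ((k + 1 : ℕ) : ℝ) ≠ 0 := by positivity
  unfold BB EE
  rw [map_add, map_mul, eval_C, map_sum, h x]
  have h1 : ∀ i, eval x ((C (u i) - X i) * pderiv i D) =
      ((k + 1 : ℕ) : ℝ) * ((u i - x i) * φ (X (some i) * lin (cc x) ^ k)) := by
    intro i
    rw [map_mul, map_sub, eval_C, eval_X, rel_pderiv h i x, Nat.add_sub_cancel]
    ring
  rw [Finset.sum_congr rfl fun i _ => h1 i, ← Finset.mul_sum, ← mul_assoc,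
    one_div, inv_mul_cancel₀ hk, one_mul]
  have h2 : lin (cc u) * lin (cc x) ^ k = lin (cc x) ^ (k + 1) +
      ∑ i, (u i - x i) • (X (some i) * lin (cc x) ^ k) := by
    calc lin (cc u) * lin (cc x) ^ k =
        (lin (cc x) + ∑ i, (u i - x i) • (X (some i) : TT s)) * lin (cc x) ^ k := by
          rw [← lin_cc_sub u x]
      _ = _ := by
        rw [add_mul, Finset.sum_mul]
        congr 1
        · ring
        · exact Finset.sum_congr rfl fun i _ => by rw [smul_mul_assoc]
  rw [h2, map_add, map_sum]
  congr 1
  exact Finset.sum_congr rfl fun i _ => by rw [map_smul, smul_eq_mul]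

theorem rel_Bc {L : List (Pt s)} : ∀ {k : ℕ} {φ : TT s →ₗ[ℝ] ℝ} {D : MvPolynomial (Fin s) ℝ},
    (∀ x : Pt s, eval x D = φ (lin (cc x) ^ k)) → L.length ≤ k → ∀ x : Pt s,
    eval x (Bc k L D) = φ ((L.map fun u => lin (cc u)).prod * lin (cc x) ^ (k - L.length)) := by
  induction L with
  | nil => intro k φ D h _ x; simp [Bc, h x]
  | cons u L ih =>
    intro k φ D h hL x
    obtain ⟨k, rfl⟩ : ∃ m, k = m + 1 := ⟨k - 1, by simp at hL; omega⟩
    have h1 := ih (k := k) (φ := φ.comp (LinearMap.mulLeft ℝ (lin (cc u)))) (D := BB (k + 1) u D)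
      (fun x => rel_BB h u x) (by simp at hL; omega) x
    simp only [Bc, Nat.add_sub_cancel]
    rw [h1]
    simp only [LinearMap.comp_apply, LinearMap.mulLeft_apply, List.map_cons, List.prod_cons,
      List.length_cons]
    rw [mul_assoc, Nat.add_sub_add_right]

/-- polarisation: a functional that kills all `k`-th powers of points kills all monomials of
degree `k` -/
theorem polar : ∀ (k : ℕ) (ψ : TT s →ₗ[ℝ] ℝ), (∀ x : Pt s, ψ (lin (cc x) ^ k) = 0) →
    ∀ m : Option (Fin s) →₀ ℕ, m.degree = k → ψ (monomial m 1) = 0 := by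
  classical
  intro k
  induction k with
  | zero =>
    intro ψ h m hm
    have h1 := h 0
    rw [pow_zero] at h1
    have : m = 0 := by
      ext i
      have := Finsupp.le_degree i m
      simp; omega
    subst this
    exact h1
  | succ k ih =>
    intro ψ h m hm
    have hsome : ∀ i, ∀ x : Pt s, ψ (X (some i) * lin (cc x) ^ k) = 0 := by
      intro i x
      have h1 := rel_pderiv (k := k + 1) (φ := ψ) (D := 0) (fun x => by rw [map_zero, h x]) i x
      rw [map_zero, map_zero, Nat.add_sub_cancel] at h1
      have hk : ((k + 1 : ℕ) : ℝ) ≠ 0 := by positivity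
      exact (mul_eq_zero.1 h1.symm).resolve_left hk
    have hnone : ∀ x : Pt s, ψ (X none * lin (cc x) ^ k) = 0 := by
      intro x
      have h1 := h x
      have e1 : lin (cc x) ^ (k + 1) = X none * lin (cc x) ^ k +
          ∑ i, x i • (X (some i) * lin (cc x) ^ k) := by
        calc lin (cc x) ^ (k + 1) = lin (cc x) ^ k * lin (cc x) := by ring
          _ = lin (cc x) ^ k * ((X none : TT s) + ∑ i, x i • (X (some i) : TT s)) := by
            rw [← lin_cc x]
          _ = _ := by
            rw [mul_add, Finset.mul_sum]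
            congr 1
            · ring
            · refine Finset.sum_congr rfl fun i _ => ?_
              rw [mul_smul_comm, mul_comm]
      rw [e1, map_add, map_sum, Finset.sum_eq_zero, add_zero] at h1
      · exact h1
      · intro i _
        rw [map_smul, hsome, smul_zero]
    have hall : ∀ o : Option (Fin s), ∀ x : Pt s, ψ (X o * lin (cc x) ^ k) = 0 := by
      intro o
      cases o with
      | none => exact hnone
      | some i => exact hsome i
    obtain ⟨o, ho⟩ : ∃ o, m o ≠ 0 := by
      by_contra hcon
      push Not at hcon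
      have : m = 0 := Finsupp.ext hcon
      rw [this] at hm
      simp at hm
    have e2 : m = Finsupp.single o 1 + (m - Finsupp.single o 1) := by
      rw [add_tsub_cancel_of_le]
      intro j
      by_cases hj : j = o
      · subst hj; simp; omega
      · simp [Finsupp.single_eq_of_ne hj]
    have hdeg : (m - Finsupp.single o 1).degree = k := by
      have := congrArg Finsupp.degree e2
      rw [map_add, Finsupp.degree_single] at this
      omega
    have h2 := ih (ψ.comp (LinearMap.mulLeft ℝ (X o))) (fun x => hall o x) _ hdeg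
    have e3 : (monomial m (1 : ℝ)) = X o * monomial (m - Finsupp.single o 1) 1 := by
      conv_lhs => rw [e2]
      rw [X, monomial_mul, one_mul]
    rw [e3]
    exact h2

/-- a functional of degree `k` -/
def HomK (k : ℕ) (φ : TT s →ₗ[ℝ] ℝ) : Prop := ∀ n, n ≠ k → ∀ p : TT s, p.IsHomogeneous n → φ p = 0

/-- every polynomial comes from a functional -/
theorem fun_of_poly {k : ℕ} {P : MvPolynomial (Fin s) ℝ} (hP : P.totalDegree ≤ k) :
    ∃ φ : TT s →ₗ[ℝ] ℝ, HomK k φ ∧ ∀ x : Pt s, eval x P = φ (lin (cc x) ^ k) := by
  classical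
  have hκ : ∀ m : Fin s →₀ ℕ, ∃ κ : Option (Fin s) →₀ ℕ, κ none = k - m.degree ∧
      ∀ i, κ (some i) = m i := by
    intro m
    exact ⟨Finsupp.optionElim (k - m.degree) m, by simp, by simp⟩
  choose κ hκ1 hκ2 using hκ
  have hκd : ∀ m : Fin s →₀ ℕ, m.degree ≤ k → (κ m).degree = k := by
    intro m hm
    rw [Finsupp.degree_eq_sum, Fintype.sum_option, hκ1]
    rw [Finset.sum_congr rfl fun i _ => hκ2 m i]
    have : m.degree = ∑ i, m i := Finsupp.degree_eq_sum m
    rw [← this]
    omega
  refine ⟨∑ m ∈ P.support, (coeff m P / ((κ m).multinomial : ℝ)) • lcoeff ℝ (κ m), ?_, ?_⟩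
  · intro n hn p hp
    rw [LinearMap.sum_apply]
    refine Finset.sum_eq_zero fun m hm => ?_
    have h1 : m.degree ≤ k := by
      have := le_totalDegree hm
      rw [Finsupp.degree]
      exact this.trans hP
    rw [LinearMap.smul_apply, lcoeff_apply, hp.coeff_eq_zero, smul_zero]
    rw [hκd m h1]
    exact fun h => hn h.symm
  · intro x
    rw [LinearMap.sum_apply, eval_eq']
    refine Finset.sum_congr rfl fun m hm => ?_
    have h1 : m.degree ≤ k := by
      have := le_totalDegree hm
      rw [Finsupp.degree]
      exact this.trans hP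
    rw [LinearMap.smul_apply, lcoeff_apply, lin_apply, coeff_linearCombination_X_pow_of_fintype,
      if_pos]
    · have h2 : ((κ m).multinomial : ℝ) ≠ 0 := by
        have : 0 < (κ m).multinomial := by
          rw [Finsupp.multinomial]
          exact Nat.multinomial_pos _ _
        positivity
      rw [Finsupp.prod_fintype _ _ (by intro i; simp), Fintype.prod_option]
      have h3 : ∏ i, cc x (some i) ^ κ m (some i) = ∏ i, x i ^ m i :=
        Finset.prod_congr rfl fun i _ => by rw [hκ2 m i]; rfl
      rw [h3]
      simp only [cc, Option.elim, one_pow, one_mul, smul_eq_mul]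
      field_simp
    · exact hκd m h1

end Pool.Agent.USP
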