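import Pool.Agent.USP.Wt
import Pool.Agent.USP.PadeG

/-! # The tie stage and the Padé stage -/

namespace Pool.Agent.USP

open MvPolynomial

variable {P ι : Type} [Fintype ι]

/-- the known multisets after the radii `Q` and the `a`-jets at the facets `G`, in the order `e`
of a ridge `F` -/
def UT (P : Type) (k t e a : ℕ) (Q : ℕ → ℕ) : Set (Multiset P) :=
  {β | β ∈ UQ P k Q ∨ ∃ F G : Finset P, F ⊆ G ∧ F.card = t + 1 ∧ G.card = t + 2 ∧
    k ≤ wt F β + e ∧ k < wt G β + a}

theorem up_UT (k t e a : ℕ) (Q : ℕ → ℕ) : Up (UT P k t e a Q) := by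
  rintro α β hle (h | ⟨F, G, h1, h2, h3, h4, h5⟩)
  · exact Or.inl (up_UQ k Q _ _ hle h)
  · exact Or.inr ⟨F, G, h1, h2, h3, h4.trans (Nat.add_le_add_right (wt_mono F hle) _),
      lt_of_lt_of_le h5 (Nat.add_le_add_right (wt_mono G hle) _)⟩

open Classical in
theorem wt_filter_of_subset {F G : Finset P} (h : F ⊆ G) (β : Multiset P) :
    wt F (β.filter (· ∈ G)) = wt F β := by
  rw [wt_eq_card_filter, wt_eq_card_filter, Multiset.filter_filter]
  congr 1
  refine Multiset.filter_congr fun x _ => ?_
  exact ⟨fun h => h.1, fun hx => ⟨hx, h hx⟩⟩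

theorem wt_toFinset [DecidableEq P] (β : Multiset P) : wt β.toFinset β = Multiset.card β :=
  wt_eq_card fun _ hx => Multiset.mem_toFinset.2 hx

theorem card_inter_lt [DecidableEq P] {A B : Finset P} (h : ¬ B ⊆ A) : (A ∩ B).card < B.card := by
  refine Finset.card_lt_card (Finset.ssubset_iff_subset_ne.2
    ⟨Finset.inter_subset_right, fun h' => h ?_⟩)
  rw [← h']; exact Finset.inter_subset_left

theorem card_inter_lt' [DecidableEq P] {A B : Finset P} (h : A.card = B.card) (hne : A ≠ B) :
    (A ∩ B).card < B.card := by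
  refine card_inter_lt fun h' => hne ?_
  exact (Finset.eq_of_subset_of_card_le h' h.le).symm

theorem tie_stage (K : Cpx P ι) {k r t e a : ℕ} {Q : ℕ → ℕ}
    (hQ0 : Q (t + 1) = e) (hbig : ∀ m, t + 2 ≤ m → Q m = 0)
    (hQ : ∀ m, m + 1 ≤ t → e + Q (m + 1) ≤ Q m) (hQt : 3 * r + 2 ≤ Q t)
    (h1 : 3 * r + 2 ≤ 2 * e) (h2 : e ≤ 2 * r) (ha : a + (3 * r + 2) ≤ 2 * e) :
    StepOK K k r (UT P k t e a Q) (UT P k t e (a + 1) Q) := by
  classical
  have hanti : ∀ x y, x ≤ y → y ≤ t + 1 → Q y ≤ Q x := fun x y hxy hy =>
    Q_anti (n := t + 1) (fun m hm => by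
      by_cases hm' : m + 1 ≤ t
      · have := hQ m hm'; omega
      · have : m = t := by omega
        subst this; omega) hxy hy
  obtain ⟨S, hS⟩ := exists_seeds K (k - a) (fun β => Multiset.card β + a = k ∧
    β.toFinset.card = t + 2 ∧ (∃ F ⊆ β.toFinset, F.card = t + 1 ∧ k ≤ wt F β + e) ∧
    β ∉ UT P k t e a Q)
  refine ⟨up_UT k t e a Q, a, S, ?_, ?_, ?_, ?_, ?_⟩
  · intro β hβ
    obtain ⟨h3, h4, h5, h6, h7⟩ := (hS β).1 hβ
    refine ⟨h5, ?_, h4⟩
    rintro rfl
    simp at h6
  · intro β₀ h0 β₁ h1' σ α hα hc hle0 hle1 hin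
    obtain ⟨-, -, hc0, hn0, ⟨F0, hF0, hF0c, hF0k⟩, -⟩ := (hS β₀).1 h0
    obtain ⟨-, -, hc1, hn1, ⟨F1, hF1, hF1c, hF1k⟩, -⟩ := (hS β₁).1 h1'
    have hsub : ∀ β : Multiset P, β ≤ α → Multiset.card β + a = k → β.toFinset.card = t + 2 →
        ∀ F ⊆ β.toFinset, F.card = t + 1 → k ≤ wt F β + e →
        wt β.toFinset α = Multiset.card β := by
      intro β hle hcβ hnβ F hF hFc hFk
      have h3 := wt_toFinset β
      have h4 := wt_mono β.toFinset hle
      have h6 := wt_mono F hle
      have h5 : ¬ k < wt β.toFinset α + a := fun h =>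
        hin (Or.inr ⟨F, β.toFinset, hF, hFc, hnβ, by omega, h⟩)
      omega
    have h3 := hsub β₀ hle0 hc0 hn0 F0 hF0 hF0c hF0k
    have h4 := hsub β₁ hle1 hc1 hn1 F1 hF1 hF1c hF1k
    by_cases hE : β₀.toFinset = β₁.toFinset
    · rw [eq_filter hle0 (fun x hx => Multiset.mem_toFinset.2 hx) h3.le,
        eq_filter hle1 (fun x hx => Multiset.mem_toFinset.2 hx) h4.le, hE]
    · exfalso
      apply hin
      left
      refine ⟨β₀.toFinset ∩ β₁.toFinset, ?_⟩
      have h5 := wt_inter_ge β₀.toFinset β₁.toFinset α
      have h6 := card_inter_lt' (hn0.trans hn1.symm) hE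
      have h7 := hanti _ (t + 1)
        (by omega : (β₀.toFinset ∩ β₁.toFinset).card ≤ t + 1) (by omega)
      omega
  · rintro σ β hβ (h | ⟨F, G, h3, h4, h5, h6, h7⟩)
    · exact Or.inl h
    · exact Or.inr ⟨F, G, h3, h4, h5, h6, by omega⟩
  · intro σ β hβ hβ'
    by_cases hin : β ∈ UT P k t e a Q
    · exact Or.inl hin
    right
    rcases hβ' with h | ⟨F, G, h3, h4, h5, h6, h7⟩
    · exact absurd (Or.inl h) hin
    have h8 : ¬ k < wt G β + a := fun h => hin (Or.inr ⟨F, G, h3, h4, h5, h6, h⟩)
    have h9 := wt_eq_card_filter G β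
    have hset : (β.filter (· ∈ G)).toFinset = G := by
      have hsub : (β.filter (· ∈ G)).toFinset ⊆ G := by
        intro x hx
        exact (Multiset.mem_filter.1 (Multiset.mem_toFinset.1 hx)).2
      refine Finset.eq_of_subset_of_card_le hsub ?_
      by_contra hlt
      apply hin
      left
      refine ⟨(β.filter (· ∈ G)).toFinset, ?_⟩
      have h10 := wt_toFinset (β.filter (· ∈ G))
      have h11 := wt_mono (β.filter (· ∈ G)).toFinset (Multiset.filter_le (· ∈ G) β)
      have h12 := hanti (β.filter (· ∈ G)).toFinset.card (t + 1) (by omega) (by omega)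
      omega
    refine ⟨β.filter (· ∈ G), (hS _).2 ⟨by omega, ⟨σ, hβ.mono (Multiset.filter_le _ _)⟩,
      by omega, by rw [hset]; exact h5, ⟨F, by rw [hset]; exact h3, h4, ?_⟩, ?_⟩,
      Multiset.filter_le _ _⟩
    · rw [wt_filter_of_subset h3]; exact h6
    · intro h
      exact hin (up_UT k t e a Q _ _ (Multiset.filter_le _ _) h)
  · intro φ hφ β hβ
    obtain ⟨-, -, hc, hn', ⟨F, hF, hFc, hFk⟩, hnin⟩ := (hS β).1 hβ
    have hwt := wt_toFinset β
    refine zero_g K (up_UT k t e a Q) hφ hc ?_ ?_
    · intro u hu
      right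
      refine ⟨F, β.toFinset, hF, hFc, hn', ?_, ?_⟩
      · exact hFk.trans (Nat.add_le_add_right (wt_mono F (Multiset.le_cons_self _ _)) _)
      · rw [← Multiset.singleton_add, wt_add, hwt]
        have : wt β.toFinset {u} = 1 := by
          rw [wt_eq_card (by intro x hx; rw [Multiset.mem_singleton.1 hx]; simpa using hu)]
          simp
        omega
    · intro σ hσ δ hδ hcδ hin
      by_contra hcon
      push Not at hcon
      have hδ0 : wt β.toFinset δ = 0 := wt_eq_zero fun x hx h =>
        hcon x (Multiset.mem_toFinset.1 h) hx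
      have hδsub : ∀ E ⊆ β.toFinset, wt E (β + δ) = wt E β := by
        intro E hE
        rw [wt_add, wt_eq_zero (α := δ), add_zero]
        intro x hx h
        exact hcon x (Multiset.mem_toFinset.1 (hE h)) hx
      have hwtG : wt β.toFinset (β + δ) = Multiset.card β := by
        rw [hδsub _ (Finset.Subset.refl _), hwt]
      have hcard : Multiset.card (β + δ) = k := by rw [Multiset.card_add]; omega
      rcases hin with ⟨E', hE'⟩ | ⟨F', G', h3, h4, h5, h6, h7⟩
      · have h1 := wt_inter_ge β.toFinset E' (β + δ)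
        have h2 := wt_le_card E' (β + δ)
        have hE'n : E'.card ≤ t + 1 := by
          by_contra h
          rw [hbig _ (by omega)] at hE'
          omega
        apply hnin
        left
        by_cases hsub : E' ⊆ β.toFinset
        · exact ⟨E', by rw [← hδsub E' hsub]; exact hE'⟩
        · refine ⟨β.toFinset ∩ E', ?_⟩
          rw [← hδsub _ Finset.inter_subset_left]
          have h4 := card_inter_lt hsub
          have h7 := hanti (β.toFinset ∩ E').card (E'.card - 1) (by omega) (by omega)
          have h6 : E'.card - 1 + 1 = E'.card := by omega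
          by_cases h8 : E'.card ≤ t
          · have h5 := hQ (E'.card - 1) (by omega)
            rw [h6] at h5
            omega
          · have h9 : E'.card = t + 1 := by omega
            rw [h9] at h7 hE'
            rw [hQ0] at hE'
            rw [Nat.add_sub_cancel] at h7
            omega
      · by_cases hG : β.toFinset = G'
        · apply hnin
          right
          refine ⟨F', G', h3, h4, h5, ?_, ?_⟩
          · rw [← hδsub F' (hG ▸ h3)]; exact h6
          · rw [← hδsub G' (hG ▸ Finset.Subset.refl _)]; exact h7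
        · apply hnin
          left
          refine ⟨β.toFinset ∩ G', ?_⟩
          rw [← hδsub _ Finset.inter_subset_left]
          have h8 := wt_inter_ge β.toFinset G' (β + δ)
          have h9 := card_inter_lt' (hn'.trans h5.symm) hG
          have h10 := hanti (β.toFinset ∩ G').card (t + 1) (by omega) (by omega)
          omega

open Classical in
theorem count_le_wt {E : Finset P} {x : P} (hx : x ∉ E) (α : Multiset P) :
    Multiset.count x α + wt E α ≤ Multiset.card α := by
  have h := wt_le_card (insert x E) α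
  have h2 : wt (insert x E) α = Multiset.count x α + wt E α := by
    unfold wt
    rw [Finset.sum_insert hx]
  omega

theorem pade_stage (K : Cpx P ι) {k r t e a : ℕ} {Q : ℕ → ℕ} (hι : Fintype.card ι = t + 3)
    (ht1 : 1 ≤ t)
    (hQ0 : Q (t + 1) = e) (hbig : ∀ m, t + 2 ≤ m → Q m = 0)
    (hQ : ∀ m, m + 1 ≤ t → e + Q (m + 1) ≤ Q m) (hQt : 3 * r + 2 ≤ Q t)
    (hQt1 : 2 * e < Q (t - 1))
    (h1 : 3 * r + 2 ≤ 2 * e) (h2 : e ≤ 2 * r) (ha : a + (3 * r + 1) = 2 * e) :
    StepOK K k r (UT P k t e a Q) (UQ P k fun m => if m = t + 1 then e + 1 else Q m) := by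
  classical
  have hanti : ∀ x y, x ≤ y → y ≤ t + 1 → Q y ≤ Q x := fun x y hxy hy =>
    Q_anti (n := t + 1) (fun m hm => by
      by_cases hm' : m + 1 ≤ t
      · have := hQ m hm'; omega
      · have : m = t := by omega
        subst this; omega) hxy hy
  obtain ⟨S, hS⟩ := exists_seeds K (k - e) (fun β => Multiset.card β + e = k ∧
    β.toFinset.card = t + 1 ∧ β ∉ UT P k t e a Q)
  refine ⟨up_UT k t e a Q, e, S, ?_, ?_, ?_, ?_, ?_⟩
  · intro β hβ
    obtain ⟨h3, h4, h5, h6, h7⟩ := (hS β).1 hβ
    refine ⟨h5, ?_, h4⟩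
    rintro rfl
    simp at h6
  · intro β₀ h0 β₁ h1' σ α hα hc hle0 hle1 hin
    obtain ⟨-, -, hc0, hn0, -⟩ := (hS β₀).1 h0
    obtain ⟨-, -, hc1, hn1, -⟩ := (hS β₁).1 h1'
    have hnQ : ∀ E : Finset P, ¬ k < wt E α + Q E.card := fun E h => hin (Or.inl ⟨E, h⟩)
    have hsub : ∀ β : Multiset P, β ≤ α → Multiset.card β + e = k → β.toFinset.card = t + 1 →
        wt β.toFinset α = Multiset.card β := by
      intro β hle hcβ hnβ
      have h3 := wt_toFinset β
      have h4 := wt_mono β.toFinset hle
      have h5 := hnQ β.toFinset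
      rw [hnβ, hQ0] at h5
      omega
    have h3 := hsub β₀ hle0 hc0 hn0
    have h4 := hsub β₁ hle1 hc1 hn1
    by_cases hE : β₀.toFinset = β₁.toFinset
    · rw [eq_filter hle0 (fun x hx => Multiset.mem_toFinset.2 hx) h3.le,
        eq_filter hle1 (fun x hx => Multiset.mem_toFinset.2 hx) h4.le, hE]
    · exfalso
      have h5 := wt_inter_ge β₀.toFinset β₁.toFinset α
      have h6 := card_inter_lt' (hn0.trans hn1.symm) hE
      have h8 := hnQ (β₀.toFinset ∩ β₁.toFinset)
      by_cases h9 : (β₀.toFinset ∩ β₁.toFinset).card ≤ t - 1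
      · have h7 := hanti _ (t - 1) h9 (by omega)
        omega
      · have h10 : (β₀.toFinset ∩ β₁.toFinset).card = t := by omega
        rw [h10] at h8
        have h11 := Finset.card_union_add_card_inter β₀.toFinset β₁.toFinset
        have h12 := wt_union_inter β₀.toFinset β₁.toFinset α
        apply hin
        right
        exact ⟨β₀.toFinset, β₀.toFinset ∪ β₁.toFinset, Finset.subset_union_left, hn0,
          by omega, by omega, by omega⟩
  · rintro σ β hβ (⟨E, hE⟩ | ⟨F, G, h3, h4, h5, h6, h7⟩)
    · refine ⟨E, lt_of_lt_of_le hE ?_⟩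
      show wt E β + Q E.card ≤ wt E β + (if E.card = t + 1 then e + 1 else Q E.card)
      by_cases h : E.card = t + 1
      · rw [if_pos h, h, hQ0]; omega
      · rw [if_neg h]
    · refine ⟨F, ?_⟩
      show k < wt F β + (if F.card = t + 1 then e + 1 else Q F.card)
      rw [if_pos h4]; omega
  · rintro σ β hβ ⟨E, hE⟩
    beta_reduce at hE
    by_cases hin : β ∈ UT P k t e a Q
    · exact Or.inl hin
    right
    by_cases h : E.card = t + 1
    swap
    · rw [if_neg h] at hE
      exact absurd (Or.inl ⟨E, hE⟩) hin
    rw [if_pos h] at hE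
    have h1 : ¬ k < wt E β + Q E.card := fun h => hin (Or.inl ⟨_, h⟩)
    rw [h, hQ0] at h1
    have h2 := wt_eq_card_filter E β
    refine ⟨β.filter (· ∈ E), (hS _).2 ⟨by omega, ⟨σ, hβ.mono (Multiset.filter_le _ _)⟩,
      by omega, ?_, ?_⟩, Multiset.filter_le _ _⟩
    · have hsub : (β.filter (· ∈ E)).toFinset ⊆ E := by
        intro x hx
        exact (Multiset.mem_filter.1 (Multiset.mem_toFinset.1 hx)).2
      by_contra hne
      have hlt : (β.filter (· ∈ E)).toFinset.card < t + 1 := by
        have := Finset.card_le_card hsub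
        omega
      apply hin
      left
      refine ⟨(β.filter (· ∈ E)).toFinset, ?_⟩
      have h3 := wt_toFinset (β.filter (· ∈ E))
      have h4 := wt_mono (β.filter (· ∈ E)).toFinset (Multiset.filter_le (· ∈ E) β)
      have h5 := hanti _ t (by omega : (β.filter (· ∈ E)).toFinset.card ≤ t) (by omega)
      omega
    · intro h3
      exact hin (up_UT k t e a Q _ _ (Multiset.filter_le _ _) h3)
  · intro φ hφ β hβ
    obtain ⟨-, -, hc, hn', hnin⟩ := (hS β).1 hβ
    have hwt := wt_toFinset β
    have hnQ : ∀ E : Finset P, ¬ k < wt E β + Q E.card := fun E h => hnin (Or.inl ⟨E, h⟩)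
    refine pade_g K (up_UT k t e a Q) hφ hc ?_ (F := β.toFinset)
      (fun x => Multiset.mem_toFinset) (by omega) h1 h2 ?_ ?_
    · intro u hu
      left
      refine ⟨β.toFinset, ?_⟩
      rw [← Multiset.singleton_add, wt_add, hwt, hn', hQ0]
      have : wt β.toFinset {u} = 1 := by
        rw [wt_eq_card (by intro x hx; rw [Multiset.mem_singleton.1 hx]; simpa using hu)]
        simp
      omega
    · intro σ hσ δ hδ hcδ hin
      by_cases hcon : ∃ u ∈ β, u ∈ δ
      · exact Or.inl hcon
      right
      push Not at hcon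
      have hδ0 : wt β.toFinset δ = 0 := wt_eq_zero fun x hx h =>
        hcon x (Multiset.mem_toFinset.1 h) hx
      have hδsub : ∀ E ⊆ β.toFinset, wt E (β + δ) = wt E β := by
        intro E hE
        rw [wt_add, wt_eq_zero (α := δ), add_zero]
        intro x hx h
        exact hcon x (Multiset.mem_toFinset.1 (hE h)) hx
      have hwtG : wt β.toFinset (β + δ) = Multiset.card β := by
        rw [hδsub _ (Finset.Subset.refl _), hwt]
      have hcard : Multiset.card (β + δ) = k := by rw [Multiset.card_add]; omega
      have hFσ : β.toFinset ⊆ σ.1 := fun u hu => hσ u (Multiset.mem_toFinset.1 hu)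
      have hFc : β.toFinset.card + 2 = Fintype.card ι := by omega
      rcases hin with ⟨E', hE'⟩ | ⟨F', G', h3, h4, h5, h6, h7⟩
      · have h3 := wt_inter_ge β.toFinset E' (β + δ)
        have h4 := wt_le_card E' (β + δ)
        have hE'n : E'.card ≤ t + 1 := by
          by_contra h
          rw [hbig _ (by omega)] at hE'
          omega
        by_cases hsub : E' ⊆ β.toFinset
        · exact absurd (by rw [hδsub E' hsub] at hE'; exact hE') (hnQ E')
        have h5 := card_inter_lt hsub
        have h6 := hnQ (β.toFinset ∩ E')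
        rw [← hδsub _ Finset.inter_subset_left] at h6
        by_cases h8 : E'.card ≤ t
        · exfalso
          have h9 := hQ (E'.card - 1) (by omega)
          have h10 : E'.card - 1 + 1 = E'.card := by omega
          rw [h10] at h9
          have h7 := hanti (β.toFinset ∩ E').card (E'.card - 1) (by omega) (by omega)
          omega
        have h9 : E'.card = t + 1 := by omega
        rw [h9, hQ0] at hE'
        by_cases h10 : (β.toFinset ∩ E').card ≤ t - 1
        · exfalso
          have h11 := hanti _ (t - 1) h10 (by omega)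
          omega
        have h11 : (β.toFinset ∩ E').card = t := by omega
        rw [h11] at h6
        obtain ⟨x, hx, hxF⟩ := Finset.not_subset.1 hsub
        have h12 : E' = insert x (β.toFinset ∩ E') := by
          symm
          refine Finset.eq_of_subset_of_card_le ?_ ?_
          · intro z hz
            rcases Finset.mem_insert.1 hz with rfl | hz
            · exact hx
            · exact (Finset.mem_inter.1 hz).2
          · rw [Finset.card_insert_of_notMem (fun h => hxF (Finset.mem_inter.1 h).1)]
            omega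
        have h13 : wt E' (β + δ) = Multiset.count x (β + δ) + wt (β.toFinset ∩ E') (β + δ) := by
          conv_lhs => rw [h12]
          unfold wt
          rw [Finset.sum_insert (fun h => hxF (Finset.mem_inter.1 h).1)]
        have h14 : Multiset.count x (β + δ) = Multiset.count x δ := by
          rw [Multiset.count_add, Multiset.count_eq_zero.2
            (fun h => hxF (Multiset.mem_toFinset.2 h)), zero_add]
        have hxδ : x ∈ δ := Multiset.count_pos.1 (by omega)
        obtain ⟨y, hyx, hyF, hy⟩ := two_out K hFc σ hFσ (hδ x hxδ) hxF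
        refine ⟨y, (hy y).2 (Or.inr (Or.inl rfl)), hyF, ?_⟩
        intro n hn
        have h15 := Multiset.le_count_iff_replicate_le.2 hn
        have h16 : Multiset.count y δ + Multiset.count x δ ≤ Multiset.card δ := by
          have := count_le_wt (E := {x}) (x := y) (by simpa using hyx) δ
          have e1 : wt {x} δ = Multiset.count x δ := by simp [wt]
          rw [e1] at this
          exact this
        omega
      · obtain ⟨x, hx, hxG⟩ : ∃ x ∈ σ.1, x ∉ G' := by
          by_contra hno
          push Not at hno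
          have := Finset.card_le_card (s := σ.1) (t := G') hno
          rw [K.card_eq σ.1 σ.2] at this
          omega
        have h8 := count_le_wt hxG (β + δ)
        by_cases hxF : x ∈ β.toFinset
        · exfalso
          have h9 : wt β.toFinset β = Multiset.count x β + wt (β.toFinset.erase x) β := by
            unfold wt
            exact (Finset.add_sum_erase β.toFinset (fun v => Multiset.count v β) hxF).symm
          have h10 := hnQ (β.toFinset.erase x)
          rw [Finset.card_erase_of_mem hxF, hn', Nat.add_sub_cancel] at h10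
          rw [Multiset.count_add] at h8
          omega
        · refine ⟨x, hx, hxF, fun n hn => ?_⟩
          have h9 := Multiset.le_count_iff_replicate_le.2 hn
          rw [Multiset.count_add] at h8
          omega
    · intro σ hσ x hx hxF
      right
      refine ⟨β.toFinset, insert x β.toFinset, Finset.subset_insert _ _, hn', ?_, ?_, ?_⟩
      · rw [Finset.card_insert_of_notMem hxF]; omega
      · rw [wt_add]; omega
      · have h3 : wt (insert x β.toFinset) (β + Multiset.replicate (3 * r + 2 - e) x) =
            Multiset.card (β + Multiset.replicate (3 * r + 2 - e) x) := by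
          refine wt_eq_card fun z hz => ?_
          rcases Multiset.mem_add.1 hz with hz | hz
          · exact Finset.mem_insert_of_mem (Multiset.mem_toFinset.2 hz)
          · rw [Multiset.eq_of_mem_replicate hz]; exact Finset.mem_insert_self _ _
        rw [h3, Multiset.card_add, Multiset.card_replicate]
        omega

end Pool.Agent.USP
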