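import Pool.Agent.USP.Exist

/-! # The elementary step and its consequences for `Good` -/

namespace Pool.Agent.USP

open MvPolynomial

variable {P ι : Type} [Fintype ι]

/-- compare two functionals after multiplication by a fixed element, on monomials -/
theorem mul_ext_mon (K : Cpx P ι) (σ : K.Cell) {M : Type} [AddCommGroup M] [Module ℝ M]
    {φ ψ : MvPolynomial ι ℝ →ₗ[ℝ] M}
    {a b : MvPolynomial ι ℝ}
    (h : ∀ δ, On σ.1 δ → φ (a * mon K.c δ) = ψ (b * mon K.c δ)) (q : MvPolynomial ι ℝ) :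
    φ (a * q) = ψ (b * q) :=
  forall_of_mon K σ (φ := φ.comp (LinearMap.mulLeft ℝ a)) (ψ := ψ.comp (LinearMap.mulLeft ℝ b))
    (by intro δ hδ; simpa using h δ hδ) q

theorem step (K : Cpx P ι) {k r : ℕ} {U : Set (Multiset P)} (hU : Up U) {e : ℕ}
    {S : Finset (Multiset P)} (hcard : ∀ β ∈ S, Multiset.card β + e = k)
    (huniq : ∀ β₀ ∈ S, ∀ β₁ ∈ S, ∀ σ : K.Cell, ∀ α, On σ.1 α → Multiset.card α = k → β₀ ≤ α →
      β₁ ≤ α → α ∉ U → β₀ = β₁)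
    {φ : K.Fam} (hφ : φ ∈ PS K k r U) (g : Multiset P → K.Fam)
    (gH : ∀ β ∈ S, ∀ σ : K.Cell, On σ.1 β → ∀ δ, On σ.1 δ → Multiset.card δ ≠ e →
      g β σ (mon K.c δ) = 0)
    (gA : ∀ β ∈ S, ∀ σ : K.Cell, On σ.1 β → ∀ δ, On σ.1 δ → β + δ ∈ U → g β σ (mon K.c δ) = 0)
    (gB : ∀ β ∈ S, ∀ σ τ : K.Cell, On σ.1 β → On τ.1 β → ∀ γ, On σ.1 γ → On τ.1 γ →
      k ≤ Multiset.card β + Multiset.card γ + r → ∀ q,
      φ σ (mon K.c (β + γ) * q) - g β σ (mon K.c γ * q) =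
        φ τ (mon K.c (β + γ) * q) - g β τ (mon K.c γ * q)) :
    ∃ φ' ∈ PS K k r (U ∪ {β | ∃ β₀ ∈ S, β₀ ≤ β}),
      (∀ σ : K.Cell, ∀ α, On σ.1 α → α ∈ U → φ' σ (mon K.c α) = φ σ (mon K.c α)) ∧
      ∀ σ : K.Cell, φ σ = 0 → (∀ β ∈ S, On σ.1 β → g β σ = 0) → φ' σ = 0 := by
  classical
  obtain ⟨hφ1, hφ2⟩ := hφ
  choose ψ hψ using fun σ : K.Cell => exists_fun K σ
    (fun δ => ∑ β ∈ S.filter (· ≤ δ), g β σ (mon K.c (δ - β)))
  have hψU : ∀ σ : K.Cell, ∀ δ, On σ.1 δ → δ ∈ U → ψ σ (mon K.c δ) = 0 := by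
    intro σ δ hδ hδU
    rw [hψ σ δ hδ]
    refine Finset.sum_eq_zero fun β hβ => ?_
    obtain ⟨hβS, hβ⟩ := Finset.mem_filter.1 hβ
    refine gA β hβS σ (hδ.mono hβ) (δ - β) (hδ.mono (Multiset.sub_le_self _ _)) ?_
    rwa [add_tsub_cancel_of_le hβ]
  have hψk : ∀ σ : K.Cell, ∀ δ, On σ.1 δ → Multiset.card δ ≠ k → ψ σ (mon K.c δ) = 0 := by
    intro σ δ hδ hδk
    rw [hψ σ δ hδ]
    refine Finset.sum_eq_zero fun β hβ => ?_
    obtain ⟨hβS, hβ⟩ := Finset.mem_filter.1 hβ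
    refine gH β hβS σ (hδ.mono hβ) (δ - β) (hδ.mono (Multiset.sub_le_self _ _)) ?_
    have h1 := hcard β hβS
    have h2 := Multiset.card_le_card hβ
    rw [Multiset.card_sub hβ]
    omega
  have hψ1 : ∀ σ : K.Cell, ∀ β ∈ S, On σ.1 β → ∀ q, ψ σ (mon K.c β * q) = g β σ q := by
    intro σ β hβS hβ q
    have key := mul_ext_mon K σ (φ := ψ σ) (ψ := g β σ) (a := mon K.c β) (b := 1) ?_ q
    · rw [key, one_mul]
    · intro δ hδ
      rw [one_mul, ← mon_add]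
      have hon : On σ.1 (β + δ) := on_add.2 ⟨hβ, hδ⟩
      by_cases hc : Multiset.card (β + δ) = k
      · by_cases hin : β + δ ∈ U
        · rw [hψU σ _ hon hin, gA β hβS σ hβ δ hδ hin]
        · rw [hψ σ _ hon, Finset.sum_eq_single β]
          · rw [add_tsub_cancel_left]
          · intro β' hβ' hne
            obtain ⟨hβ'S, hβ'⟩ := Finset.mem_filter.1 hβ'
            exact absurd (huniq β' hβ'S β hβS σ (β + δ) hon hc hβ' (Multiset.le_add_right _ _) hin)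
              hne
          · intro hnot
            exact (hnot (Finset.mem_filter.2 ⟨hβS, Multiset.le_add_right β δ⟩)).elim
      · rw [hψk σ _ hon hc, gH β hβS σ hβ δ hδ]
        have h1 := hcard β hβS
        rw [Multiset.card_add] at hc
        omega
  have hψ2 : ∀ σ : K.Cell, ∀ β, On σ.1 β → β ∈ U → ∀ q, ψ σ (mon K.c β * q) = 0 := by
    intro σ β hβ hβU q
    have key := mul_ext_mon K σ (φ := ψ σ) (ψ := 0) (a := mon K.c β) (b := 1) ?_ q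
    · rw [key]; simp
    · intro δ hδ
      rw [← mon_add, hψU σ _ (on_add.2 ⟨hβ, hδ⟩) (hU _ _ (Multiset.le_add_right _ _) hβU)]
      simp
  refine ⟨fun σ => φ σ - ψ σ, ⟨?_, ?_⟩, ?_, ?_⟩
  · intro σ α hα hk
    rw [LinearMap.sub_apply, hφ1 σ α hα hk, hψk σ α hα hk, sub_zero]
  · intro σ τ β hσ hτ hβ hk q
    simp only [LinearMap.sub_apply]
    by_cases hβU : β ∈ U
    · rw [hψ2 σ β hσ hβU, hψ2 τ β hτ hβU, hφ2 σ τ β hσ hτ hβU hk q]
    · obtain ⟨β₀, hβ₀S, hβ₀⟩ : ∃ β₀ ∈ S, β₀ ≤ β := hβ.resolve_left hβU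
      obtain ⟨γ, rfl⟩ := Multiset.le_iff_exists_add.1 hβ₀
      obtain ⟨hσ1, hσ2⟩ := on_add.1 hσ
      obtain ⟨hτ1, hτ2⟩ := on_add.1 hτ
      have e1 : ∀ p, mon K.c (β₀ + γ) * p = mon K.c β₀ * (mon K.c γ * p) := by
        intro p; rw [mon_add, mul_assoc]
      have h1 := gB β₀ hβ₀S σ τ hσ1 hτ1 γ hσ2 hτ2 (by rwa [Multiset.card_add] at hk) q
      rw [e1 q, hψ1 σ β₀ hβ₀S hσ1, hψ1 τ β₀ hβ₀S hτ1, ← e1 q]
      exact h1
  · intro σ α hα hαU
    rw [LinearMap.sub_apply, hψU σ α hα hαU, sub_zero]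
  · intro σ h0 hg
    have : ψ σ = 0 := by
      refine fun_ext_mon K σ fun δ hδ => ?_
      rw [hψ σ δ hδ, LinearMap.zero_apply]
      refine Finset.sum_eq_zero fun β hβ => ?_
      obtain ⟨hβS, hβ⟩ := Finset.mem_filter.1 hβ
      rw [hg β hβS (hδ.mono hβ), LinearMap.zero_apply]
    show φ σ - ψ σ = 0
    rw [h0, this, sub_zero]

theorem subset_Nb (K : Cpx P ι) (Ξ : Set K.Cell) : Ξ ⊆ Nb K Ξ := fun _ h => Or.inl h

theorem Nb_mono (K : Cpx P ι) {Ξ Ξ' : Set K.Cell} (h : Ξ ⊆ Ξ') : Nb K Ξ ⊆ Nb K Ξ' := by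
  rintro σ (hσ | ⟨τ, hτ, v, hv⟩)
  · exact Or.inl (h hσ)
  · exact Or.inr ⟨τ, h hτ, v, hv⟩

theorem Nb_iter_mono (K : Cpx P ι) (N : ℕ) {Ξ Ξ' : Set K.Cell} (h : Ξ ⊆ Ξ') :
    (Nb K)^[N] Ξ ⊆ (Nb K)^[N] Ξ' := by
  induction N generalizing Ξ Ξ' with
  | zero => exact h
  | succ N ih =>
    rw [Function.iterate_succ_apply, Function.iterate_succ_apply]
    exact ih (Nb_mono K h)

theorem Sup.mono {K : Cpx P ι} {Ξ Ξ' : Set K.Cell} (h : Ξ ⊆ Ξ') {φ : K.Fam}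
    (hφ : Sup K Ξ φ) : Sup K Ξ' φ := fun σ hσ => hφ σ fun h' => hσ (h h')

theorem PS_mono (K : Cpx P ι) {k r : ℕ} {U U' : Set (Multiset P)}
    (h : ∀ σ : K.Cell, ∀ β, On σ.1 β → β ∈ U' → β ∈ U) {φ : K.Fam} (hφ : φ ∈ PS K k r U) :
    φ ∈ PS K k r U' :=
  ⟨hφ.1, fun σ τ β hσ hτ hβ hk q => hφ.2 σ τ β hσ hτ (h σ β hσ hβ) hk q⟩

theorem good_step (K : Cpx P ι) {k r : ℕ} {U U' : Set (Multiset P)} {N : ℕ}
    (hstep : StepOK K k r U U') (hgood : Good K k r U' N) : Good K k r U (N + 1) := by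
  classical
  obtain ⟨hU, e, S, hS, huniq, hUU', hcov, hg⟩ := hstep
  obtain ⟨hext, hdec⟩ := hgood
  have hext' : ∀ φ ∈ PS K k r U, ∀ Ξ, Sup K Ξ φ → ∃ φ' ∈ PS K k r Set.univ,
      (∀ σ : K.Cell, ∀ α, On σ.1 α → α ∈ U → φ' σ (mon K.c α) = φ σ (mon K.c α)) ∧
      Sup K ((Nb K)^[N + 1] Ξ) φ' := by
    intro φ hφ Ξ hΞ
    -- choose the `g`'s, zero if all cells around the seed vanish
    have hg' : ∀ β : Multiset P, ∃ g : K.Fam, β ∈ S →
      (∀ σ : K.Cell, On σ.1 β → ∀ δ, On σ.1 δ → Multiset.card δ ≠ e → g σ (mon K.c δ) = 0) ∧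
      (∀ σ : K.Cell, On σ.1 β → ∀ δ, On σ.1 δ → β + δ ∈ U → g σ (mon K.c δ) = 0) ∧
      (∀ σ τ : K.Cell, On σ.1 β → On τ.1 β → ∀ γ, On σ.1 γ → On τ.1 γ →
        k ≤ Multiset.card β + Multiset.card γ + r → ∀ q,
        φ σ (mon K.c (β + γ) * q) - g σ (mon K.c γ * q) =
          φ τ (mon K.c (β + γ) * q) - g τ (mon K.c γ * q)) ∧
      ((∀ σ : K.Cell, On σ.1 β → φ σ = 0) → g = 0) := by
      intro β
      by_cases hβ : β ∈ S
      · by_cases hz : ∀ σ : K.Cell, On σ.1 β → φ σ = 0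
        · refine ⟨0, fun _ => ⟨?_, ?_, ?_, fun _ => rfl⟩⟩
          · intro σ _ δ _ _; simp
          · intro σ _ δ _ _; simp
          · intro σ τ hσ hτ γ _ _ _ q
            rw [hz σ hσ, hz τ hτ]; simp
        · obtain ⟨g, h1, h2, h3⟩ := hg φ hφ β hβ
          exact ⟨g, fun _ => ⟨h1, h2, h3, fun h => absurd h hz⟩⟩
      · exact ⟨0, fun h => absurd h hβ⟩
    choose g hg' using hg'
    obtain ⟨φ₁, hφ₁, hagree, hloc⟩ := step K hU (fun β hβ => (hS β hβ).1) huniq hφ g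
      (fun β hβ => (hg' β hβ).1) (fun β hβ => (hg' β hβ).2.1) (fun β hβ => (hg' β hβ).2.2.1)
    have hφ₁' : φ₁ ∈ PS K k r U' := by
      refine PS_mono K ?_ hφ₁
      intro σ β hβ hβU'
      rcases hcov σ β hβ hβU' with h | ⟨β₀, h1, h2⟩
      · exact Or.inl h
      · exact Or.inr ⟨β₀, h1, h2⟩
    have hsup : Sup K (Nb K Ξ) φ₁ := by
      intro σ hσ
      refine hloc σ (hΞ σ fun h => hσ (Or.inl h)) ?_
      intro β hβ hσβ
      have h0 : g β = 0 := by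
        refine (hg' β hβ).2.2.2 ?_
        intro τ hτβ
        refine hΞ τ fun hτ => hσ (Or.inr ⟨τ, hτ, ?_⟩)
        obtain ⟨v, hv⟩ := Multiset.exists_mem_of_ne_zero (hS β hβ).2.1
        exact ⟨v, hσβ v hv, hτβ v hv⟩
      rw [h0]; rfl
    obtain ⟨φ₂, hφ₂, hag2, hsup2⟩ := hext φ₁ hφ₁' _ hsup
    refine ⟨φ₂, hφ₂, ?_, ?_⟩
    · intro σ α hα hαU
      rw [hag2 σ α hα (hUU' σ α hα hαU), hagree σ α hα hαU]
    · rw [Function.iterate_succ_apply]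
      exact hsup2
  refine ⟨hext', ?_⟩
  intro φ hφ hvan
  -- the parts of `φ` at the seeds
  have hpart : ∀ β : Multiset P, ∃ ψ : K.Fam, β ∈ S →
      (ψ ∈ PS K k r Set.univ ∧ (∃ v, (∃ σ : K.Cell, v ∈ σ.1) ∧
        Sup K ((Nb K)^[N] {σ | v ∈ σ.1}) ψ)) ∧
      ∀ σ : K.Cell, ∀ α, On σ.1 α → α ∈ U' → ψ σ (mon K.c α) =
        if β ≤ α then φ σ (mon K.c α) else 0 := by
    intro β
    by_cases hβ : β ∈ S
    swap
    · exact ⟨0, fun h => absurd h hβ⟩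
    choose χ hχ using fun σ : K.Cell => exists_fun K σ
      (fun δ => if β ≤ δ then φ σ (mon K.c δ) else 0)
    have hχU : ∀ σ : K.Cell, ∀ δ, On σ.1 δ → δ ∈ U → χ σ (mon K.c δ) = 0 := by
      intro σ δ hδ hδU
      rw [hχ σ δ hδ, hvan σ δ hδ hδU]
      simp
    have hχk : ∀ σ : K.Cell, ∀ δ, On σ.1 δ → Multiset.card δ ≠ k → χ σ (mon K.c δ) = 0 := by
      intro σ δ hδ hδk
      rw [hχ σ δ hδ, hφ.1 σ δ hδ hδk]
      simp
    have hχPS : χ ∈ PS K k r U' := by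
      refine ⟨hχk, ?_⟩
      intro σ τ α hσ hτ hαU' hk q
      by_cases hβα : β ≤ α
      · have h1 : ∀ σ : K.Cell, On σ.1 α → ∀ q, χ σ (mon K.c α * q) = φ σ (mon K.c α * q) := by
          intro σ hσ q
          refine mul_ext_mon K σ ?_ q
          intro δ hδ
          rw [← mon_add, hχ σ _ (on_add.2 ⟨hσ, hδ⟩),
            if_pos (hβα.trans (Multiset.le_add_right _ _))]
        rw [h1 σ hσ, h1 τ hτ]
        exact hφ.2 σ τ α hσ hτ trivial hk q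
      · have h1 : ∀ σ : K.Cell, On σ.1 α → ∀ q, χ σ (mon K.c α * q) = 0 := by
          intro σ hσ q
          have key := mul_ext_mon K σ (φ := χ σ) (ψ := 0) (a := mon K.c α) (b := 1) ?_ q
          · rw [key]; simp
          · intro δ hδ
            rw [← mon_add, LinearMap.zero_apply]
            have hon : On σ.1 (α + δ) := on_add.2 ⟨hσ, hδ⟩
            by_cases hin : α + δ ∈ U
            · exact hχU σ _ hon hin
            by_cases hc : Multiset.card (α + δ) = k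
            swap
            · exact hχk σ _ hon hc
            rw [hχ σ _ hon]
            rcases hcov σ α hσ hαU' with h | ⟨β₁, hβ₁S, hβ₁⟩
            · exact absurd (hU _ _ (Multiset.le_add_right _ _) h) hin
            · rw [if_neg]
              intro hle
              have := huniq β hβ β₁ hβ₁S σ (α + δ) hon hc hle
                (hβ₁.trans (Multiset.le_add_right _ _)) hin
              exact hβα (this ▸ hβ₁)
        rw [h1 σ hσ, h1 τ hτ]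
    obtain ⟨v, hv⟩ := Multiset.exists_mem_of_ne_zero (hS β hβ).2.1
    have hχsup : Sup K {σ | v ∈ σ.1} χ := by
      intro σ hσ
      refine fun_ext_mon K σ fun δ hδ => ?_
      rw [hχ σ δ hδ, if_neg, LinearMap.zero_apply]
      intro hle
      exact hσ (hδ v (Multiset.mem_of_le hle hv))
    obtain ⟨ψ, hψ, hag, hsup⟩ := hext χ hχPS _ hχsup
    refine ⟨ψ, fun _ => ⟨⟨hψ, v, ?_, hsup⟩, ?_⟩⟩
    · obtain ⟨σ, hσ⟩ := (hS β hβ).2.2
      exact ⟨σ, hσ v hv⟩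
    · intro σ α hα hαU'
      rw [hag σ α hα hαU', hχ σ α hα]
  choose ψ hψ using hpart
  have hmono : ∀ φ : K.Fam, φ ∈ Submodule.span ℝ {ψ | ψ ∈ PS K k r Set.univ ∧
        ∃ v, (∃ σ : K.Cell, v ∈ σ.1) ∧ Sup K ((Nb K)^[N] {σ | v ∈ σ.1}) ψ} →
      φ ∈ Submodule.span ℝ {ψ | ψ ∈ PS K k r Set.univ ∧
        ∃ v, (∃ σ : K.Cell, v ∈ σ.1) ∧ Sup K ((Nb K)^[N + 1] {σ | v ∈ σ.1}) ψ} := by
    intro φ hφ
    refine Submodule.span_mono ?_ hφ
    rintro ψ ⟨h1, v, h2, h3⟩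
    refine ⟨h1, v, h2, h3.mono ?_⟩
    rw [Function.iterate_succ_apply]
    exact Nb_iter_mono K N (subset_Nb K _)
  apply hmono
  have hrest : φ - ∑ β ∈ S, ψ β ∈ PS K k r Set.univ :=
    Submodule.sub_mem _ hφ (Submodule.sum_mem _ fun β hβ => (hψ β hβ).1.1)
  have hsum : ∀ σ : K.Cell, ∀ p, (∑ β ∈ S, ψ β) σ p = ∑ β ∈ S, ψ β σ p := by
    intro σ p
    rw [Finset.sum_apply, LinearMap.sum_apply]
  have hrest2 := hdec (φ - ∑ β ∈ S, ψ β) hrest (by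
    intro σ α hα hαU'
    rw [Pi.sub_apply, LinearMap.sub_apply, hsum]
    rw [Finset.sum_congr rfl fun β hβ => (hψ β hβ).2 σ α hα hαU']
    by_cases hin : α ∈ U
    · rw [hvan σ α hα hin]; simp
    by_cases hc : Multiset.card α = k
    swap
    · rw [hφ.1 σ α hα hc]; simp
    rcases hcov σ α hα hαU' with h | ⟨β₁, hβ₁S, hβ₁⟩
    · exact absurd h hin
    · rw [Finset.sum_eq_single β₁]
      · rw [if_pos hβ₁, sub_self]
      · intro β hβ hne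
        rw [if_neg]
        intro hle
        exact hne (huniq β hβ β₁ hβ₁S σ α hα hc hle hβ₁ hin)
      · intro h; exact absurd hβ₁S h)
  have : φ = (φ - ∑ β ∈ S, ψ β) + ∑ β ∈ S, ψ β := by abel
  rw [this]
  refine Submodule.add_mem _ hrest2 (Submodule.sum_mem _ fun β hβ => Submodule.subset_span ?_)
  exact (hψ β hβ).1

end Pool.Agent.USP
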