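import Pool.Agent.USP.Zero

/-! # Weights of multisets on finite sets, and the zero stage -/

namespace Pool.Agent.USP

open MvPolynomial

variable {P ι : Type} [Fintype ι]

open Classical in
/-- number of elements of `α` (with multiplicity) in `E` -/
noncomputable def wt (E : Finset P) (α : Multiset P) : ℕ := ∑ v ∈ E, Multiset.count v α

theorem wt_add (E : Finset P) (α β : Multiset P) : wt E (α + β) = wt E α + wt E β := by
  classical
  simp [wt, Finset.sum_add_distrib]

theorem wt_mono_left {E E' : Finset P} (h : E ⊆ E') (α : Multiset P) : wt E α ≤ wt E' α :=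
  Finset.sum_le_sum_of_subset h

theorem wt_mono (E : Finset P) {α β : Multiset P} (h : α ≤ β) : wt E α ≤ wt E β := by
  classical
  exact Finset.sum_le_sum fun v _ => Multiset.count_le_of_le v h

open Classical in
theorem wt_eq_card_filter (E : Finset P) (α : Multiset P) :
    wt E α = Multiset.card (α.filter (· ∈ E)) := by
  induction α using Multiset.induction_on with
  | empty => simp [wt]
  | cons a α ih =>
    rw [← Multiset.singleton_add, wt_add, Multiset.filter_add, Multiset.card_add, ih]
    congr 1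
    by_cases ha : a ∈ E
    · rw [Multiset.filter_singleton, if_pos ha, Multiset.card_singleton, wt,
        Finset.sum_eq_single a]
      · simp
      · intro b _ hb; simp [hb]
      · intro h; exact absurd ha h
    · rw [Multiset.filter_singleton, if_neg ha, wt]
      refine Finset.sum_eq_zero fun b hb => ?_
      have : b ≠ a := fun h => ha (h ▸ hb)
      simp [this]

theorem wt_le_card (E : Finset P) (α : Multiset P) : wt E α ≤ Multiset.card α := by
  classical
  rw [wt_eq_card_filter]
  exact Multiset.card_le_card (Multiset.filter_le _ _)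

theorem wt_eq_card {E : Finset P} {α : Multiset P} (h : ∀ x ∈ α, x ∈ E) :
    wt E α = Multiset.card α := by
  classical
  rw [wt_eq_card_filter, Multiset.filter_eq_self.2 h]

theorem wt_eq_zero {E : Finset P} {α : Multiset P} (h : ∀ x ∈ α, x ∉ E) : wt E α = 0 := by
  classical
  rw [wt_eq_card_filter, Multiset.filter_eq_nil.2 h]
  simp

open Classical in
theorem wt_union_inter (E E' : Finset P) (α : Multiset P) :
    wt (E ∪ E') α + wt (E ∩ E') α = wt E α + wt E' α := by
  unfold wt
  exact Finset.sum_union_inter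

open Classical in
theorem wt_inter_ge (E E' : Finset P) (α : Multiset P) :
    wt E α + wt E' α ≤ wt (E ∩ E') α + Multiset.card α := by
  have h1 := wt_union_inter E E' α
  have h2 := wt_le_card (E ∪ E') α
  omega

open Classical in
/-- a sub-multiset that exhausts the weight on `E` is the part on `E` -/
theorem eq_filter {E : Finset P} {α β : Multiset P} (hle : β ≤ α) (hβ : ∀ x ∈ β, x ∈ E)
    (hc : wt E α ≤ Multiset.card β) : β = α.filter (· ∈ E) := by
  refine Multiset.eq_of_le_of_card_le (Multiset.le_filter.2 ⟨hle, hβ⟩) ?_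
  rwa [← wt_eq_card_filter]

/-- the known multisets for the radii `Q` -/
def UQ (P : Type) (k : ℕ) (Q : ℕ → ℕ) : Set (Multiset P) :=
  {β | ∃ E : Finset P, k < wt E β + Q E.card}

theorem up_UQ (k : ℕ) (Q : ℕ → ℕ) : Up (UQ P k Q) := by
  rintro α β hle ⟨E, hE⟩
  exact ⟨E, lt_of_lt_of_le hE (Nat.add_le_add_right (wt_mono E hle) _)⟩

open Classical in
/-- all multisets of `n` elements of `V` -/
noncomputable def msets (V : Finset P) : ℕ → Finset (Multiset P)
  | 0 => {0}
  | n + 1 => (V ×ˢ msets V n).image fun p => p.1 ::ₘ p.2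

theorem mem_msets {V : Finset P} {n : ℕ} {α : Multiset P} :
    α ∈ msets V n ↔ Multiset.card α = n ∧ ∀ x ∈ α, x ∈ V := by
  classical
  induction n generalizing α with
  | zero =>
    rw [msets, Finset.mem_singleton, Multiset.card_eq_zero]
    constructor
    · rintro rfl; simp
    · exact fun h => h.1
  | succ n ih =>
    rw [msets, Finset.mem_image]
    constructor
    · rintro ⟨⟨a, α'⟩, h, rfl⟩
      rw [Finset.mem_product] at h
      have h2 := ih.1 h.2
      refine ⟨by simp [h2.1], fun x hx => ?_⟩
      rcases Multiset.mem_cons.1 hx with rfl | hx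
      · exact h.1
      · exact h2.2 x hx
    · rintro ⟨hc, hV⟩
      obtain ⟨a, ha⟩ := Multiset.card_pos_iff_exists_mem.1 (by omega : 0 < Multiset.card α)
      obtain ⟨α', rfl⟩ := Multiset.exists_cons_of_mem ha
      refine ⟨(a, α'), ?_, rfl⟩
      rw [Finset.mem_product]
      refine ⟨hV a (Multiset.mem_cons_self _ _), ih.2 ⟨?_, fun x hx =>
        hV x (Multiset.mem_cons_of_mem hx)⟩⟩
      rw [Multiset.card_cons] at hc
      show Multiset.card α' = n
      omega

/-- a finite set of seeds from a predicate -/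
theorem exists_seeds (K : Cpx P ι) (n : ℕ) (p : Multiset P → Prop) :
    ∃ S : Finset (Multiset P), ∀ β, β ∈ S ↔ (Multiset.card β = n ∧ (∃ σ : K.Cell, On σ.1 β) ∧
      p β) := by
  classical
  refine ⟨(msets (K.cells.biUnion id) n).filter fun β => (∃ σ : K.Cell, On σ.1 β) ∧ p β, ?_⟩
  intro β
  rw [Finset.mem_filter, mem_msets]
  constructor
  · rintro ⟨⟨h1, h2⟩, h3⟩
    exact ⟨h1, h3⟩
  · rintro ⟨h1, ⟨σ, hσ⟩, h3⟩
    refine ⟨⟨h1, fun x hx => ?_⟩, ⟨σ, hσ⟩, h3⟩
    exact Finset.mem_biUnion.2 ⟨σ.1, σ.2, hσ x hx⟩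

theorem Q_anti {n : ℕ} {Q : ℕ → ℕ} (h : ∀ m, m + 1 ≤ n → Q (m + 1) ≤ Q m) {a b : ℕ}
    (hab : a ≤ b) (hb : b ≤ n) : Q b ≤ Q a := by
  induction b, hab using Nat.le_induction with
  | base => exact le_rfl
  | succ b hab ih => exact (h b hb).trans (ih (by omega))

/-- the zero stage: the radius of the faces of size `n` is raised from `e` to `e+1` -/
theorem zero_stage (K : Cpx P ι) {k r n e : ℕ} {Q : ℕ → ℕ} (hn : 1 ≤ n) (hQn : Q n = e)
    (hbig : ∀ m, n < m → Q m = 0) (hQ : ∀ m, m + 1 ≤ n → e + Q (m + 1) ≤ Q m)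
    (hQ2 : 2 * e < Q (n - 1)) :
    StepOK K k r (UQ P k Q) (UQ P k fun m => if m = n then e + 1 else Q m) := by
  classical
  have hanti : ∀ a b, a ≤ b → b ≤ n → Q b ≤ Q a := fun a b hab hb =>
    Q_anti (fun m hm => by have := hQ m hm; omega) hab hb
  obtain ⟨S, hS⟩ := exists_seeds K (k - e) (fun β => Multiset.card β + e = k ∧
    β.toFinset.card = n ∧ β ∉ UQ P k Q)
  refine ⟨up_UQ k Q, e, S, ?_, ?_, ?_, ?_, ?_⟩
  · intro β hβ
    obtain ⟨h1, h2, h3, h4, h5⟩ := (hS β).1 hβ
    refine ⟨h3, ?_, h2⟩
    rintro rfl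
    simp at h4
    omega
  · intro β₀ h0 β₁ h1 σ α hα hc hle0 hle1 hin
    obtain ⟨-, -, hc0, hn0, -⟩ := (hS β₀).1 h0
    obtain ⟨-, -, hc1, hn1, -⟩ := (hS β₁).1 h1
    have hsub : ∀ β : Multiset P, β ≤ α → Multiset.card β + e = k → β.toFinset.card = n →
        wt β.toFinset α = Multiset.card β := by
      intro β hle hcβ hnβ
      have h3 : wt β.toFinset β = Multiset.card β :=
        wt_eq_card fun x hx => Multiset.mem_toFinset.2 hx
      have h4 := wt_mono β.toFinset hle
      have h5 : ¬ k < wt β.toFinset α + Q β.toFinset.card := fun h => hin ⟨_, h⟩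
      rw [hnβ, hQn] at h5
      omega
    have h3 := hsub β₀ hle0 hc0 hn0
    have h4 := hsub β₁ hle1 hc1 hn1
    by_cases hE : β₀.toFinset = β₁.toFinset
    · rw [eq_filter hle0 (fun x hx => Multiset.mem_toFinset.2 hx) h3.le,
        eq_filter hle1 (fun x hx => Multiset.mem_toFinset.2 hx) h4.le, hE]
    · exfalso
      apply hin
      refine ⟨β₀.toFinset ∩ β₁.toFinset, ?_⟩
      have h5 := wt_inter_ge β₀.toFinset β₁.toFinset α
      have h6 : (β₀.toFinset ∩ β₁.toFinset).card < n := by
        rw [← hn0]
        refine Finset.card_lt_card (Finset.ssubset_iff_subset_ne.2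
          ⟨Finset.inter_subset_left, fun h => hE ?_⟩)
        refine Finset.eq_of_subset_of_card_le ?_ (by rw [hn0, hn1])
        rw [← h]; exact Finset.inter_subset_right
      have h7 := hanti _ (n - 1) (by omega : (β₀.toFinset ∩ β₁.toFinset).card ≤ n - 1) (by omega)
      omega
  · rintro σ β hβ ⟨E, hE⟩
    refine ⟨E, lt_of_lt_of_le hE ?_⟩
    show wt E β + Q E.card ≤ wt E β + (if E.card = n then e + 1 else Q E.card)
    by_cases h : E.card = n
    · rw [if_pos h, h, hQn]; omega
    · rw [if_neg h]
  · rintro σ β hβ ⟨E, hE⟩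
    beta_reduce at hE
    by_cases hin : β ∈ UQ P k Q
    · exact Or.inl hin
    right
    by_cases h : E.card = n
    swap
    · rw [if_neg h] at hE
      exact absurd ⟨E, hE⟩ hin
    rw [if_pos h] at hE
    have h1 : ¬ k < wt E β + Q E.card := fun h => hin ⟨_, h⟩
    rw [h, hQn] at h1
    have h2 := wt_eq_card_filter E β
    refine ⟨β.filter (· ∈ E), (hS _).2 ⟨by omega, ⟨σ, hβ.mono (Multiset.filter_le _ _)⟩,
      by omega, ?_, ?_⟩, Multiset.filter_le _ _⟩
    · have hsub : (β.filter (· ∈ E)).toFinset ⊆ E := by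
        intro x hx
        exact (Multiset.mem_filter.1 (Multiset.mem_toFinset.1 hx)).2
      by_contra hne
      have hlt : (β.filter (· ∈ E)).toFinset.card < n := by
        have := Finset.card_le_card hsub
        omega
      apply hin
      refine ⟨(β.filter (· ∈ E)).toFinset, ?_⟩
      have h3 : wt (β.filter (· ∈ E)).toFinset (β.filter (· ∈ E)) =
          Multiset.card (β.filter (· ∈ E)) := wt_eq_card fun x hx => Multiset.mem_toFinset.2 hx
      have h4 := wt_mono (β.filter (· ∈ E)).toFinset (Multiset.filter_le (· ∈ E) β)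
      have h5 := hanti _ (n - 1) (by omega : (β.filter (· ∈ E)).toFinset.card ≤ n - 1) (by omega)
      omega
    · intro h3
      exact hin (up_UQ k Q _ _ (Multiset.filter_le _ _) h3)
  · intro φ hφ β hβ
    obtain ⟨-, -, hc, hn', hnin⟩ := (hS β).1 hβ
    have hwt : wt β.toFinset β = Multiset.card β :=
      wt_eq_card fun x hx => Multiset.mem_toFinset.2 hx
    refine zero_g K (up_UQ k Q) hφ hc ?_ ?_
    · intro u hu
      refine ⟨β.toFinset, ?_⟩
      rw [← Multiset.singleton_add, wt_add, hwt, hn', hQn]
      have : wt β.toFinset {u} = 1 := by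
        rw [wt_eq_card (by intro x hx; rw [Multiset.mem_singleton.1 hx]; simpa using hu)]
        simp
      omega
    · intro σ hσ δ hδ hcδ hin
      by_contra hcon
      push Not at hcon
      obtain ⟨E', hE'⟩ := hin
      have hδ0 : wt β.toFinset δ = 0 := wt_eq_zero fun x hx h =>
        hcon x (Multiset.mem_toFinset.1 h) hx
      have h1 := wt_inter_ge β.toFinset E' (β + δ)
      rw [wt_add β.toFinset, hδ0, hwt, Multiset.card_add, hcδ] at h1
      have h2 := wt_le_card E' (β + δ)
      rw [Multiset.card_add, hcδ] at h2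
      have hE'n : E'.card ≤ n := by
        by_contra h
        rw [hbig _ (by omega)] at hE'
        omega
      have h3 : wt (β.toFinset ∩ E') (β + δ) = wt (β.toFinset ∩ E') β := by
        rw [wt_add, wt_eq_zero (α := δ), add_zero]
        intro x hx h
        exact hcon x (Multiset.mem_toFinset.1 (Finset.mem_inter.1 h).1) hx
      apply hnin
      by_cases hsub : E' ⊆ β.toFinset
      · refine ⟨E', ?_⟩
        have : β.toFinset ∩ E' = E' := Finset.inter_eq_right.2 hsub
        rw [this] at h3
        omega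
      · refine ⟨β.toFinset ∩ E', ?_⟩
        have h4 : (β.toFinset ∩ E').card < E'.card := by
          refine Finset.card_lt_card (Finset.ssubset_iff_subset_ne.2
            ⟨Finset.inter_subset_right, fun h => hsub ?_⟩)
          rw [← h]; exact Finset.inter_subset_left
        have h5 := hQ (E'.card - 1) (by omega)
        have h6 : E'.card - 1 + 1 = E'.card := by omega
        rw [h6] at h5
        have h7 := hanti (β.toFinset ∩ E').card (E'.card - 1) (by omega) (by omega)
        omega

end Pool.Agent.USP
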