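import Pool.Agent.USP.Step

/-! # Frames and the zero step -/

namespace Pool.Agent.USP

open MvPolynomial

variable {P ι : Type} [Fintype ι]

/-- the algebra endomorphism induced by a linear map -/
noncomputable def sym [DecidableEq ι] (pr : (ι → ℝ) →ₗ[ℝ] (ι → ℝ)) :
    MvPolynomial ι ℝ →ₐ[ℝ] MvPolynomial ι ℝ :=
  aeval fun i => lin (pr (Pi.single i 1))

theorem lin_single [DecidableEq ι] (i : ι) : lin (Pi.single i 1) = (X i : MvPolynomial ι ℝ) := by
  rw [lin_apply, Finset.sum_eq_single i]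
  · simp
  · intro j _ hj; simp [Pi.single_eq_of_ne hj]
  · simp

theorem sym_lin [DecidableEq ι] (pr : (ι → ℝ) →ₗ[ℝ] (ι → ℝ)) (x : ι → ℝ) :
    sym pr (lin x) = lin (pr x) := by
  have hx : x = ∑ i, x i • (Pi.single i 1 : ι → ℝ) := by
    ext j
    simp [Finset.sum_apply, Pi.single_apply]
  conv_rhs => rw [hx]
  rw [lin_apply, map_sum, map_sum, map_sum]
  refine Finset.sum_congr rfl fun i _ => ?_
  rw [map_smul, map_smul, map_smul, sym, aeval_X]

theorem sym_mon [DecidableEq ι] (pr : (ι → ℝ) →ₗ[ℝ] (ι → ℝ)) (c : P → ι → ℝ) (α : Multiset P) :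
    sym pr (mon c α) = (α.map fun p => lin (pr (c p))).prod := by
  induction α using Multiset.induction_on with
  | empty => simp [mon_zero]
  | cons a α ih =>
    rw [mon_cons, map_mul, ih, Multiset.map_cons, Multiset.prod_cons, sym_lin]

omit [Fintype ι] in
/-- projections along the span of a set of vertices -/
theorem exists_frame (c : P → ι → ℝ) (E : Set P) : ∃ pr : (ι → ℝ) →ₗ[ℝ] (ι → ℝ),
    (∀ u ∈ E, pr (c u) = 0) ∧ ∀ x, x - pr x ∈ Submodule.span ℝ (c '' E) := by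
  obtain ⟨f, hf⟩ := (Submodule.span ℝ (c '' E)).subtype.exists_leftInverse_of_injective
    (by simp)
  refine ⟨LinearMap.id - (Submodule.span ℝ (c '' E)).subtype.comp f, ?_, ?_⟩
  · intro u hu
    have hmem : c u ∈ Submodule.span ℝ (c '' E) := Submodule.subset_span ⟨u, hu, rfl⟩
    have := LinearMap.congr_fun hf ⟨c u, hmem⟩
    simp only [LinearMap.comp_apply, Submodule.subtype_apply, LinearMap.id_apply] at this
    simp [this]
  · intro x
    simp

theorem tele [DecidableEq ι] (c : P → ι → ℝ) {E G : Set P} (hEG : E ⊆ G)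
    (pr : (ι → ℝ) →ₗ[ℝ] (ι → ℝ)) (hpr : ∀ x, x - pr x ∈ Submodule.span ℝ (c '' E))
    (Λ : MvPolynomial ι ℝ →ₗ[ℝ] ℝ) (n₀ : ℕ)
    (hΛ : ∀ u ∈ E, ∀ γ : Multiset P, (∀ x ∈ γ, x ∈ G) → n₀ ≤ Multiset.card γ + 1 → ∀ q,
      Λ (lin (c u) * (mon c γ * q)) = 0) (γ : Multiset P) (hγ : ∀ x ∈ γ, x ∈ G)
    (hn : n₀ ≤ Multiset.card γ) (q : MvPolynomial ι ℝ) :
    Λ (mon c γ * q - sym pr (mon c γ * q)) = 0 := by
  have h1 : ∀ y ∈ Submodule.span ℝ (c '' E), ∀ γ : Multiset P, (∀ x ∈ γ, x ∈ G) →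
      n₀ ≤ Multiset.card γ + 1 → ∀ q, Λ (lin y * (mon c γ * q)) = 0 := by
    intro y hy γ hγ hn q
    induction hy using Submodule.span_induction with
    | mem y hy =>
      obtain ⟨u, hu, rfl⟩ := hy
      exact hΛ u hu γ hγ hn q
    | zero => simp
    | add a b _ _ ha hb => rw [map_add, add_mul, map_add, ha, hb, add_zero]
    | smul t a _ ha => rw [map_smul, smul_mul_assoc, map_smul, ha, smul_zero]
  have h2 : ∀ γ : Multiset P, (∀ x ∈ γ, x ∈ G) → n₀ ≤ Multiset.card γ + 1 → ∀ q p,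
      Λ (mon c γ * ((q - sym pr q) * p)) = 0 := by
    intro γ hγ hn q
    induction q using MvPolynomial.induction_on with
    | C a =>
      intro p
      have : sym pr (C a) = C a := by
        rw [← MvPolynomial.algebraMap_eq, AlgHom.commutes]
      rw [this]; simp
    | add a b ha hb =>
      intro p
      have : (a + b - sym pr (a + b)) * p = (a - sym pr a) * p + (b - sym pr b) * p := by
        rw [map_add]; ring
      rw [this, mul_add, map_add, ha, hb, add_zero]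
    | mul_X a i ha =>
      intro p
      have : mon c γ * ((a * X i - sym pr (a * X i)) * p) =
          mon c γ * ((a - sym pr a) * (X i * p)) +
          lin (Pi.single i 1 - pr (Pi.single i 1)) * (mon c γ * (sym pr a * p)) := by
        rw [map_mul, map_sub, lin_single]
        have : sym pr (X i) = lin (pr (Pi.single i 1)) := by rw [sym, aeval_X]
        rw [this]; ring
      rw [this, map_add, ha, h1 _ (hpr _) γ hγ hn, add_zero]
  have hprG : ∀ g ∈ G, pr (c g) ∈ Submodule.span ℝ (c '' G) := by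
    intro g hg
    have e1 : pr (c g) = c g - (c g - pr (c g)) := by abel
    rw [e1]
    exact Submodule.sub_mem _ (Submodule.subset_span ⟨g, hg, rfl⟩)
      (Submodule.span_mono (Set.image_mono hEG) (hpr _))
  have h3 : ∀ L₂ L₁ : Multiset P, (∀ x ∈ L₁, x ∈ G) → (∀ x ∈ L₂, x ∈ G) →
      n₀ ≤ Multiset.card L₁ + Multiset.card L₂ → ∀ q,
      Λ (mon c L₁ * ((mon c L₂ - sym pr (mon c L₂)) * q)) = 0 := by
    intro L₂
    induction L₂ using Multiset.induction_on with
    | empty => intro L₁ _ _ _ q; simp [mon_zero]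
    | cons g L ih =>
      intro L₁ hL₁ hL hn q
      have hg : g ∈ G := hL g (Multiset.mem_cons_self _ _)
      have hL' : ∀ x ∈ L, x ∈ G := fun x hx => hL x (Multiset.mem_cons_of_mem hx)
      have e1 : mon c L₁ * ((mon c (g ::ₘ L) - sym pr (mon c (g ::ₘ L))) * q) =
          lin (c g - pr (c g)) * (mon c (L₁ + L) * q) +
          lin (pr (c g)) * (mon c L₁ * ((mon c L - sym pr (mon c L)) * q)) := by
        rw [mon_cons, map_mul, sym_lin, map_sub, mon_add]; ring
      rw [e1, map_add, h1 _ (hpr _) (L₁ + L) ?_ ?_ q, zero_add]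
      · have : ∀ y ∈ Submodule.span ℝ (c '' G),
            Λ (lin y * (mon c L₁ * ((mon c L - sym pr (mon c L)) * q))) = 0 := by
          intro y hy
          induction hy using Submodule.span_induction with
          | mem y hy =>
            obtain ⟨u, hu, rfl⟩ := hy
            rw [← mul_assoc, ← mon_cons]
            refine ih (u ::ₘ L₁) ?_ hL' ?_ q
            · intro x hx
              rcases Multiset.mem_cons.1 hx with rfl | hx
              · exact hu
              · exact hL₁ x hx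
            · rw [Multiset.card_cons] at hn ⊢; omega
          | zero => simp
          | add a b _ _ ha hb => rw [map_add, add_mul, map_add, ha, hb, add_zero]
          | smul t a _ ha => rw [map_smul, smul_mul_assoc, map_smul, ha, smul_zero]
        exact this _ (hprG g hg)
      · intro x hx
        rcases Multiset.mem_add.1 hx with hx | hx
        · exact hL₁ x hx
        · exact hL' x hx
      · rw [Multiset.card_cons] at hn; rw [Multiset.card_add]; omega
  have e1 : mon c γ * q - sym pr (mon c γ * q) =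
      mon c γ * ((q - sym pr q) * 1) + mon c 0 * ((mon c γ - sym pr (mon c γ)) * sym pr q) := by
    rw [map_mul, mon_zero]; ring
  rw [e1, map_add, h2 γ hγ (by omega), h3 γ 0 (by simp) hγ (by simpa using hn), add_zero]

/-- a functional of degree `k` kills products of `n ≠ k` linear forms -/
theorem hom_zero {K : Cpx P ι} {k : ℕ} {σ : K.Cell} {φ : MvPolynomial ι ℝ →ₗ[ℝ] ℝ}
    (hφ : ∀ α, On σ.1 α → Multiset.card α ≠ k → φ (mon K.c α) = 0) {L : Multiset (ι → ℝ)}
    (hL : Multiset.card L ≠ k) : φ (L.map lin).prod = 0 := by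
  have h := prod_lin_mem K σ L
  generalize (L.map lin).prod = y at h
  induction h using Submodule.span_induction with
  | mem y hy =>
    obtain ⟨δ, hδ, hc, rfl⟩ := hy
    exact hφ δ hδ (by rw [hc]; exact hL)
  | zero => simp
  | add a b _ _ ha hb => rw [map_add, ha, hb, add_zero]
  | smul t a _ ha => rw [map_smul, ha, smul_zero]

/-- the part of degree `e` at a seed, seen through a frame -/
noncomputable def gfr [DecidableEq ι] (K : Cpx P ι) (φ : K.Fam) (β : Multiset P)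
    (pr : (ι → ℝ) →ₗ[ℝ] (ι → ℝ)) : K.Fam :=
  fun σ => (φ σ).comp ((LinearMap.mulLeft ℝ (mon K.c β)).comp (sym pr).toLinearMap)

theorem gfr_apply [DecidableEq ι] (K : Cpx P ι) (φ : K.Fam) (β : Multiset P)
    (pr : (ι → ℝ) →ₗ[ℝ] (ι → ℝ)) (σ : K.Cell) (p : MvPolynomial ι ℝ) :
    gfr K φ β pr σ p = φ σ (mon K.c β * sym pr p) := rfl

theorem gfr_hom [DecidableEq ι] (K : Cpx P ι) {k r e : ℕ} {U : Set (Multiset P)} {φ : K.Fam}
    (hφ : φ ∈ PS K k r U) {β : Multiset P} (hβ : Multiset.card β + e = k)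
    (pr : (ι → ℝ) →ₗ[ℝ] (ι → ℝ)) (σ : K.Cell) (δ : Multiset P)
    (hδ : Multiset.card δ ≠ e) : gfr K φ β pr σ (mon K.c δ) = 0 := by
  rw [gfr_apply, sym_mon]
  have : mon K.c β * (δ.map fun p => lin (pr (K.c p))).prod =
      (((β.map K.c) + (δ.map fun p => pr (K.c p))).map lin).prod := by
    rw [Multiset.map_add, Multiset.prod_add, Multiset.map_map, Multiset.map_map]
    rfl
  rw [this]
  refine hom_zero (hφ.1 σ) ?_
  rw [Multiset.card_add, Multiset.card_map, Multiset.card_map]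
  omega

theorem gfr_zero [DecidableEq ι] (K : Cpx P ι) (φ : K.Fam) (β : Multiset P)
    (pr : (ι → ℝ) →ₗ[ℝ] (ι → ℝ)) (hpr : ∀ u ∈ β, pr (K.c u) = 0) (σ : K.Cell) (δ : Multiset P)
    {u : P} (hu : u ∈ β) (hu' : u ∈ δ) : gfr K φ β pr σ (mon K.c δ) = 0 := by
  obtain ⟨δ', rfl⟩ := Multiset.exists_cons_of_mem hu'
  have h0 : sym pr (mon K.c (u ::ₘ δ')) = 0 := by
    rw [mon_cons, map_mul, sym_lin, hpr u hu, map_zero, zero_mul]
  rw [gfr_apply, h0, mul_zero, map_zero]

theorem gfr_diff [DecidableEq ι] (K : Cpx P ι) {k r : ℕ} {U : Set (Multiset P)} (hU : Up U)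
    {φ : K.Fam} (hφ : φ ∈ PS K k r U) {β : Multiset P}
    (ha : ∀ u ∈ β, u ::ₘ β ∈ U) (pr : (ι → ℝ) →ₗ[ℝ] (ι → ℝ))
    (hpr : ∀ x, x - pr x ∈ Submodule.span ℝ (K.c '' {u | u ∈ β})) (σ τ : K.Cell)
    (hσ : On σ.1 β) (hτ : On τ.1 β) (γ : Multiset P) (hγσ : On σ.1 γ) (hγτ : On τ.1 γ)
    (hk : k ≤ Multiset.card β + Multiset.card γ + r) (q : MvPolynomial ι ℝ) :
    φ σ (mon K.c (β + γ) * q) - gfr K φ β pr σ (mon K.c γ * q) =
      φ τ (mon K.c (β + γ) * q) - gfr K φ β pr τ (mon K.c γ * q) := by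
  have h := tele K.c (E := {u | u ∈ β}) (G := {x | x ∈ σ.1 ∧ x ∈ τ.1})
    (fun u hu => ⟨hσ u hu, hτ u hu⟩) pr hpr
    ((φ σ - φ τ).comp (LinearMap.mulLeft ℝ (mon K.c β))) (k - (Multiset.card β + r)) ?_ γ
    (fun x hx => ⟨hγσ x hx, hγτ x hx⟩) (by omega) q
  · simp only [LinearMap.comp_apply, LinearMap.mulLeft_apply, LinearMap.sub_apply,
      map_sub] at h
    rw [gfr_apply, gfr_apply, mon_add, mul_assoc]
    linarith
  · intro u hu γ hγ hn q
    simp only [LinearMap.comp_apply, LinearMap.mulLeft_apply, LinearMap.sub_apply]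
    have e1 : mon K.c β * (lin (K.c u) * (mon K.c γ * q)) = mon K.c (u ::ₘ β + γ) * q := by
      rw [mon_add, mon_cons]; ring
    rw [e1, sub_eq_zero]
    refine hφ.2 σ τ _ ?_ ?_ (hU _ _ (Multiset.le_add_right _ _) (ha u hu)) ?_ q
    · exact on_add.2 ⟨on_cons.2 ⟨hσ u hu, hσ⟩, fun x hx => (hγ x hx).1⟩
    · exact on_add.2 ⟨on_cons.2 ⟨hτ u hu, hτ⟩, fun x hx => (hγ x hx).2⟩
    · rw [Multiset.card_add, Multiset.card_cons]; omega

/-- the zero step -/
theorem zero_g (K : Cpx P ι) {k r e : ℕ} {U : Set (Multiset P)} (hU : Up U)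
    {φ : K.Fam} (hφ : φ ∈ PS K k r U) {β : Multiset P} (hβ : Multiset.card β + e = k)
    (ha : ∀ u ∈ β, u ::ₘ β ∈ U)
    (hb : ∀ σ : K.Cell, On σ.1 β → ∀ δ, On σ.1 δ → Multiset.card δ = e → β + δ ∈ U →
      ∃ u ∈ β, u ∈ δ) :
    ∃ g : K.Fam,
      (∀ σ : K.Cell, On σ.1 β → ∀ δ, On σ.1 δ → Multiset.card δ ≠ e → g σ (mon K.c δ) = 0) ∧
      (∀ σ : K.Cell, On σ.1 β → ∀ δ, On σ.1 δ → β + δ ∈ U → g σ (mon K.c δ) = 0) ∧
      (∀ σ τ : K.Cell, On σ.1 β → On τ.1 β → ∀ γ, On σ.1 γ → On τ.1 γ →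
        k ≤ Multiset.card β + Multiset.card γ + r → ∀ q,
        φ σ (mon K.c (β + γ) * q) - g σ (mon K.c γ * q) =
          φ τ (mon K.c (β + γ) * q) - g τ (mon K.c γ * q)) := by
  classical
  obtain ⟨pr, hpr1, hpr2⟩ := exists_frame K.c {u | u ∈ β}
  refine ⟨gfr K φ β pr, ?_, ?_, ?_⟩
  · intro σ _ δ _ hc
    exact gfr_hom K hφ hβ pr σ δ hc
  · intro σ hσ δ hδ hin
    by_cases hc : Multiset.card δ = e
    · obtain ⟨u, hu, hu'⟩ := hb σ hσ δ hδ hc hin
      exact gfr_zero K φ β pr hpr1 σ δ hu hu'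
    · exact gfr_hom K hφ hβ pr σ δ hc
  · intro σ τ hσ hτ γ hγσ hγτ hk q
    exact gfr_diff K hU hφ ha pr hpr2 σ τ hσ hτ γ hγσ hγτ hk q

end Pool.Agent.USP
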